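import Pool.Agent.Q169.Kh.Rel

/-!
# Words all of whose letters are `X`
-/

namespace Q169.Kh

open Finset

/-- sum of `φ` over the positions of the merged crossings -/
noncomputable def hX (φ : ℕ → ℝ) : ℕ → List Ltr → ℝ
  | _, [] => 0
  | o, z :: w => ∑ i ∈ range z.1, φ (o + i + 1) + hX φ (o + z.1 + 1) w

lemma hX_pair (φ : ℕ → ℝ) (o i c : ℕ) (l l' : Bool) (u : List Ltr) :
    hX φ o ((i, l) :: (c, l') :: u) =
      ∑ k ∈ range (i + c + 1), φ (o + k + 1) - φ (o + i + 1) + hX φ (o + (i + c) + 2) u := by
  have : i + c + 1 = i + (c + 1) := by ring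
  rw [this, Finset.sum_range_add, Finset.sum_range_succ' (fun x => φ (o + (i + x) + 1)) c]
  simp only [hX, add_zero]
  rw [show o + i + 1 + c + 1 = o + (i + c) + 2 by ring]
  have : ∀ k ∈ range c, φ (o + i + 1 + k + 1) = φ (o + (i + (k + 1)) + 1) := by
    intro k _
    congr 1
    ring
  rw [Finset.sum_congr rfl this]
  ring

lemma pureX_step (φ : ℕ → ℝ) (n : ℕ) (lam : ℝ) (hφ : ∀ i ≤ n + 1, 0 ≤ φ i)
    (hend : φ (n + 1) = 0)
    (hint : ∀ o a, o + a + 1 ≤ n + 1 → lam * ∑ i ∈ range a, φ (o + i + 1) ≤
      ∑ i ∈ range a, (2 * φ (o + i + 1) - φ o - φ (o + a + 1))) :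
    ∀ (w : List Ltr) (z : Ltr) (C : ℝ) (o : ℕ), ones (z :: w) = 0 → 0 ≤ C →
      o + tot (z :: w) + (z :: w).length = n + 1 →
      lam * hX φ o (z :: w) ≤ (dg (z :: w) - z.1) * (C + hX φ o (z :: w)) -
        mvs (z :: w) (fun v => C + hX φ o v) + ∑ i ∈ range z.1, (φ (o + i + 1) - φ o) := by
  intro w
  induction w with
  | nil =>
    rintro ⟨a, l⟩ C o h0 hC hs
    have hl : l = false := by
      cases l
      · rfl
      · simp at h0
    subst hl
    simp only [tot_cons, tot_nil, List.length_cons, List.length_nil] at hs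
    have hs' : o + a + 1 = n + 1 := by omega
    have h1 := hint o a hs'.le
    rw [hs', hend] at h1
    simp only [dg, mvs, hX, fc_card_false, add_zero, sub_zero]
    have hS : 0 ≤ ∑ i ∈ range a, φ (o + i + 1) := by
      apply Finset.sum_nonneg
      intro i hi
      rw [mem_range] at hi
      exact hφ _ (by omega)
    have h2 : ∑ i ∈ range a, φ (o + i + 1) ≤ a * (C + ∑ i ∈ range a, φ (o + i + 1)) := by
      rcases Nat.eq_zero_or_pos a with rfl | ha
      · simp
      · have : (1:ℝ) ≤ a := by exact_mod_cast ha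
        nlinarith
    have h3 : ∑ i ∈ range a, (2 * φ (o + i + 1) - φ o - 0) =
        ∑ i ∈ range a, φ (o + i + 1) + ∑ i ∈ range a, (φ (o + i + 1) - φ o) := by
      rw [← Finset.sum_add_distrib]
      apply Finset.sum_congr rfl
      intro i _
      ring
    rw [h3] at h1
    nlinarith
  | cons y u ih =>
    rintro ⟨a, l⟩ C o h0 hC hs
    rcases y with ⟨b, l'⟩
    have hl : l = false := by
      cases l
      · rfl
      · simp at h0
    subst hl
    have hl' : l' = false := by
      cases l'
      · rfl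
      · simp at h0
    subst hl'
    set C' : ℝ := C + ∑ i ∈ range a, φ (o + i + 1) with hC'
    have hsum : 0 ≤ ∑ i ∈ range a, φ (o + i + 1) := by
      apply Finset.sum_nonneg
      intro i hi
      rw [mem_range] at hi
      simp only [tot_cons, List.length_cons] at hs
      exact hφ _ (by omega)
    have ih' := ih (b, false) C' (o + a + 1) (by simpa using h0) (by positivity) (by
      simp only [tot_cons, List.length_cons] at hs ⊢
      omega)
    have hh := hint o a (by
      simp only [tot_cons, List.length_cons] at hs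
      omega)
    have hg : C + hX φ o ((a, false) :: (b, false) :: u) = C' + hX φ (o + a + 1) ((b, false) :: u) := by
      rw [hC']
      simp only [hX]
      ring
    have hm : mvs ((b, false) :: u) (fun v => C + hX φ o ((a, false) :: v)) =
        mvs ((b, false) :: u) (fun v => C' + hX φ (o + a + 1) v) := by
      apply mvs_congr
      intro v _
      rw [hC']
      simp only [hX]
      ring
    have hdg : dg ((a, false) :: (b, false) :: u) = 2 * a + dg ((b, false) :: u) := by
      simp only [dg, fc_card_false, nx, ok]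
      simp
    set G : ℝ := C + ∑ k ∈ range (a + b + 1), φ (o + k + 1) + hX φ (o + (a + b) + 2) u with hG
    have hgw : C' + hX φ (o + a + 1) ((b, false) :: u) = G - φ (o + a + 1) := by
      rw [← hg, hX_pair, hG]
      ring
    have hp : pms (a, false) (b, false) (fun p q => C + hX φ o (p :: q :: u)) =
        ∑ i ∈ range a, (G - φ (o + i + 1)) + ∑ j ∈ range b, (G - φ (o + a + 1 + j + 1)) := by
      simp only [pms]
      congr 1
      · apply Finset.sum_congr rfl
        intro i hi
        rw [mem_range] at hi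
        rw [hX_pair, show i + (a + b - i) = a + b by omega, hG]
        ring
      · apply Finset.sum_congr rfl
        intro j hj
        rw [mem_range] at hj
        rw [hX_pair, show a + j + 1 + (b - 1 - j) = a + b by omega, hG,
          show o + (a + j + 1) + 1 = o + a + 1 + j + 1 by ring]
        ring
    have e1 : mvs ((a, false) :: (b, false) :: u) (fun v => C + hX φ o v) =
        ∑ i ∈ range a, (G - φ (o + i + 1)) + ∑ j ∈ range b, (G - φ (o + a + 1 + j + 1)) +
        mvs ((b, false) :: u) (fun v => C' + hX φ (o + a + 1) v) := by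
      rw [mvs, hp, hm]
    have e2 : ∑ i ∈ range a, (2 * φ (o + i + 1) - φ o - φ (o + a + 1)) =
        a * (G - φ (o + a + 1)) - ∑ i ∈ range a, (G - φ (o + i + 1)) +
          ∑ i ∈ range a, (φ (o + i + 1) - φ o) := by
      have : (a : ℝ) * (G - φ (o + a + 1)) = ∑ i ∈ range a, (G - φ (o + a + 1)) := by
        rw [Finset.sum_const, card_range, nsmul_eq_mul]
      rw [this, ← Finset.sum_sub_distrib, ← Finset.sum_add_distrib]
      apply Finset.sum_congr rfl
      intro i _
      ring
    have e3 : ∑ j ∈ range b, (φ (o + a + 1 + j + 1) - φ (o + a + 1)) =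
        b * (G - φ (o + a + 1)) - ∑ j ∈ range b, (G - φ (o + a + 1 + j + 1)) := by
      have : (b : ℝ) * (G - φ (o + a + 1)) = ∑ i ∈ range b, (G - φ (o + a + 1)) := by
        rw [Finset.sum_const, card_range, nsmul_eq_mul]
      rw [this, ← Finset.sum_sub_distrib]
      apply Finset.sum_congr rfl
      intro i _
      ring
    have e4 : hX φ o ((a, false) :: (b, false) :: u) =
        ∑ i ∈ range a, φ (o + i + 1) + hX φ (o + a + 1) ((b, false) :: u) := by
      simp only [hX]
    rw [hg, e1, hdg, e4]
    simp only at ih' ⊢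
    rw [e2] at hh
    rw [e3] at ih'
    rw [hgw] at ih' ⊢
    linarith

lemma hX_nonneg (φ : ℕ → ℝ) (n : ℕ) (hφ : ∀ i ≤ n + 1, 0 ≤ φ i) :
    ∀ (w : List Ltr) (o : ℕ), o + tot w + w.length ≤ n + 1 → 0 ≤ hX φ o w := by
  intro w
  induction w with
  | nil => intro o _; simp [hX]
  | cons z w ih =>
    intro o h
    simp only [tot_cons, List.length_cons] at h
    simp only [hX]
    apply add_nonneg
    · apply Finset.sum_nonneg
      intro i hi
      rw [mem_range] at hi
      exact hφ _ (by omega)
    · exact ih _ (by omega)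

lemma hX_pos (φ : ℕ → ℝ) (n : ℕ) (hφ : ∀ i, 1 ≤ i → i ≤ n → 0 < φ i) :
    ∀ (w : List Ltr) (o : ℕ), o + tot w + w.length ≤ n + 1 → 1 ≤ tot w → 0 < hX φ o w := by
  intro w
  induction w with
  | nil => intro o _ h; simp at h
  | cons z w ih =>
    intro o h h1
    simp only [tot_cons, List.length_cons] at h h1
    simp only [hX]
    have hnn : 0 ≤ ∑ i ∈ range z.1, φ (o + i + 1) := by
      apply Finset.sum_nonneg
      intro i hi
      rw [mem_range] at hi
      exact (hφ _ (by omega) (by omega)).le
    rcases Nat.eq_zero_or_pos z.1 with hz | hz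
    · have := ih (o + z.1 + 1) (by omega) (by omega)
      linarith
    · have h2 : 0 < ∑ i ∈ range z.1, φ (o + i + 1) := by
        apply Finset.sum_pos
        · intro i hi
          rw [mem_range] at hi
          exact hφ _ (by omega) (by omega)
        · exact ⟨0, by simpa using hz⟩
      rcases Nat.eq_zero_or_pos (tot w) with hw | hw
      · have : hX φ (o + z.1 + 1) w = 0 := by
          clear ih h h1 h2 hnn
          generalize o + z.1 + 1 = o'
          induction w generalizing o' with
          | nil => simp [hX]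
          | cons y w ih =>
            simp only [tot_cons] at hw
            simp only [hX]
            rw [ih (by omega)]
            have : y.1 = 0 := by omega
            simp [this]
        linarith
      · have := ih (o + z.1 + 1) (by omega) hw
        linarith

/-- the row inequality for words of `X`'s -/
lemma pureX_row (φ : ℕ → ℝ) (n : ℕ) (lam : ℝ) (hφ : ∀ i ≤ n + 1, 0 ≤ φ i)
    (h0 : φ 0 = 0) (hend : φ (n + 1) = 0)
    (hint : ∀ o a, o + a + 1 ≤ n + 1 → lam * ∑ i ∈ range a, φ (o + i + 1) ≤
      ∑ i ∈ range a, (2 * φ (o + i + 1) - φ o - φ (o + a + 1)))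
    (w : List Ltr) (hw : ones w = 0) (hs : tot w + w.length = n + 1) :
    mvs w (hX φ 0) ≤ (dg w - lam) * hX φ 0 w := by
  cases w with
  | nil => simp at hs
  | cons z w =>
    have h := pureX_step φ n lam hφ hend hint w z 0 0 hw le_rfl (by simpa using hs)
    simp only [zero_add] at h
    rw [h0] at h
    have h1 : ∑ i ∈ range z.1, (φ (i + 1) - 0) ≤ z.1 * hX φ 0 (z :: w) := by
      have h2 : 0 ≤ hX φ (0 + z.1 + 1) w := by
        apply hX_nonneg φ n hφ
        simp only [tot_cons, List.length_cons] at hs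
        omega
      have h3 : ∑ i ∈ range z.1, (φ (i + 1) - 0) ≤ hX φ 0 (z :: w) := by
        simp only [hX, zero_add, sub_zero] at h2 ⊢
        linarith
      have h4 : 0 ≤ hX φ 0 (z :: w) := by
        apply hX_nonneg φ n hφ
        omega
      rcases Nat.eq_zero_or_pos z.1 with hz | hz
      · rw [hz]; simp
      · have : (1:ℝ) ≤ z.1 := by exact_mod_cast hz
        nlinarith
    linarith

lemma sin_pair (m u v : ℝ) (hm : 0 ≤ Real.sin m) (huv : |u| ≤ v) (hv : v ≤ Real.pi) :
    Real.sin (m + v) + Real.sin (m - v) ≤ Real.sin (m + u) + Real.sin (m - u) := by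
  have key : ∀ m u, Real.sin (m + u) + Real.sin (m - u) = 2 * Real.sin m * Real.cos u := by
    intro m u
    rw [Real.sin_add, Real.sin_sub]
    ring
  rw [key, key]
  have h1 : Real.cos v ≤ Real.cos u := by
    rw [← Real.cos_abs u]
    exact Real.cos_le_cos_of_nonneg_of_le_pi (abs_nonneg u) hv huv
  have : 0 ≤ 2 * Real.sin m := by linarith
  exact mul_le_mul_of_nonneg_left h1 this

/-- the interval inequality for the sine -/
lemma sin_interval (n : ℕ) (o a : ℕ) (h : o + a + 1 ≤ n + 1) :
    (2 - 2 * Real.cos (Real.pi / (n + 1))) *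
      ∑ i ∈ range a, Real.sin (Real.pi * ((o + i + 1 : ℕ) : ℝ) / (n + 1)) ≤
      ∑ i ∈ range a, (2 * Real.sin (Real.pi * ((o + i + 1 : ℕ) : ℝ) / (n + 1)) -
        Real.sin (Real.pi * ((o : ℕ) : ℝ) / (n + 1)) -
        Real.sin (Real.pi * ((o + a + 1 : ℕ) : ℝ) / (n + 1))) := by
  set φ : ℕ → ℝ := fun i => Real.sin (Real.pi * (i : ℝ) / (n + 1)) with hφ
  have hrec : ∀ i, (2 - 2 * Real.cos (Real.pi / (n + 1))) * φ (i + 1) =
      2 * φ (i + 1) - φ i - φ (i + 2) := by
    intro i
    have e1 : Real.pi * ((i : ℕ) : ℝ) / (n + 1) =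
        Real.pi * ((i + 1 : ℕ) : ℝ) / (n + 1) - Real.pi / (n + 1) := by
      push_cast; ring
    have e2 : Real.pi * ((i + 2 : ℕ) : ℝ) / (n + 1) =
        Real.pi * ((i + 1 : ℕ) : ℝ) / (n + 1) + Real.pi / (n + 1) := by
      push_cast; ring
    simp only [hφ]
    rw [e1, e2, Real.sin_add, Real.sin_sub]
    ring
  have htel : (2 - 2 * Real.cos (Real.pi / (n + 1))) * ∑ i ∈ range a, φ (o + i + 1) =
      φ (o + a) - φ o + φ (o + 1) - φ (o + a + 1) := by
    clear h
    induction a with
    | zero => simp
    | succ a ih =>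
      rw [Finset.sum_range_succ, mul_add, ih, hrec]
      rw [show o + (a + 1) = o + a + 1 by ring, show o + a + 1 + 1 = o + a + 2 by ring]
      ring
  change (2 - 2 * Real.cos (Real.pi / (n + 1))) * ∑ i ∈ range a, φ (o + i + 1) ≤
    ∑ i ∈ range a, (2 * φ (o + i + 1) - φ o - φ (o + a + 1))
  rw [htel]
  rcases Nat.eq_zero_or_pos a with rfl | ha
  · simp
  have hrefl : ∑ i ∈ range a, φ (o + i + 1) = ∑ i ∈ range a, φ (o + (a - 1 - i) + 1) :=
    (Finset.sum_range_reflect (fun i => φ (o + i + 1)) a).symm
  have e1 : ∑ i ∈ range a, (2 * φ (o + i + 1) - φ o - φ (o + a + 1)) =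
      ∑ i ∈ range a, (φ (o + i + 1) + φ (o + (a - 1 - i) + 1) - φ o - φ (o + a + 1)) := by
    have h1 : ∑ i ∈ range a, (2 * φ (o + i + 1) - φ o - φ (o + a + 1)) =
        ∑ i ∈ range a, φ (o + i + 1) + ∑ i ∈ range a, (φ (o + i + 1) - φ o - φ (o + a + 1)) := by
      rw [← Finset.sum_add_distrib]
      apply Finset.sum_congr rfl
      intro i _
      ring
    rw [h1]
    nth_rewrite 1 [hrefl]
    rw [← Finset.sum_add_distrib]
    apply Finset.sum_congr rfl
    intro i _
    ring
  have hnonneg : ∀ i ∈ range a,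
      0 ≤ φ (o + i + 1) + φ (o + (a - 1 - i) + 1) - φ o - φ (o + a + 1) := by
    intro i hi
    rw [mem_range] at hi
    set θ : ℝ := Real.pi / (n + 1) with hθ
    have hn : (0:ℝ) < n + 1 := by positivity
    have hθpos : 0 < θ := div_pos Real.pi_pos hn
    have hθn : θ * (n + 1) = Real.pi := by
      rw [hθ]; field_simp
    have hph : ∀ j, φ j = Real.sin (θ * j) := by
      intro j
      simp only [hφ, hθ]
      congr 1
      ring
    set m : ℝ := θ * (2 * o + a + 1) / 2 with hm
    set v : ℝ := θ * (a + 1) / 2 with hv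
    set u : ℝ := θ * (2 * (i:ℝ) + 1 - a) / 2 with hu
    have hoa : (o : ℝ) + a + 1 ≤ n + 1 := by exact_mod_cast h
    have hcast : ((a - 1 - i : ℕ) : ℝ) = a - 1 - i := by
      rw [Nat.cast_sub (by omega), Nat.cast_sub (by omega)]
      simp
    have h1 := sin_pair m u v (by
      apply Real.sin_nonneg_of_nonneg_of_le_pi
      · positivity
      · rw [hm]
        have h5 : θ * ((o:ℝ) + a + 1) ≤ θ * (n + 1) := mul_le_mul_of_nonneg_left hoa hθpos.le
        have h6 : θ * (o:ℝ) ≤ θ * ((o:ℝ) + a + 1) := by
          apply mul_le_mul_of_nonneg_left _ hθpos.le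
          have : (0:ℝ) ≤ a := by positivity
          linarith
        nlinarith) (by
      rw [abs_le]
      have hi0 : (0:ℝ) ≤ i := by positivity
      have hi1 : (i:ℝ) + 1 ≤ a := by exact_mod_cast hi
      rw [hu, hv]
      constructor
      · have : θ * (-(a + 1)) ≤ θ * (2 * (i:ℝ) + 1 - a) := by
          apply mul_le_mul_of_nonneg_left _ hθpos.le
          linarith
        linarith
      · have : θ * (2 * (i:ℝ) + 1 - a) ≤ θ * (a + 1) := by
          apply mul_le_mul_of_nonneg_left _ hθpos.le
          linarith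
        linarith) (by
      rw [hv]
      have h5 : θ * ((a:ℝ) + 1) ≤ θ * (n + 1) := by
        apply mul_le_mul_of_nonneg_left _ hθpos.le
        have : (0:ℝ) ≤ o := by positivity
        linarith
      nlinarith [Real.pi_pos])
    have e1 : m + v = θ * ((o + a + 1 : ℕ) : ℝ) := by
      rw [hm, hv]; push_cast; ring
    have e2 : m - v = θ * ((o : ℕ) : ℝ) := by
      rw [hm, hv]; ring
    have e3 : m + u = θ * ((o + i + 1 : ℕ) : ℝ) := by
      rw [hm, hu]; push_cast; ring
    have e4 : m - u = θ * ((o + (a - 1 - i) + 1 : ℕ) : ℝ) := by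
      push_cast
      rw [hcast, hm, hu]; ring
    rw [e1, e2, e3, e4, ← hph, ← hph, ← hph, ← hph] at h1
    linarith
  rw [e1]
  have h2 := Finset.single_le_sum hnonneg (Finset.mem_range.mpr ha)
  simp only [add_zero, tsub_zero] at h2
  rw [show o + (a - 1) + 1 = o + a by omega] at h2
  linarith

end Q169.Kh
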