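import Pool.Agent.Q169.Kh.TwoOnes
import Pool.Agent.Q169.Kh.PureX

/-!
# The two lower bounds
-/

namespace Q169.Kh

open Finset

/-- the cosine weight -/
noncomputable def cw (c : ℕ) (i : ℕ) : ℝ := Real.cos (Real.pi * (2 * (i : ℝ) - 1) / (2 * (c + 1)))

lemma cw_rec (c i : ℕ) :
    cw c i + cw c (i + 2) = (2 - (2 - 2 * Real.cos (Real.pi / (c + 1)))) * cw c (i + 1) := by
  have hc : (c : ℝ) + 1 ≠ 0 := by positivity
  unfold cw
  have e1 : Real.pi * (2 * (i : ℝ) - 1) / (2 * (c + 1)) =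
      Real.pi * (2 * ((i + 1 : ℕ) : ℝ) - 1) / (2 * (c + 1)) - Real.pi / (c + 1) := by
    push_cast; field_simp; ring
  have e2 : Real.pi * (2 * ((i + 2 : ℕ) : ℝ) - 1) / (2 * (c + 1)) =
      Real.pi * (2 * ((i + 1 : ℕ) : ℝ) - 1) / (2 * (c + 1)) + Real.pi / (c + 1) := by
    push_cast; field_simp; ring
  rw [e1, e2, Real.cos_add, Real.cos_sub]
  ring

lemma cw_zero (c : ℕ) : cw c 0 = cw c 1 := by
  unfold cw
  rw [← Real.cos_neg]
  congr 1
  push_cast
  ring

lemma cw_lt (c i : ℕ) (h1 : 1 ≤ i) (h2 : i ≤ c) : cw c (i + 1) < cw c i := by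
  unfold cw
  have h1' : (1 : ℝ) ≤ i := by exact_mod_cast h1
  have h2' : (i : ℝ) ≤ c := by exact_mod_cast h2
  have hc : (0 : ℝ) < 2 * (c + 1) := by positivity
  apply Real.cos_lt_cos_of_nonneg_of_le_pi
  · apply div_nonneg _ hc.le
    apply mul_nonneg Real.pi_pos.le
    linarith
  · rw [div_le_iff₀ hc]
    push_cast
    apply mul_le_mul_of_nonneg_left _ Real.pi_pos.le
    linarith
  · apply div_lt_div_of_pos_right _ hc
    apply mul_lt_mul_of_pos_left _ Real.pi_pos
    push_cast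
    linarith

lemma cw_last (c : ℕ) : cw c (c + 2) = cw c (c + 1) := by
  unfold cw
  have hc : (c : ℝ) + 1 ≠ 0 := by positivity
  rw [← Real.cos_two_pi_sub]
  congr 1
  push_cast
  field_simp
  ring

lemma cw_le (c i : ℕ) (h1 : 1 ≤ i) (h2 : i ≤ c + 1) : cw c (i + 1) ≤ cw c i := by
  rcases Nat.lt_or_ge i (c + 1) with h | h
  · exact (cw_lt c i h1 (by omega)).le
  · have : i = c + 1 := by omega
    subst this
    exact (cw_last c).le

/-- the weight of a word with two letters `1` -/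
noncomputable def hT (c : ℕ) (w : List Ltr) : ℝ := G0 (cw c) 1 (lb w)

lemma hT_pos {c : ℕ} {w : List Ltr} (hl : w.length = c) (ho : 2 ≤ ones w) : 0 < hT c w :=
  G0_pos (cw_le c) (cw_lt c) w 1 le_rfl (by omega) ho

/-- the edge weights for words with two letters `1` -/
noncomputable def kT (c : ℕ) (w v : List Ltr) : ℝ :=
  Ws v / Ws w * (1 + PP w v * (hT c v / hT c w - 1))

lemma kT_nonneg {c : ℕ} {w v : List Ltr} (hl : w.length = c) (ho : 2 ≤ ones w) (h : Mv w v) :
    0 ≤ kT c w v := by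
  obtain ⟨i1, _, i3⟩ := h.inv
  have p1 := hT_pos hl ho
  have p2 : 0 < hT c v := hT_pos (by omega) (by omega)
  obtain ⟨q1, q2⟩ := PP_bounds h
  unfold kT
  apply mul_nonneg
  · exact div_nonneg (Ws_pos v).le (Ws_pos w).le
  · have : 0 ≤ hT c v / hT c w := div_nonneg p2.le p1.le
    nlinarith

lemma kT_mul {c : ℕ} {w v : List Ltr} (hl : w.length = c) (ho : 2 ≤ ones w) (h : Mv w v) :
    1 ≤ kT c w v * kT c v w := by
  obtain ⟨i1, _, i3⟩ := h.inv
  have p1 := hT_pos hl ho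
  have p2 : 0 < hT c v := hT_pos (by omega) (by omega)
  obtain ⟨q1, q2⟩ := PP_bounds h
  unfold kT
  rw [PP_symm v w]
  have hw := Ws_pos w
  have hv := Ws_pos v
  set P := PP w v
  have e1 : Ws v / Ws w * (1 + P * (hT c v / hT c w - 1)) *
      (Ws w / Ws v * (1 + P * (hT c w / hT c v - 1))) =
      1 + P * (1 - P) * ((hT c v - hT c w) ^ 2 / (hT c w * hT c v)) := by
    field_simp
    ring
  rw [e1]
  have : 0 ≤ P * (1 - P) * ((hT c v - hT c w) ^ 2 / (hT c w * hT c v)) := by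
    apply mul_nonneg
    · exact mul_nonneg q1 (by linarith)
    · positivity
  linarith

lemma kT_row {c : ℕ} {w : List Ltr} (hl : w.length = c) (ho : 2 ≤ ones w) :
    mvs w (kT c w) ≤ dg w - (2 - 2 * Real.cos (Real.pi / (c + 1))) := by
  have hstep := twoOnes_step (φ := cw c) (c := c) (cw_le c) (cw_rec c) (cw_zero c) w hl ho
  have p1 := hT_pos hl ho
  cases w with
  | nil => simp at ho
  | cons z w =>
    have e1 : mvs (z :: w) (fun v => Ws v / Ws (z :: w) *
        (G0 (cw c) 1 (lb (z :: w)) + PP (z :: w) v *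
          (G0 (cw c) 1 (lb v) - G0 (cw c) 1 (lb (z :: w))))) =
        hT c (z :: w) * mvs (z :: w) (kT c (z :: w)) := by
      rw [← mvs_smul]
      apply mvs_congr
      intro v _
      unfold kT
      have : hT c (z :: w) ≠ 0 := p1.ne'
      change Ws v / Ws (z :: w) * (hT c (z :: w) + PP (z :: w) v *
          (hT c v - hT c (z :: w))) = _
      field_simp
    simp only [TT] at hstep
    rw [e1] at hstep
    change _ * hT c (z :: w) ≤ (dg (z :: w) - eh z) * hT c (z :: w) - _ at hstep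
    have h2 := eh_nonneg z
    have h3 : hT c (z :: w) * mvs (z :: w) (kT c (z :: w)) ≤
        hT c (z :: w) * (dg (z :: w) - (2 - 2 * Real.cos (Real.pi / (c + 1)))) := by
      nlinarith
    exact le_of_mul_le_mul_left h3 p1

/-- the sine weight -/
noncomputable def sw (n : ℕ) (i : ℕ) : ℝ := Real.sin (Real.pi * (i : ℝ) / (n + 1))

lemma sw_pos (n i : ℕ) (h1 : 1 ≤ i) (h2 : i ≤ n) : 0 < sw n i := by
  unfold sw
  have h1' : (1 : ℝ) ≤ i := by exact_mod_cast h1
  have h2' : (i : ℝ) ≤ n := by exact_mod_cast h2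
  have hc : (0 : ℝ) < n + 1 := by positivity
  apply Real.sin_pos_of_pos_of_lt_pi
  · apply div_pos _ hc
    exact mul_pos Real.pi_pos (by linarith)
  · rw [div_lt_iff₀ hc]
    exact mul_lt_mul_of_pos_left (by linarith) Real.pi_pos

lemma sw_zero (n : ℕ) : sw n 0 = 0 := by
  simp [sw]

lemma sw_last (n : ℕ) : sw n (n + 1) = 0 := by
  unfold sw
  have hc : (n : ℝ) + 1 ≠ 0 := by positivity
  push_cast
  rw [mul_div_cancel_right₀ _ hc]
  exact Real.sin_pi

lemma sw_nonneg (n i : ℕ) (h : i ≤ n + 1) : 0 ≤ sw n i := by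
  rcases Nat.eq_zero_or_pos i with rfl | hi
  · rw [sw_zero]
  · rcases Nat.lt_or_ge i (n + 1) with h | h'
    · exact (sw_pos n i hi (by omega)).le
    · have : i = n + 1 := by omega
      rw [this, sw_last]

lemma sw_hX_pos {n : ℕ} {w : List Ltr} (hs : tot w + w.length = n + 1) (ht : 1 ≤ tot w) :
    0 < hX (sw n) 0 w :=
  hX_pos (sw n) n (sw_pos n) w 0 (by omega) ht

lemma pureX_row' {n : ℕ} {w : List Ltr} (hs : tot w + w.length = n + 1) (ho : ones w = 0)
    (ht : 1 ≤ tot w) :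
    mvs w (fun v => hX (sw n) 0 v / hX (sw n) 0 w) ≤
      dg w - (2 - 2 * Real.cos (Real.pi / (n + 1))) := by
  have h := pureX_row (sw n) n (2 - 2 * Real.cos (Real.pi / (n + 1))) (sw_nonneg n) (sw_zero n)
    (sw_last n) (fun o a h => sin_interval n o a h) w ho hs
  have hp := sw_hX_pos hs ht
  have e1 : mvs w (fun v => hX (sw n) 0 v / hX (sw n) 0 w) =
      (1 / hX (sw n) 0 w) * mvs w (hX (sw n) 0) := by
    rw [← mvs_smul]
    apply mvs_congr
    intro v _
    ring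
  rw [e1]
  calc _ ≤ (1 / hX (sw n) 0 w) * ((dg w - (2 - 2 * Real.cos (Real.pi / (n + 1)))) *
        hX (sw n) 0 w) := by
        apply mul_le_mul_of_nonneg_left h
        positivity
    _ = _ := by
        field_simp

section matrix

variable {ι : Type*} [Fintype ι] [DecidableEq ι] (A : Matrix ι ι ℝ) (hA : A.IsSymm)
    (tw : ι → List Ltr) (htw : Function.Injective tw)
    (hrow : ∀ x y, A x y = lap (tw x) (fun v => if v = tw y then 1 else 0))

include hA htw hrow

/-- eigenvalues in the sectors with at least two letters `1` -/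
theorem lower_two (c : ℕ) (ψ : ι → ℝ)
    (hψ : ∀ x, ψ x ≠ 0 → (tw x).length = c ∧ 2 ≤ ones (tw x)) (hne : ψ ≠ 0) (μ : ℝ)
    (hμ : A.mulVec ψ = μ • ψ) : 2 - 2 * Real.cos (Real.pi / (c + 1)) ≤ μ := by
  apply schur A hA tw htw hrow {x | (tw x).length = c ∧ 2 ≤ ones (tw x)} (kT c)
    (2 - 2 * Real.cos (Real.pi / (c + 1))) _ _ _ ψ _ hne μ _
  · rintro x ⟨h1, h2⟩ v hv
    exact kT_nonneg h1 h2 hv
  · rintro x ⟨h1, h2⟩ y _ hm
    exact kT_mul h1 h2 hm
  · rintro x ⟨h1, h2⟩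
    exact kT_row h1 h2
  · intro x hx
    by_contra h
    exact hx (hψ x h)
  · intro x _
    rw [hμ]
    simp

/-- eigenvalues in the sectors with no letter `1` and a merged crossing -/
theorem lower_zero (n : ℕ) (ψ : ι → ℝ)
    (hψ : ∀ x, ψ x ≠ 0 → tot (tw x) + (tw x).length = n + 1 ∧ ones (tw x) = 0 ∧ 1 ≤ tot (tw x))
    (hne : ψ ≠ 0) (μ : ℝ)
    (hμ : A.mulVec ψ = μ • ψ) : 2 - 2 * Real.cos (Real.pi / (n + 1)) ≤ μ := by
  apply schur A hA tw htw hrow {x | tot (tw x) + (tw x).length = n + 1 ∧ ones (tw x) = 0 ∧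
    1 ≤ tot (tw x)} (fun w v => hX (sw n) 0 v / hX (sw n) 0 w)
    (2 - 2 * Real.cos (Real.pi / (n + 1))) _ _ _ ψ _ hne μ _
  · rintro x ⟨h1, h2, h3⟩ v hv
    obtain ⟨i1, i2, i3⟩ := hv.inv
    exact div_nonneg (sw_hX_pos (by omega) (by omega)).le (sw_hX_pos h1 h3).le
  · rintro x ⟨h1, h2, h3⟩ y ⟨h4, h5, h6⟩ _
    have p1 := sw_hX_pos h1 h3
    have p2 := sw_hX_pos h4 h6
    rw [div_mul_div_comm, mul_comm, div_self]
    positivity
  · rintro x ⟨h1, h2, h3⟩
    exact pureX_row' h1 h2 h3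
  · intro x hx
    by_contra h
    exact hx (hψ x h)
  · intro x _
    rw [hμ]
    simp

end matrix

end Q169.Kh
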