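import Pool.Agent.Q169.Kh.Defs
import Pool.Agent.Q169.Kh.Bounds

/-!
# From the cube of resolutions to words
-/

namespace Q169.Kh

open Finset

section sc

variable {n : ℕ}

lemma sc_succ (r : Fin (n + 1) → Bool) (a b : Fin (n + 1)) :
    SameCircle r a.succ b.succ ↔ SameCircle (Fin.tail r) a b := by
  unfold SameCircle
  rw [Fin.forall_fin_succ]
  simp only [Fin.tail]
  constructor
  · rintro ⟨_, h⟩ i hi
    apply h i
    simpa [← Fin.succ_castSucc] using hi
  · intro h
    refine ⟨?_, ?_⟩
    · rintro (⟨h1, _⟩ | ⟨h1, _⟩)
      · exact absurd h1 (by simp)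
      · exact absurd h1 (by simp)
    · intro i hi
      apply h i
      simpa [← Fin.succ_castSucc] using hi

lemma sc_zero_succ (r : Fin (n + 1) → Bool) (b : Fin (n + 1)) :
    SameCircle r 0 b.succ ↔ r 0 = true ∧ SameCircle (Fin.tail r) 0 b := by
  unfold SameCircle
  rw [Fin.forall_fin_succ]
  simp only [Fin.tail]
  constructor
  · rintro ⟨h0, h⟩
    refine ⟨h0 (Or.inl ⟨by simp, by simp [Fin.le_def]⟩), ?_⟩
    intro i hi
    apply h i
    rcases hi with ⟨_, h2⟩ | ⟨_, h2⟩
    · left
      exact ⟨by simp, by simpa using h2⟩
    · exact absurd h2 (by simp [Fin.le_def])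
  · rintro ⟨h0, h⟩
    refine ⟨fun _ => h0, ?_⟩
    intro i hi
    apply h i
    rcases hi with ⟨_, h2⟩ | ⟨_, h2⟩
    · left
      exact ⟨by simp, by simpa using h2⟩
    · exact absurd h2 (by simp [Fin.le_def])

lemma sc_comm (r : Fin n → Bool) (a b : Fin (n + 1)) : SameCircle r a b ↔ SameCircle r b a := by
  unfold SameCircle
  constructor <;> intro h i hi <;> exact h i hi.symm

lemma sc_self (r : Fin n → Bool) (a : Fin (n + 1)) : SameCircle r a a := by
  rintro i (⟨h1, h2⟩ | ⟨h1, h2⟩)
  · have := lt_of_lt_of_le (Fin.castSucc_lt_succ (i := i)) (h2.trans h1)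
    exact absurd this (lt_irrefl _)
  · have := lt_of_lt_of_le (Fin.castSucc_lt_succ (i := i)) (h2.trans h1)
    exact absurd this (lt_irrefl _)

end sc

/-- the labels are constant along the merged crossings -/
def Compat {n : ℕ} (r : Fin n → Bool) (l : Fin (n + 1) → Bool) : Prop :=
  ∀ a b, SameCircle r a b → l a = l b

lemma Compat.tail {n : ℕ} {r : Fin (n + 1) → Bool} {l : Fin (n + 2) → Bool} (h : Compat r l) :
    Compat (Fin.tail r) (Fin.tail l) := by
  intro a b hab
  exact h a.succ b.succ ((sc_succ r a b).mpr hab)

lemma Compat.zero {n : ℕ} {r : Fin (n + 1) → Bool} {l : Fin (n + 2) → Bool} (h : Compat r l)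
    (h0 : r 0 = true) : l 0 = l (Fin.succ 0) :=
  h 0 (Fin.succ 0) ((sc_zero_succ r 0).mpr ⟨h0, sc_self _ _⟩)

lemma compat_cons {n : ℕ} {r : Fin (n + 1) → Bool} {l : Fin (n + 2) → Bool}
    (h : Compat (Fin.tail r) (Fin.tail l)) (h0 : r 0 = true → l 0 = l (Fin.succ 0)) :
    Compat r l := by
  intro a b hab
  refine Fin.cases ?_ (fun a => ?_) a (motive := fun a => SameCircle r a b → l a = l b) hab
  · intro hab
    refine Fin.cases ?_ (fun b => ?_) b (motive := fun b => SameCircle r 0 b → l 0 = l b) hab
    · intro _; rfl
    · intro hab
      obtain ⟨h1, h2⟩ := (sc_zero_succ r b).mp hab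
      rw [h0 h1]
      exact h 0 b h2
  · intro hab
    refine Fin.cases ?_ (fun b => ?_) b (motive := fun b => SameCircle r a.succ b → l a.succ = l b) hab
    · intro hab
      obtain ⟨h1, h2⟩ := (sc_zero_succ r a).mp ((sc_comm _ _ _).mp hab)
      rw [h0 h1]
      exact (h 0 a h2).symm
    · intro hab
      exact h a b ((sc_succ r a b).mp hab)

/-- enlarge the first letter -/
def bump : List Ltr → List Ltr
  | [] => []
  | (a, l) :: w => (a + 1, l) :: w

/-- the word of a generator -/
def wd : (n : ℕ) → (Fin n → Bool) → (Fin (n + 1) → Bool) → List Ltr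
  | 0, _, l => [(0, l 0)]
  | n + 1, r, l =>
    if r 0 = true then bump (wd n (Fin.tail r) (Fin.tail l))
    else (0, l 0) :: wd n (Fin.tail r) (Fin.tail l)

lemma wd_head {n : ℕ} {r : Fin n → Bool} {l : Fin (n + 1) → Bool} (h : Compat r l) :
    ∃ a w, wd n r l = (a, l 0) :: w := by
  induction n with
  | zero => exact ⟨0, [], rfl⟩
  | succ n ih =>
    simp only [wd]
    split_ifs with h0
    · obtain ⟨a, w, e⟩ := ih h.tail
      refine ⟨a + 1, w, ?_⟩
      rw [e, bump, h.zero h0]
      rfl
    · exact ⟨0, _, rfl⟩

/-- relabel the first letter -/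
def setHead (m : Bool) : List Ltr → List Ltr
  | [] => []
  | (a, _) :: w => (a, m) :: w

lemma wd_relabel {n : ℕ} (r : Fin n → Bool) (l : Fin (n + 1) → Bool) (m : Bool) :
    wd n r (fun a => if SameCircle r a 0 then m else l a) = setHead m (wd n r l) := by
  induction n with
  | zero =>
    simp only [wd, setHead]
    rw [if_pos (sc_self _ _)]
  | succ n ih =>
    simp only [wd]
    by_cases h0 : r 0 = true
    · rw [if_pos h0, if_pos h0]
      have : Fin.tail (fun a => if SameCircle r a 0 then m else l a) =
          fun a => if SameCircle (Fin.tail r) a 0 then m else Fin.tail l a := by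
        funext a
        simp only [Fin.tail]
        have h1 : SameCircle r a.succ 0 ↔ SameCircle (Fin.tail r) a 0 := by
          rw [sc_comm, sc_zero_succ, sc_comm]
          simp [h0]
        by_cases h2 : SameCircle (Fin.tail r) a 0
        · rw [if_pos (h1.mpr h2)]
          exact (if_pos h2).symm
        · rw [if_neg (fun h => h2 (h1.mp h))]
          exact (if_neg h2).symm
      rw [this, ih]
      cases h : wd n (Fin.tail r) (Fin.tail l) with
      | nil => rfl
      | cons x w => rfl
    · rw [if_neg h0, if_neg h0]
      have : Fin.tail (fun a => if SameCircle r a 0 then m else l a) = Fin.tail l := by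
        funext a
        simp only [Fin.tail]
        rw [if_neg]
        rw [sc_comm, sc_zero_succ]
        simp [h0]
      rw [this, if_pos (sc_self _ _)]
      rfl

lemma bump_inj {u v : List Ltr} (hu : u ≠ []) (hv : v ≠ []) (h : bump u = bump v) : u = v := by
  cases u with
  | nil => exact absurd rfl hu
  | cons x u =>
    cases v with
    | nil => exact absurd rfl hv
    | cons y v =>
      rcases x with ⟨a, l⟩
      rcases y with ⟨b, l'⟩
      simp only [bump, List.cons.injEq, Prod.mk.injEq, add_left_inj] at h ⊢
      exact h

lemma wd_ne_nil {n : ℕ} (r : Fin n → Bool) (l : Fin (n + 1) → Bool) : wd n r l ≠ [] := by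
  induction n with
  | zero => simp [wd]
  | succ n ih =>
    simp only [wd]
    split_ifs
    · have := ih (Fin.tail r) (Fin.tail l)
      cases h : wd n (Fin.tail r) (Fin.tail l) with
      | nil => exact absurd h this
      | cons x w => simp [bump]
    · simp

lemma wd_inj {n : ℕ} {r r' : Fin n → Bool} {l l' : Fin (n + 1) → Bool} (h : Compat r l)
    (h' : Compat r' l') (e : wd n r l = wd n r' l') : r = r' ∧ l = l' := by
  induction n with
  | zero =>
    refine ⟨Subsingleton.elim _ _, ?_⟩
    funext a
    simp only [wd, List.cons.injEq, Prod.mk.injEq, true_and, and_true] at e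
    have ha : a = 0 := Fin.ext (by have := a.2; simp at this ⊢)
    rw [ha]
    exact e
  | succ n ih =>
    have key : r 0 = r' 0 ∧ l 0 = l' 0 ∧
        wd n (Fin.tail r) (Fin.tail l) = wd n (Fin.tail r') (Fin.tail l') := by
      obtain ⟨a, w, hw⟩ := wd_head h.tail
      obtain ⟨a', w', hw'⟩ := wd_head h'.tail
      simp only [wd] at e
      by_cases h0 : r 0 = true
      · by_cases h0' : r' 0 = true
        · rw [if_pos h0, if_pos h0'] at e
          have e' := bump_inj (wd_ne_nil _ _) (wd_ne_nil _ _) e
          refine ⟨by rw [h0, h0'], ?_, e'⟩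
          rw [hw, hw'] at e'
          simp only [List.cons.injEq, Prod.mk.injEq] at e'
          rw [h.zero h0, h'.zero h0']
          exact e'.1.2
        · rw [if_pos h0, if_neg h0', hw, bump] at e
          simp at e
      · by_cases h0' : r' 0 = true
        · rw [if_neg h0, if_pos h0', hw', bump] at e
          simp at e
        · rw [if_neg h0, if_neg h0'] at e
          simp only [List.cons.injEq, Prod.mk.injEq, true_and] at e
          refine ⟨?_, e.1, e.2⟩
          rw [Bool.not_eq_true] at h0 h0'
          rw [h0, h0']
    obtain ⟨k1, k2, k3⟩ := key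
    obtain ⟨i1, i2⟩ := ih h.tail h'.tail k3
    refine ⟨?_, ?_⟩
    · funext i
      refine Fin.cases k1 (fun i => ?_) i
      exact congrFun i1 i
    · funext i
      refine Fin.cases k2 (fun i => ?_) i
      exact congrFun i2 i

lemma wd_size {n : ℕ} (r : Fin n → Bool) (l : Fin (n + 1) → Bool) :
    tot (wd n r l) + (wd n r l).length = n + 1 := by
  induction n with
  | zero => simp [wd]
  | succ n ih =>
    have h := ih (Fin.tail r) (Fin.tail l)
    have h2 := wd_ne_nil (Fin.tail r) (Fin.tail l)
    simp only [wd]
    split_ifs
    · cases hw : wd n (Fin.tail r) (Fin.tail l) with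
      | nil => exact absurd hw h2
      | cons x w =>
        rw [hw] at h
        rcases x with ⟨a, m⟩
        simp only [bump, tot_cons, List.length_cons] at h ⊢
        omega
    · simp only [tot_cons, List.length_cons]
      omega

lemma wd_surj {n : ℕ} {w : List Ltr} (h : tot w + w.length = n + 1) (hne : w ≠ []) :
    ∃ (r : Fin n → Bool) (l : Fin (n + 1) → Bool), Compat r l ∧ wd n r l = w := by
  induction n generalizing w with
  | zero =>
    cases w with
    | nil => exact absurd rfl hne
    | cons x w =>
      rcases x with ⟨a, m⟩
      simp only [tot_cons, List.length_cons] at h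
      have ha : a = 0 := by omega
      have hw : w = [] := List.length_eq_zero_iff.mp (by omega)
      subst ha; subst hw
      refine ⟨Fin.elim0, fun _ => m, fun _ _ _ => rfl, rfl⟩
  | succ n ih =>
    cases w with
    | nil => exact absurd rfl hne
    | cons x w =>
      rcases x with ⟨a, m⟩
      simp only [tot_cons, List.length_cons] at h
      rcases Nat.eq_zero_or_pos a with rfl | ha
      · have hw : w ≠ [] := by
          rintro rfl
          simp at h
        obtain ⟨r, l, hc, e⟩ := ih (w := w) (by omega) hw
        refine ⟨Fin.cons false r, Fin.cons m l, ?_, ?_⟩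
        · apply compat_cons
          · rw [Fin.tail_cons, Fin.tail_cons]; exact hc
          · intro h0; simp at h0
        · simp only [wd, Fin.cons_zero, Fin.tail_cons]
          simp [e]
      · obtain ⟨r, l, hc, e⟩ := ih (w := (a - 1, m) :: w) (by
          simp only [tot_cons, List.length_cons]
          omega) (by simp)
        refine ⟨Fin.cons true r, Fin.cons m l, ?_, ?_⟩
        · apply compat_cons
          · rw [Fin.tail_cons, Fin.tail_cons]; exact hc
          · intro _
            obtain ⟨a', w', hw'⟩ := wd_head hc
            rw [e] at hw'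
            simp only [List.cons.injEq, Prod.mk.injEq] at hw'
            simp only [Fin.cons_zero, Fin.cons_succ]
            exact hw'.1.2
        · simp only [wd, Fin.cons_zero, Fin.tail_cons, if_true]
          rw [e, bump]
          rw [show a - 1 + 1 = a by omega]

/-- the matrix coefficient on words -/
noncomputable def dw (v u : List Ltr) : ℝ := dn u (fun w => if w = v then 1 else 0)

/-- raw version of `IsMerge` -/
def IsM {n : ℕ} (i : Fin n) (r : Fin n → Bool) (l : Fin (n + 1) → Bool) (r' : Fin n → Bool)
    (l' : Fin (n + 1) → Bool) : Prop :=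
  r i = false ∧ r' = Function.update r i true ∧ (l i.castSucc = true ∨ l i.succ = true) ∧
    ∀ a, l' a = if SameCircle r' a i.castSucc then (l i.castSucc && l i.succ) else l a

instance {n : ℕ} (i : Fin n) (r : Fin n → Bool) (l : Fin (n + 1) → Bool) (r' : Fin n → Bool)
    (l' : Fin (n + 1) → Bool) : Decidable (IsM i r l r' l') := by
  unfold IsM; infer_instance

lemma update_succ_iff {n : ℕ} (r r' : Fin (n + 1) → Bool) (i : Fin n) :
    r' = Function.update r i.succ true ↔
      r' 0 = r 0 ∧ Fin.tail r' = Function.update (Fin.tail r) i true := by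
  constructor
  · rintro rfl
    refine ⟨?_, ?_⟩
    · rw [Function.update_of_ne (Fin.succ_ne_zero i).symm]
    · funext j
      simp only [Fin.tail]
      by_cases hj : j = i
      · subst hj; simp
      · rw [Function.update_of_ne (fun h => hj (Fin.succ_injective _ h)),
          Function.update_of_ne hj]
        rfl
  · rintro ⟨h0, h⟩
    funext j
    refine Fin.cases ?_ (fun j => ?_) j
    · rw [Function.update_of_ne (Fin.succ_ne_zero i).symm, h0]
    · have := congrFun h j
      simp only [Fin.tail] at this
      rw [this]
      by_cases hj : j = i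
      · subst hj; simp
      · rw [Function.update_of_ne (fun h => hj (Fin.succ_injective _ h)),
          Function.update_of_ne hj]
        rfl

lemma isM_succ_false {n : ℕ} (i : Fin n) (r r' : Fin (n + 1) → Bool) (l l' : Fin (n + 2) → Bool)
    (h0 : r 0 = false) (h0' : r' 0 = false) :
    IsM i.succ r l r' l' ↔ l' 0 = l 0 ∧ IsM i (Fin.tail r) (Fin.tail l) (Fin.tail r') (Fin.tail l') := by
  unfold IsM
  rw [update_succ_iff, Fin.forall_fin_succ]
  have e1 : i.succ.castSucc = i.castSucc.succ := rfl
  have e2 : ¬ SameCircle r' 0 i.succ.castSucc := by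
    rw [e1, sc_zero_succ]
    simp [h0']
  rw [if_neg e2]
  simp only [e1, sc_succ]
  constructor
  · rintro ⟨a1, ⟨_, a2⟩, a3, a4, a5⟩
    exact ⟨a4, a1, a2, a3, a5⟩
  · rintro ⟨a4, a1, a2, a3, a5⟩
    exact ⟨a1, ⟨by rw [h0, h0'], a2⟩, a3, a4, a5⟩

lemma isM_succ_true {n : ℕ} (i : Fin n) (r r' : Fin (n + 1) → Bool) (l l' : Fin (n + 2) → Bool)
    (h0 : r 0 = true) (h0' : r' 0 = true) (hc : l 0 = l (Fin.succ 0))
    (hc' : l' 0 = l' (Fin.succ 0)) :
    IsM i.succ r l r' l' ↔ IsM i (Fin.tail r) (Fin.tail l) (Fin.tail r') (Fin.tail l') := by
  unfold IsM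
  rw [update_succ_iff, Fin.forall_fin_succ]
  have e1 : i.succ.castSucc = i.castSucc.succ := rfl
  simp only [e1, sc_succ, sc_zero_succ, h0', true_and]
  constructor
  · rintro ⟨a1, ⟨_, a2⟩, a3, a4, a5⟩
    exact ⟨a1, a2, a3, a5⟩
  · rintro ⟨a1, a2, a3, a5⟩
    refine ⟨a1, ⟨h0.symm, a2⟩, a3, ?_, a5⟩
    rw [hc', hc]
    exact a5 0

lemma card_succ {n : ℕ} (i : Fin n) (r : Fin (n + 1) → Bool) :
    (univ.filter (fun j => j < i.succ ∧ r j = true)).card =
      (if r 0 = true then 1 else 0) + (univ.filter (fun j => j < i ∧ Fin.tail r j = true)).card := by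
  rw [Finset.card_filter, Finset.card_filter, Fin.sum_univ_succ]
  have e0 : (if 0 < i.succ ∧ r 0 = true then 1 else 0) = (if r 0 = true then 1 else 0) := by
    by_cases h : r 0 = true
    · rw [if_pos h, if_pos ⟨Fin.succ_pos i, h⟩]
    · rw [if_neg h, if_neg (fun h' => h h'.2)]
  have e1 : ∀ j : Fin n, (if j.succ < i.succ ∧ r j.succ = true then 1 else 0) =
      (if j < i ∧ Fin.tail r j = true then 1 else 0) := by
    intro j
    by_cases h : j < i ∧ Fin.tail r j = true
    · rw [if_pos h, if_pos ⟨Fin.succ_lt_succ_iff.mpr h.1, h.2⟩]
    · rw [if_neg h, if_neg (fun h' => h ⟨Fin.succ_lt_succ_iff.mp h'.1, h'.2⟩)]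
  rw [e0, Finset.sum_congr rfl (fun j _ => e1 j)]

lemma dw_bump {u v : List Ltr} (hu : u ≠ []) (hv : v ≠ []) : dw (bump v) (bump u) = - dw v u := by
  cases u with
  | nil => exact absurd rfl hu
  | cons x u =>
    cases v with
    | nil => exact absurd rfl hv
    | cons y v =>
      rcases x with ⟨a, m⟩
      rcases y with ⟨b, m'⟩
      show dn ((a + 1, m) :: u) (fun w => if w = (b + 1, m') :: v then (1:ℝ) else 0) =
        - dn ((a, m) :: u) (fun w => if w = (b, m') :: v then (1:ℝ) else 0)
      rw [dn_cons_fun, dn_cons_fun]
      have e1 : sg (a + 1, m) = - sg (a, m) := by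
        simp [sg, pow_succ]
      have e2 : hm (a + 1, m) (fun w => if w = (b + 1, m') :: v then (1:ℝ) else 0) u =
          hm (a, m) (fun w => if w = (b, m') :: v then (1:ℝ) else 0) u := by
        cases u with
        | nil => rfl
        | cons z u =>
          simp only [hm, ok, pr, List.cons.injEq, Prod.mk.injEq]
          congr 1
          have : a + 1 + z.1 + 1 = b + 1 ↔ a + z.1 + 1 = b := by omega
          simp only [this]
      have e3 : (fun w => if (a + 1, m) :: w = (b + 1, m') :: v then (1:ℝ) else 0) =
          (fun w => if (a, m) :: w = (b, m') :: v then (1:ℝ) else 0) := by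
        funext w
        simp only [List.cons.injEq, Prod.mk.injEq, add_left_inj]
      rw [e1, e2, e3]
      ring

/-- the differential of the cube is the differential on words -/
lemma dw_eq {n : ℕ} (r r' : Fin n → Bool) (l l' : Fin (n + 1) → Bool) (h : Compat r l)
    (h' : Compat r' l') :
    (∑ i : Fin n, if IsM i r l r' l' then
      (-1 : ℝ) ^ (univ.filter (fun j => j < i ∧ r j = true)).card else 0) =
      dw (wd n r' l') (wd n r l) := by
  induction n with
  | zero => simp [dw, wd, dn]
  | succ n ih =>
    rw [Fin.sum_univ_succ]
    have hih := ih (Fin.tail r) (Fin.tail r') (Fin.tail l) (Fin.tail l') h.tail h'.tail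
    by_cases h0 : r 0 = true
    · have e0 : ¬ IsM 0 r l r' l' := by
        rintro ⟨a1, _⟩
        rw [h0] at a1
        exact absurd a1 (by simp)
      rw [if_neg e0, zero_add]
      by_cases h0' : r' 0 = true
      · -- both true
        have e1 : ∀ i : Fin n, (if IsM i.succ r l r' l' then
            (-1 : ℝ) ^ (univ.filter (fun j => j < i.succ ∧ r j = true)).card else 0) =
            - (if IsM i (Fin.tail r) (Fin.tail l) (Fin.tail r') (Fin.tail l') then
            (-1 : ℝ) ^ (univ.filter (fun j => j < i ∧ Fin.tail r j = true)).card else 0) := by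
          intro i
          have := isM_succ_true i r r' l l' h0 h0' (h.zero h0) (h'.zero h0')
          rw [card_succ, if_pos h0, pow_add, pow_one]
          by_cases hM : IsM i (Fin.tail r) (Fin.tail l) (Fin.tail r') (Fin.tail l')
          · rw [if_pos hM, if_pos (this.mpr hM)]
            ring
          · rw [if_neg hM, if_neg (fun h => hM (this.mp h))]
            ring
        rw [Finset.sum_congr rfl (fun i _ => e1 i), Finset.sum_neg_distrib, hih]
        simp only [wd]
        rw [if_pos h0, if_pos h0', dw_bump (wd_ne_nil _ _) (wd_ne_nil _ _)]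
      · -- r 0 true, r' 0 false
        rw [Bool.not_eq_true] at h0'
        have e1 : ∀ i : Fin n, ¬ IsM i.succ r l r' l' := by
          rintro i ⟨_, a2, _⟩
          rw [update_succ_iff] at a2
          rw [h0, h0'] at a2
          exact absurd a2.1 (by simp)
        rw [Finset.sum_eq_zero (fun i _ => if_neg (e1 i))]
        have hwd : wd (n + 1) r l = bump (wd n (Fin.tail r) (Fin.tail l)) := by
          simp [wd, h0]
        have hwd' : wd (n + 1) r' l' = (0, l' 0) :: wd n (Fin.tail r') (Fin.tail l') := by
          simp [wd, h0']
        obtain ⟨a, w, hw⟩ := wd_head h.tail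
        rw [hwd, hwd', hw]
        show _ = dn ((a + 1, Fin.tail l 0) :: w) (fun u => if u = (0, l' 0) ::
            wd n (Fin.tail r') (Fin.tail l') then (1:ℝ) else 0)
        rw [dn_cons_fun]
        have e2 : hm (a + 1, Fin.tail l 0) (fun u => if u = (0, l' 0) ::
            wd n (Fin.tail r') (Fin.tail l') then (1:ℝ) else 0) w = 0 := by
          cases w with
          | nil => rfl
          | cons z w =>
            simp [hm, pr]
        have e3 : (fun u => if (a + 1, Fin.tail l 0) :: u = (0, l' 0) ::
            wd n (Fin.tail r') (Fin.tail l') then (1:ℝ) else 0) = fun _ => 0 := by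
          funext u
          simp
        rw [e2, e3, dn_zero]
        simp
    · rw [Bool.not_eq_true] at h0
      by_cases h0' : r' 0 = true
      · -- r 0 false, r' 0 true
        have e1 : ∀ i : Fin n, ¬ IsM i.succ r l r' l' := by
          rintro i ⟨_, a2, _⟩
          rw [update_succ_iff] at a2
          rw [h0, h0'] at a2
          exact absurd a2.1 (by simp)
        rw [Finset.sum_eq_zero (fun i _ => if_neg (e1 i)), add_zero]
        obtain ⟨a, w, hw⟩ := wd_head h.tail
        have hcard : (univ.filter (fun j : Fin (n + 1) => j < 0 ∧ r j = true)).card = 0 := by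
          rw [Finset.card_eq_zero, Finset.filter_eq_empty_iff]
          intro j _
          simp
        rw [hcard, pow_zero]
        have hwd : wd (n + 1) r l = (0, l 0) :: wd n (Fin.tail r) (Fin.tail l) := by
          simp [wd, h0]
        have hwd' : wd (n + 1) r' l' = bump (wd n (Fin.tail r') (Fin.tail l')) := by
          simp [wd, h0']
        rw [hwd, hwd', hw]
        unfold dw
        rw [dn_cons_fun]
        have hl1 : Fin.tail l 0 = l (Fin.succ 0) := rfl
        obtain ⟨a', w', hw'⟩ := wd_head h'.tail
        have e3 : (fun u => if (0, l 0) :: u = bump (wd n (Fin.tail r') (Fin.tail l'))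
            then (1:ℝ) else 0) = fun _ => 0 := by
          funext u
          rw [hw', bump]
          simp
        rw [e3, dn_zero, add_zero]
        have hsg : sg (0, l 0) = 1 := by simp [sg]
        rw [hsg, one_mul]
        simp only [hm, pr, ok, zero_add]
        have hiff : IsM 0 r l r' l' ↔ ((l 0 = true ∨ Fin.tail l 0 = true) ∧
            (a + 1, l 0 && Fin.tail l 0) :: w = bump (wd n (Fin.tail r') (Fin.tail l'))) := by
          have hset : (a + 1, l 0 && Fin.tail l 0) :: w =
              bump (setHead (l 0 && Fin.tail l 0) (wd n (Fin.tail r) (Fin.tail l))) := by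
            rw [hw]
            rfl
          rw [hset]
          have hne : setHead (l 0 && Fin.tail l 0) (wd n (Fin.tail r) (Fin.tail l)) ≠ [] := by
            rw [hw]; simp [setHead]
          constructor
          · rintro ⟨_, a2, a3, a4⟩
            refine ⟨a3, ?_⟩
            have ht : Fin.tail r' = Fin.tail r := by
              rw [a2]
              funext j
              simp only [Fin.tail]
              rw [Function.update_of_ne (Fin.succ_ne_zero j)]
            rw [← wd_relabel]
            congr 2
            · exact ht.symm
            · funext b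
              have h5 := a4 b.succ
              simp only [Fin.tail]
              rw [h5]
              have h6 : SameCircle r' b.succ (Fin.castSucc 0) ↔ SameCircle (Fin.tail r) b 0 := by
                rw [Fin.castSucc_zero, sc_comm, sc_zero_succ, ht, sc_comm]
                simp [h0']
              by_cases h7 : SameCircle (Fin.tail r) b 0
              · rw [if_pos (h6.mpr h7)]
                exact if_pos h7
              · rw [if_neg (fun h => h7 (h6.mp h))]
                exact if_neg h7
          · rintro ⟨a3, a4⟩
            have a5 := bump_inj hne (wd_ne_nil _ _) a4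
            rw [← wd_relabel] at a5
            have hcomp : Compat (Fin.tail r) (fun b => if SameCircle (Fin.tail r) b 0 then
                (l 0 && Fin.tail l 0) else Fin.tail l b) := by
              have htrans : ∀ b c d : Fin (n + 1), SameCircle (Fin.tail r) b c →
                  SameCircle (Fin.tail r) c d → SameCircle (Fin.tail r) b d := by
                intro b c d hbc hcd i hi
                by_cases hic : c ≤ i.castSucc
                · rcases hi with ⟨_, hi⟩ | ⟨_, hi⟩
                  · exact hcd i (Or.inl ⟨hic, hi⟩)
                  · exact hbc i (Or.inr ⟨hic, hi⟩)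
                · have hic' : i.succ ≤ c := by
                    rw [not_le] at hic
                    exact Fin.castSucc_lt_iff_succ_le.mp hic
                  rcases hi with ⟨hi, _⟩ | ⟨hi, _⟩
                  · exact hbc i (Or.inl ⟨hi, hic'⟩)
                  · exact hcd i (Or.inr ⟨hi, hic'⟩)
              intro b c hbc
              by_cases hb : SameCircle (Fin.tail r) b 0
              · have hc := htrans c b 0 ((sc_comm _ _ _).mp hbc) hb
                simp only [hb, hc, if_true]
              · have hc : ¬ SameCircle (Fin.tail r) c 0 := fun hc => hb (htrans b c 0 hbc hc)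
                simp only [hb, hc, if_false]
                exact h.tail b c hbc
            obtain ⟨b1, b2⟩ := wd_inj hcomp h'.tail a5
            have hr' : r' = Function.update r 0 true := by
              funext j
              refine Fin.cases ?_ (fun j => ?_) j
              · simp [h0']
              · rw [Function.update_of_ne (Fin.succ_ne_zero j)]
                exact (congrFun b1 j).symm
            refine ⟨h0, hr', a3, ?_⟩
            have hsucc : ∀ b : Fin (n + 1), l' b.succ =
                if SameCircle r' b.succ (Fin.castSucc 0) then (l (Fin.castSucc 0) && l (Fin.succ 0))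
                else l b.succ := by
              intro b
              have h5 := congrFun b2 b
              simp only [Fin.tail] at h5
              rw [← h5]
              have h6 : SameCircle r' b.succ (Fin.castSucc 0) ↔ SameCircle (Fin.tail r) b 0 := by
                rw [Fin.castSucc_zero, sc_comm, sc_zero_succ, ← b1, sc_comm]
                simp [h0']
              by_cases h7 : SameCircle (Fin.tail r) b 0
              · rw [if_pos (h6.mpr h7)]
                exact if_pos h7
              · rw [if_neg (fun h => h7 (h6.mp h))]
                exact if_neg h7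
            intro b
            refine Fin.cases ?_ hsucc b
            have k1 : SameCircle r' (Fin.succ 0) (Fin.castSucc 0) := by
              rw [Fin.castSucc_zero, sc_comm, sc_zero_succ]
              exact ⟨h0', sc_self _ _⟩
            have k2 : SameCircle r' 0 (Fin.castSucc 0) := by
              rw [Fin.castSucc_zero]
              exact sc_self _ _
            rw [h'.zero h0', hsucc 0, if_pos k1, if_pos k2]
        by_cases hM : IsM 0 r l r' l'
        · rw [if_pos hM]
          obtain ⟨k1, k2⟩ := hiff.mp hM
          rw [if_pos k1, if_pos k2]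
        · rw [if_neg hM]
          by_cases k1 : l 0 = true ∨ Fin.tail l 0 = true
          · rw [if_pos k1, if_neg]
            intro k2
            exact hM (hiff.mpr ⟨k1, k2⟩)
          · rw [if_neg k1]
      · -- both false
        rw [Bool.not_eq_true] at h0'
        have e0 : ¬ IsM 0 r l r' l' := by
          rintro ⟨_, a2, _⟩
          have := congrFun a2 0
          rw [h0'] at this
          simp at this
        rw [if_neg e0, zero_add]
        have e1 : ∀ i : Fin n, (if IsM i.succ r l r' l' then
            (-1 : ℝ) ^ (univ.filter (fun j => j < i.succ ∧ r j = true)).card else 0) =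
            (if l' 0 = l 0 then 1 else 0) *
            (if IsM i (Fin.tail r) (Fin.tail l) (Fin.tail r') (Fin.tail l') then
            (-1 : ℝ) ^ (univ.filter (fun j => j < i ∧ Fin.tail r j = true)).card else 0) := by
          intro i
          have := isM_succ_false i r r' l l' h0 h0'
          rw [card_succ, if_neg (show ¬ r 0 = true by simp [h0]), zero_add]
          by_cases hM : IsM i (Fin.tail r) (Fin.tail l) (Fin.tail r') (Fin.tail l')
          · by_cases hl : l' 0 = l 0
            · rw [if_pos hM, if_pos hl, if_pos (this.mpr ⟨hl, hM⟩)]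
              ring
            · rw [if_neg hl, if_neg (fun h => hl (this.mp h).1)]
              ring
          · rw [if_neg hM, if_neg (fun h => hM (this.mp h).2)]
            ring
        rw [Finset.sum_congr rfl (fun i _ => e1 i), ← Finset.mul_sum, hih]
        have hwd : wd (n + 1) r l = (0, l 0) :: wd n (Fin.tail r) (Fin.tail l) := by
          simp [wd, h0]
        have hwd' : wd (n + 1) r' l' = (0, l' 0) :: wd n (Fin.tail r') (Fin.tail l') := by
          simp [wd, h0']
        rw [hwd, hwd']
        unfold dw
        rw [dn_cons_fun]
        have e2 : ∀ w, hm (0, l 0) (fun u => if u = (0, l' 0) ::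
            wd n (Fin.tail r') (Fin.tail l') then (1:ℝ) else 0) w = 0 := by
          intro w
          cases w with
          | nil => rfl
          | cons z w =>
            simp [hm, pr]
        have hsg : sg (0, l 0) = 1 := by simp [sg]
        rw [e2, zero_add, hsg, one_mul, ← dn_smul]
        congr 1
        funext u
        by_cases hl : l' 0 = l 0
        · simp [hl]
        · have : ¬ l 0 = l' 0 := fun h => hl h.symm
          simp [hl, this]

end Q169.Kh
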