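import Mathlib

/-!
# The Khovanov Laplacian of the twisted unknot diagrams `TU_n`

`TU_n` has `n` crossings; its all-0 resolution consists of the circles `C_0, ..., C_n` and the
crossing `i` joins `C_i` and `C_{i+1}`.  The circles of a resolution `r` are the classes of
`C_0, ..., C_n` under the identifications made by the 1-resolved crossings.
-/

namespace Q169.Kh

open Finset

/-- The circles `C_a` and `C_b` of the all-0 resolution lie in the same circle of the resolution
`r`: every crossing between them is 1-resolved (`true`). -/
def SameCircle {n : ℕ} (r : Fin n → Bool) (a b : Fin (n + 1)) : Prop :=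
  ∀ i : Fin n, (a ≤ i.castSucc ∧ i.succ ≤ b) ∨ (b ≤ i.castSucc ∧ i.succ ≤ a) → r i = true

instance {n : ℕ} (r : Fin n → Bool) (a b : Fin (n + 1)) : Decidable (SameCircle r a b) := by
  unfold SameCircle; infer_instance

/-- The orthonormal basis of the Khovanov chain space of `TU_n`: pairs of a resolution `r` and a
pure tensor of `1`'s and `X`'s, i.e. a label (`true` for `1`, `false` for `X`) of every circle
of `r`, recorded as a label of the `C_a`'s which is constant on the circles of `r`. -/
abbrev Gen (n : ℕ) : Type :=
  {x : (Fin n → Bool) × (Fin (n + 1) → Bool) // ∀ a b, SameCircle x.1 a b → x.2 a = x.2 b}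

/-- The resolution of a generator. -/
abbrev Gen.res {n : ℕ} (x : Gen n) : Fin n → Bool := x.1.1

/-- The labels of a generator. -/
abbrev Gen.lab {n : ℕ} (x : Gen n) : Fin (n + 1) → Bool := x.1.2

/-- The homological degree: the number of 1-resolved crossings. -/
def hdeg {n : ℕ} (x : Gen n) : ℕ := (univ.filter (fun i => x.res i = true)).card

/-- The `q`-degree: the sum over the circles of the resolution (each represented by its first
member `C_a`) of `+1` for the label `1` and `-1` for the label `X`, plus the homological
degree. -/
def qdeg {n : ℕ} (x : Gen n) : ℤ :=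
  (∑ a : Fin (n + 1), if (∀ b, SameCircle x.res b a → a ≤ b) then
    (if x.lab a = true then 1 else -1) else 0) + hdeg x

/-- `IsMerge i x y`: the pure tensor `y` is the image of the pure tensor `x` under the edge map of
the crossing `i`: `x` has the crossing `i` 0-resolved, `y` lives on the resolution with `i`
changed to its 1-resolution, the labels of the two circles merged at `i` are not both `X`, the
merged circle carries the product of the two labels and all other labels are unchanged.
(In `TU_n` a crossing always joins two different circles, so every edge map is a merge.) -/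
def IsMerge {n : ℕ} (i : Fin n) (x y : Gen n) : Prop :=
  x.res i = false ∧ y.res = Function.update x.res i true ∧
    (x.lab i.castSucc = true ∨ x.lab i.succ = true) ∧
    ∀ a, y.lab a = if SameCircle y.res a i.castSucc then (x.lab i.castSucc && x.lab i.succ)
      else x.lab a

instance {n : ℕ} (i : Fin n) (x y : Gen n) : Decidable (IsMerge i x y) := by
  unfold IsMerge; infer_instance

/-- The Khovanov differential (matrix in the basis `Gen n`), with the standard signs: the edge
at the crossing `i` gets the sign `(-1)` to the number of 1-resolved crossings before `i`. -/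
noncomputable def khDiff (n : ℕ) : Matrix (Gen n) (Gen n) ℝ :=
  fun y x => ∑ i : Fin n,
    if IsMerge i x y then (-1) ^ (univ.filter (fun j => j < i ∧ x.res j = true)).card else 0

/-- The Khovanov Laplacian `L = d d^† + d^† d`. -/
noncomputable def khLap (n : ℕ) : Matrix (Gen n) (Gen n) ℝ :=
  khDiff n * (khDiff n).transpose + (khDiff n).transpose * khDiff n

/-- The block `L_(k,j)` of the Laplacian in homological degree `k` and `q`-degree `j`. -/
noncomputable def khBlock (n k : ℕ) (j : ℤ) :
    Matrix {x : Gen n // hdeg x = k ∧ qdeg x = j} {x : Gen n // hdeg x = k ∧ qdeg x = j} ℝ :=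
  (khLap n).submatrix Subtype.val Subtype.val

/-- `μ` is an eigenvalue of the matrix `A`. -/
def IsEigenvalue {ι : Type} [Fintype ι] (A : Matrix ι ι ℝ) (μ : ℝ) : Prop :=
  ∃ v : ι → ℝ, v ≠ 0 ∧ A.mulVec v = μ • v

/-- `g` is the gap of the block `L_(k,j)(TU_n)`: its smallest nonzero eigenvalue. -/
def IsGap (n k : ℕ) (j : ℤ) (g : ℝ) : Prop :=
  IsLeast {μ : ℝ | μ ≠ 0 ∧ IsEigenvalue (khBlock n k j) μ} g

end Q169.Kh
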