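import Pool.Agent.Q169.Kh.Lower

/-!
# The eigenvector in bidegree `(0, 3 - n)`
-/

namespace Q169.Kh

open Finset

/-- the interaction of two adjacent labels -/
def li (H : List Bool → ℝ) (w : List Bool) : Bool → Bool → ℝ
  | true, true => H (true :: true :: w)
  | true, false => H (true :: false :: w) + H (false :: true :: w)
  | false, true => H (true :: false :: w) + H (false :: true :: w)
  | false, false => 0

/-- the Laplacian in homological degree 0, on label lists -/
noncomputable def LL : List Bool → (List Bool → ℝ) → ℝ
  | [], _ => 0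
  | [_], _ => 0
  | a :: b :: w, H => LL (b :: w) (fun v => H (a :: v)) + li H w a b

lemma fc_zero (l : Bool) : fc (0, l) = ∅ := by
  rw [Finset.eq_empty_iff_forall_notMem]
  intro p hp
  rw [mem_fc] at hp
  have := congrArg Prod.fst hp.2
  simp [pr] at this

lemma pint_zero (a b : Bool) (w : List Bool) (H : List Bool → ℝ) :
    pint (0, a) (0, b) (fun p q => H (p.2 :: q.2 :: w)) = li H w a b := by
  unfold pint
  rw [fc_zero, fc_zero]
  rcases a with _ | _ <;> rcases b with _ | _
  · simp [ok, li]
  · simp [ok, pr, li, fc_sum_false, sg]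
  · simp [ok, pr, li, fc_sum_false, sg]
  · simp [ok, pr, li, fc_sum_true, sg]

lemma lap_lb (w : List Ltr) (hw : tot w = 0) (H : List Bool → ℝ) :
    lap w (fun v => H (lb v)) = LL (lb w) H := by
  induction w generalizing H with
  | nil => simp [lap_nil, LL]
  | cons z w ih =>
    rcases z with ⟨a, l⟩
    simp only [tot_cons] at hw
    have ha : a = 0 := by omega
    subst ha
    cases w with
    | nil =>
      rw [lap_single, fc_zero]
      simp [LL]
    | cons y w =>
      rcases y with ⟨b, m⟩
      simp only [tot_cons] at hw
      have hb : b = 0 := by omega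
      subst hb
      rw [lap_cons_cons, fc_zero]
      have h1 := ih (by simp only [tot_cons]; omega) (fun v => H (l :: v))
      have h2 := pint_zero l m (lb w) H
      simp only [lb_cons] at h1 h2 ⊢
      rw [h1, h2, LL]
      simp

section one

variable (φ : ℕ → ℝ)

/-- signed value with one letter `1` left to be read, from position `m` on -/
noncomputable def P1 (α : ℝ) : ℕ → List Bool → ℝ
  | _, [] => 0
  | m, true :: _ => (-1) ^ m * (α - φ (m + 1))
  | m, false :: l => P1 α (m + 1) l

/-- signed value with two letters `1` left to be read, from position `m` on -/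
noncomputable def P0 : ℕ → List Bool → ℝ
  | _, [] => 0
  | m, true :: l => (-1) ^ m * P1 φ (φ m) (m + 1) l
  | m, false :: l => P0 (m + 1) l

/-- the sign of the first letter `1` -/
noncomputable def S1 : ℕ → List Bool → ℝ
  | _, [] => 0
  | m, true :: _ => (-1) ^ m
  | m, false :: l => S1 (m + 1) l

lemma P1_eq (α : ℝ) (m : ℕ) (l : List Bool) : P1 φ α m l = α * S1 m l + P1 φ 0 m l := by
  induction l generalizing m with
  | nil => simp [P1, S1]
  | cons b l ih =>
    cases b with
    | false => simp only [P1, S1]; exact ih _
    | true => simp only [P1, S1]; ring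

end one

lemma LL_smul (w : List Bool) (c : ℝ) (H : List Bool → ℝ) :
    LL w (fun v => c * H v) = c * LL w H := by
  induction w generalizing H with
  | nil => simp [LL]
  | cons a w ih =>
    cases w with
    | nil => simp [LL]
    | cons b w =>
      simp only [LL]
      rw [ih]
      rcases a with _ | _ <;> rcases b with _ | _ <;> simp only [li] <;> ring

lemma LL_false (w : List Bool) (hw : w.count true = 0) (H : List Bool → ℝ) : LL w H = 0 := by
  induction w generalizing H with
  | nil => simp [LL]
  | cons a w ih =>
    cases w with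
    | nil => simp [LL]
    | cons b w =>
      have ha : a = false := by
        rcases a with _ | _
        · rfl
        · simp at hw
      subst ha
      have hb : b = false := by
        rcases b with _ | _
        · rfl
        · simp at hw
      subst hb
      simp only [LL]
      rw [ih (by simpa using hw)]
      simp [li]

section main

variable {φ : ℕ → ℝ} {c : ℕ} {μ : ℝ} (hrec : ∀ i, φ i + φ (i + 2) = (2 - μ) * φ (i + 1))
  (h0 : φ 0 = φ 1) (hc : φ (c + 2) = φ (c + 1))

include hc in
lemma E1t (α : ℝ) (m : ℕ) (l : List Bool) (hl : l.count true = 0) (hm : m + l.length = c) :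
    LL (true :: l) (P1 φ α m) = (-1) ^ m * (φ (m + 2) - φ (m + 1)) := by
  cases l with
  | nil =>
    simp only [List.length_nil, add_zero] at hm
    subst hm
    simp [LL, hc]
  | cons b l =>
    have hb : b = false := by
      rcases b with _ | _
      · rfl
      · simp at hl
    subst hb
    simp only [LL, li]
    rw [LL_false (false :: l) hl]
    simp only [P1]
    rw [pow_succ]
    ring

include hrec hc in
lemma E1f (α : ℝ) (m : ℕ) (l : List Bool) (hl : l.count true = 1) (hm : m + l.length = c) :
    LL (false :: l) (P1 φ α m) = μ * P1 φ 0 m (false :: l) := by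
  induction l generalizing m with
  | nil => simp at hl
  | cons b l ih =>
    simp only [List.length_cons] at hm
    have e : (fun v => P1 φ α m (false :: v)) = P1 φ α (m + 1) := rfl
    cases b with
    | true =>
      have hl' : l.count true = 0 := by simpa using hl
      simp only [LL, li]
      rw [e, E1t hc α (m + 1) l hl' (by omega)]
      simp only [P1]
      have := hrec (m + 1)
      rw [pow_succ]
      linear_combination (-(-1) ^ m) * this
    | false =>
      have hl' : l.count true = 1 := by simpa using hl
      simp only [LL, li]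
      rw [e, ih (m + 1) hl' (by omega)]
      simp only [P1]
      ring

include hrec hc in
lemma E0t (m : ℕ) (l : List Bool) (hl : l.count true = 1) (hm : m + 1 + l.length = c) :
    LL (true :: l) (P0 φ (m + 1)) = μ * P0 φ (m + 1) (true :: l) -
      (-1) ^ (m + 1) * S1 (m + 2) l * (φ (m + 1) - φ m) := by
  cases l with
  | nil => simp at hl
  | cons b l =>
    simp only [List.length_cons] at hm
    have e : (fun v => P0 φ (m + 1) (true :: v)) =
        fun v => (-1) ^ (m + 1) * P1 φ (φ (m + 1)) (m + 2) v := rfl
    cases b with
    | true =>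
      have hl' : l.count true = 0 := by simpa using hl
      simp only [LL, li]
      rw [e, LL_smul, E1t hc (φ (m + 1)) (m + 2) l hl' (by omega)]
      simp only [P0, P1, S1]
      have h1 := hrec m
      have h2 := hrec (m + 2)
      have h3 : ((-1 : ℝ)) ^ m * (-1) ^ m = 1 := by
        rw [← mul_pow]; simp
      have e1 : ((-1 : ℝ)) ^ (m + 1) = - (-1) ^ m := by rw [pow_succ]; ring
      have e2 : ((-1 : ℝ)) ^ (m + 2) = (-1) ^ m := by rw [pow_add]; norm_num
      rw [show m + 1 + 1 = m + 2 from rfl, e1, e2]
      have h4 : φ (m + 2 + 1) = φ (m + 3) := rfl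
      have h5 : φ (m + 1 + 1) = φ (m + 2) := rfl
      have h6 := hrec (m + 1)
      rw [show m + 1 + 2 = m + 3 from rfl, show m + 1 + 1 = m + 2 from rfl] at h6
      rw [show m + 2 + 2 = m + 4 from rfl, show m + 2 + 1 = m + 3 from rfl] at h2 ⊢
      linear_combination ((-1) ^ m * (-1) ^ m) * (h1 - h2)
    | false =>
      have hl' : l.count true = 1 := by simpa using hl
      simp only [LL, li]
      rw [e, LL_smul, E1f hrec hc (φ (m + 1)) (m + 2) l hl' (by omega)]
      simp only [P0, P1, S1]
      rw [P1_eq φ (φ (m + 1)), P1_eq φ (φ (m + 1 + 1))]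
      have h1 := hrec m
      have e1 : ((-1 : ℝ)) ^ (m + 1) = - (-1) ^ m := by rw [pow_succ]; ring
      have e2 : ((-1 : ℝ)) ^ (m + 1 + 1) = (-1) ^ m := by rw [pow_succ, pow_succ]; ring
      rw [e2, e1]
      linear_combination ((-1) ^ m * S1 (m + 2 + 1) l) * h1

include hrec hc in
lemma E0f (m : ℕ) (l : List Bool) (hl : l.count true = 2) (hm : m + l.length = c) :
    LL (false :: l) (P0 φ m) = μ * P0 φ m (false :: l) := by
  induction l generalizing m with
  | nil => simp at hl
  | cons b l ih =>
    simp only [List.length_cons] at hm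
    have e : (fun v => P0 φ m (false :: v)) = P0 φ (m + 1) := rfl
    cases b with
    | true =>
      have hl' : l.count true = 1 := by simpa using hl
      simp only [LL, li]
      rw [e, E0t hrec hc m l hl' (by omega)]
      simp only [P0, P1]
      rw [P1_eq φ (φ m), P1_eq φ (φ (m + 1))]
      have e1 : ((-1 : ℝ)) ^ (m + 1) = - (-1) ^ m := by rw [pow_succ]; ring
      rw [e1]
      ring
    | false =>
      have hl' : l.count true = 2 := by simpa using hl
      simp only [LL, li]
      rw [e, ih (m + 1) hl' (by omega)]
      simp only [P0]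
      ring

include hrec hc h0 in
lemma E_total (l : List Bool) (hl : l.count true = 2) (hm : l.length = c) :
    LL l (P0 φ 1) = μ * P0 φ 1 l := by
  cases l with
  | nil => simp at hl
  | cons b l =>
    simp only [List.length_cons] at hm
    cases b with
    | true =>
      have hl' : l.count true = 1 := by simpa using hl
      rw [E0t hrec hc 0 l hl' (by omega), h0]
      ring
    | false =>
      have hl' : l.count true = 2 := by simpa using hl
      exact E0f hrec hc 1 l hl' (by omega)

end main

lemma count_lb (w : List Ltr) : (lb w).count true = ones w := by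
  induction w with
  | nil => rfl
  | cons x w ih =>
    rcases x with ⟨a, _ | _⟩
    · rw [lb_cons, ones_cons_false, ← ih]
      simp
    · rw [lb_cons, ones_cons_true, ← ih]
      simp

/-- the block in bidegree `(0, 3 - n)` has the eigenvalue `2 - 2 cos (π / (n + 2))` -/
theorem eigen_block (n : ℕ) (hn : 1 ≤ n) :
    IsEigenvalue (khBlock n 0 (3 - n)) (2 - 2 * Real.cos (Real.pi / (n + 2))) := by
  have hrec : ∀ i, cw (n + 1) i + cw (n + 1) (i + 2) =
      (2 - (2 - 2 * Real.cos (Real.pi / (n + 2)))) * cw (n + 1) (i + 1) := by
    intro i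
    have := cw_rec (n + 1) i
    rw [show (((n + 1 : ℕ) : ℝ) + 1) = (n : ℝ) + 2 by push_cast; ring] at this
    exact this
  have hblock : ∀ x : Gen n, (hdeg x = 0 ∧ qdeg x = 3 - n) ↔ (tot (tw x) = 0 ∧ ones (tw x) = 2) := by
    intro x
    rw [hdeg_eq, qdeg_eq]
    omega
  refine ⟨fun x => P0 (cw (n + 1)) 1 (lb (tw x.1)), ?_, ?_⟩
  · intro h
    obtain ⟨m, rfl⟩ : ∃ m, n = m + 1 := ⟨n - 1, by omega⟩
    obtain ⟨x, hx⟩ := tw_surj (n := m + 1)
      (w := (0, true) :: (0, true) :: List.replicate m (0, false)) (by
        have : tot (List.replicate m ((0, false) : Ltr)) = 0 := by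
          induction m with
          | zero => rfl
          | succ m ih => rw [List.replicate_succ, tot_cons]; simp [tot]
        simp only [tot_cons, this, List.length_cons, List.length_replicate]
        omega) (by simp)
    have h1 : tot (tw x) = 0 ∧ ones (tw x) = 2 := by
      rw [hx]
      constructor
      · simp [tot]
      · simp [ones]
    have h2 := congrFun h ⟨x, (hblock x).mpr h1⟩
    simp only [hx, lb_cons, P0, P1, Pi.zero_apply] at h2
    have h3 := cw_lt (m + 1 + 1) 1 le_rfl (by omega)
    have h4 := cw_lt (m + 1 + 1) 2 (by omega) (by omega)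
    norm_num at h2
    norm_num at h3 h4
    linarith
  · funext x
    obtain ⟨x, hx⟩ := x
    have hx' := (hblock x).mp hx
    have h1 := khLap_tw (fun v => P0 (cw (n + 1)) 1 (lb v)) x
    rw [lap_lb _ hx'.1] at h1
    have hlen : (lb (tw x)).length = n + 1 := by
      have := tw_size x
      simp only [lb, List.length_map]
      omega
    rw [E_total hrec (cw_zero _) (cw_last _) _ (by rw [count_lb]; exact hx'.2) hlen] at h1
    show (∑ y : {x : Gen n // hdeg x = 0 ∧ qdeg x = 3 - n},
      khLap n x y.1 * P0 (cw (n + 1)) 1 (lb (tw y.1))) = _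
    have h2 : (khLap n).mulVec (fun z => P0 (cw (n + 1)) 1 (lb (tw z))) x =
        ∑ y ∈ univ.filter (fun y : Gen n => hdeg y = 0 ∧ qdeg y = 3 - n),
          khLap n x y * P0 (cw (n + 1)) 1 (lb (tw y)) := by
      symm
      apply Finset.sum_subset (Finset.filter_subset _ _)
      intro y _ hy
      rw [mem_filter] at hy
      by_cases hxy : khLap n x y = 0
      · show khLap n x y * _ = 0
        rw [hxy, zero_mul]
      · exfalso
        apply hy
        refine ⟨mem_univ _, ?_⟩
        obtain ⟨i1, i2⟩ := khLap_supp hxy
        rw [hblock]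
        omega
    rw [h2, Finset.sum_subtype (univ.filter (fun y : Gen n => hdeg y = 0 ∧ qdeg y = 3 - n))
        (p := fun y => hdeg y = 0 ∧ qdeg y = 3 - n) (by simp)] at h1
    exact h1

end Q169.Kh
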