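import Pool.Agent.Q169.Kh.Eigen

/-!
# A nonzero block has a gap
-/

namespace Q169.Kh

open Finset

lemma exists_least {ι : Type} [Fintype ι] [DecidableEq ι] (A : Matrix ι ι ℝ) (hA : A.IsSymm)
    (h0 : A ≠ 0) : ∃ g, IsLeast {μ : ℝ | μ ≠ 0 ∧ IsEigenvalue A μ} g := by
  have hH : A.IsHermitian := by
    unfold Matrix.IsHermitian
    rw [Matrix.conjTranspose_eq_transpose_of_trivial]
    exact hA
  obtain ⟨i, hi⟩ : ∃ i, hH.eigenvalues i ≠ 0 := by
    by_contra h
    push Not at h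
    exact h0 (hH.eigenvalues_eq_zero_iff.mp (funext h))
  have hne : ({μ : ℝ | μ ≠ 0 ∧ IsEigenvalue A μ}).Nonempty := by
    refine ⟨hH.eigenvalues i, hi, ⇑(hH.eigenvectorBasis i), ?_, hH.mulVec_eigenvectorBasis i⟩
    intro h
    apply hH.eigenvectorBasis.orthonormal.ne_zero i
    ext j
    exact congrFun h j
  have hfin : ({μ : ℝ | μ ≠ 0 ∧ IsEigenvalue A μ}).Finite := by
    apply Set.Finite.subset (Module.End.finite_hasEigenvalue (Matrix.toLin' A))
    rintro μ ⟨_, v, hv, hμ⟩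
    apply Module.End.hasEigenvalue_of_hasEigenvector (x := v)
    refine ⟨?_, hv⟩
    rw [Module.End.mem_eigenspace_iff, Matrix.toLin'_apply]
    exact hμ
  obtain ⟨g, hg, hmin⟩ := Set.exists_min_image _ id hfin hne
  exact ⟨g, hg, fun μ hμ => hmin μ hμ⟩

lemma khBlock_symm (n k : ℕ) (j : ℤ) : (khBlock n k j).IsSymm := by
  unfold khBlock Matrix.IsSymm
  rw [Matrix.transpose_submatrix]
  have : (khLap n).transpose = khLap n := khLap_symm
  rw [this]

end Q169.Kh
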