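import Pool.Agent.Q169.Kh.Cube

/-!
# The Khovanov Laplacian as the Laplacian on words
-/

namespace Q169.Kh

open Finset

lemma dn_congr {u : List Ltr} {f g : List Ltr → ℝ}
    (h : ∀ v, tot v = tot u + 1 → v.length + 1 = u.length → ones v + 1 = ones u → v ≠ [] →
      f v = g v) : dn u f = dn u g := by
  induction u generalizing f g with
  | nil => simp [dn]
  | cons x u ih =>
    cases u with
    | nil => simp [dn]
    | cons y w =>
      simp only [dn]
      have h1 : dn (y :: w) (fun v => f (x :: v)) = dn (y :: w) (fun v => g (x :: v)) := by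
        apply ih
        intro v h1 h2 h3 _
        apply h
        · simp only [tot_cons] at h1 ⊢; omega
        · simp only [List.length_cons] at h2 ⊢; omega
        · rcases x with ⟨a, _ | _⟩
          · rw [ones_cons_false, ones_cons_false]; exact h3
          · rw [ones_cons_true, ones_cons_true]; omega
        · simp
      rw [h1]
      by_cases hok : ok x y
      · rw [if_pos hok, if_pos hok, h (pr x y :: w)]
        · simp only [tot_cons, pr]; omega
        · simp
        · rcases x with ⟨a, _ | _⟩ <;> rcases y with ⟨b, _ | _⟩
          · simp [ok] at hok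
          · simp [pr]
          · simp [pr]
          · simp [pr]
        · simp
      · rw [if_neg hok, if_neg hok]

lemma up_congr {u : List Ltr} {f g : List Ltr → ℝ}
    (h : ∀ v, tot v + 1 = tot u → v.length = u.length + 1 → ones v = ones u + 1 →
      f v = g v) : up u f = up u g := by
  induction u generalizing f g with
  | nil => simp [up]
  | cons z w ih =>
    simp only [up]
    have h1 : up w (fun v => f (z :: v)) = up w (fun v => g (z :: v)) := by
      apply ih
      intro v h1 h2 h3
      apply h
      · simp only [tot_cons] at h1 ⊢; omega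
      · simp only [List.length_cons] at h2 ⊢; omega
      · rcases z with ⟨a, _ | _⟩
        · rw [ones_cons_false, ones_cons_false]; exact h3
        · rw [ones_cons_true, ones_cons_true]; omega
    rw [h1]
    congr 1
    apply Finset.sum_congr rfl
    intro p hp
    rw [mem_fc] at hp
    obtain ⟨hok, hp⟩ := hp
    rw [h (p.1 :: p.2 :: w)]
    · rw [← hp]; simp only [tot_cons, pr]; omega
    · simp
    · rw [← hp]
      rcases p with ⟨⟨a, _ | _⟩, ⟨b, _ | _⟩⟩
      · simp [ok] at hok
      · simp [pr]
      · simp [pr]
      · simp [pr]

/-- `up` is the transpose of `dn` -/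
lemma up_ind (u v : List Ltr) :
    up u (fun w => if w = v then 1 else 0) = dn v (fun w => if w = u then 1 else 0) := by
  induction u generalizing v with
  | nil =>
    rw [up]
    have : dn v (fun w => if w = [] then (1:ℝ) else 0) = dn v (fun _ => 0) := by
      apply dn_congr
      intro w _ _ _ h
      rw [if_neg h]
    rw [this, dn_zero]
  | cons z u ih =>
    rw [up]
    cases v with
    | nil =>
      simp only [reduceCtorEq, if_false, mul_zero, Finset.sum_const_zero, zero_add]
      rw [up_zero, dn]
      simp
    | cons x v =>
      have h1 : up u (fun w => if z :: w = x :: v then (1:ℝ) else 0) =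
          if z = x then dn v (fun w => if w = u then 1 else 0) else 0 := by
        by_cases hzx : z = x
        · rw [if_pos hzx, ← ih]
          congr 1
          funext w
          simp [hzx]
        · rw [if_neg hzx]
          have : (fun w => if z :: w = x :: v then (1:ℝ) else 0) = fun _ => 0 := by
            funext w
            simp [hzx]
          rw [this, up_zero]
      rw [h1]
      cases v with
      | nil =>
        have : ∀ p ∈ fc z, sg p.1 * (if p.1 :: p.2 :: u = [x] then (1:ℝ) else 0) = 0 := by
          intro p _
          simp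
        rw [Finset.sum_eq_zero this]
        simp [dn]
      | cons y v =>
        have h2 : (∑ p ∈ fc z, sg p.1 * (if p.1 :: p.2 :: u = x :: y :: v then (1:ℝ) else 0)) =
            if (ok x y ∧ pr x y = z) ∧ u = v then sg x else 0 := by
          by_cases huv : u = v
          · by_cases hm : (x, y) ∈ fc z
            · rw [Finset.sum_eq_single (x, y)]
              · rw [mem_fc] at hm
                simp [huv, hm]
              · rintro ⟨p, q⟩ _ hne
                rw [if_neg, mul_zero]
                intro h
                simp only [List.cons.injEq] at h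
                exact hne (by rw [h.1, h.2.1])
              · intro h
                exact absurd hm h
            · rw [Finset.sum_eq_zero]
              · rw [if_neg]
                rintro ⟨h, _⟩
                exact hm ((mem_fc _ _).mpr h)
              · rintro ⟨p, q⟩ hp
                rw [if_neg, mul_zero]
                intro h
                simp only [List.cons.injEq] at h
                exact hm (by rw [← h.1, ← h.2.1]; exact hp)
          · rw [if_neg (fun h => huv h.2)]
            apply Finset.sum_eq_zero
            intro p _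
            rw [if_neg, mul_zero]
            intro h
            simp only [List.cons.injEq] at h
            exact huv h.2.2
        rw [h2, dn]
        have h3 : dn (y :: v) (fun w => if x :: w = z :: u then (1:ℝ) else 0) =
            if z = x then dn (y :: v) (fun w => if w = u then 1 else 0) else 0 := by
          by_cases hzx : z = x
          · rw [if_pos hzx]
            congr 1
            funext w
            simp [hzx]
          · rw [if_neg hzx]
            have : (fun w => if x :: w = z :: u then (1:ℝ) else 0) = fun _ => 0 := by
              funext w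
              simp [Ne.symm hzx]
            rw [this, dn_zero]
        rw [h3]
        have h4 : (if ok x y then (if pr x y :: v = z :: u then (1:ℝ) else 0) else 0) =
            if (ok x y ∧ pr x y = z) ∧ u = v then 1 else 0 := by
          by_cases hok : ok x y
          · by_cases h5 : pr x y = z
            · by_cases h6 : u = v
              · simp [hok, h5, h6]
              · simp [hok, h5, h6, Ne.symm h6]
            · simp [hok, h5]
          · simp [hok]
        rw [h4]
        by_cases hzx : z = x
        · rw [if_pos hzx, hzx]
          split_ifs <;> ring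
        · rw [if_neg hzx]
          split_ifs <;> ring

section gen

variable {n : ℕ}

/-- the word of a generator -/
def tw (x : Gen n) : List Ltr := wd n x.res x.lab

lemma tw_inj : Function.Injective (tw (n := n)) := by
  intro x y h
  obtain ⟨h1, h2⟩ := wd_inj (l := x.lab) (l' := y.lab) x.2 y.2 h
  exact Subtype.ext (Prod.ext h1 h2)

lemma tw_size (x : Gen n) : tot (tw x) + (tw x).length = n + 1 := wd_size _ _

lemma tw_surj {w : List Ltr} (h : tot w + w.length = n + 1) (hne : w ≠ []) :
    ∃ x : Gen n, tw x = w := by
  obtain ⟨r, l, hc, e⟩ := wd_surj h hne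
  exact ⟨⟨(r, l), hc⟩, e⟩

lemma khDiff_eq (x y : Gen n) : khDiff n y x = dw (tw y) (tw x) := by
  have := dw_eq x.res y.res x.lab y.lab x.2 y.2
  unfold tw
  rw [← this]
  unfold khDiff
  apply Finset.sum_congr rfl
  intro i _
  have hiff : IsMerge i x y ↔ IsM i x.res x.lab y.res y.lab := Iff.rfl
  by_cases h : IsMerge i x y
  · rw [if_pos h, if_pos (hiff.mp h)]
  · rw [if_neg h, if_neg (fun h' => h (hiff.mpr h'))]

lemma expand {f : List Ltr → ℝ} {v : List Ltr} (h : tot v + v.length = n + 1) (hne : v ≠ []) :
    f v = ∑ z : Gen n, f (tw z) * (if v = tw z then 1 else 0) := by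
  obtain ⟨x, rfl⟩ := tw_surj h hne
  rw [Finset.sum_eq_single x]
  · simp
  · intro y _ hy
    rw [if_neg (fun h => hy (tw_inj h).symm), mul_zero]
  · intro h
    exact absurd (mem_univ x) h

lemma dn_tw (x : Gen n) (f : List Ltr → ℝ) :
    dn (tw x) f = ∑ z : Gen n, khDiff n z x * f (tw z) := by
  have h1 : dn (tw x) f = dn (tw x) (fun v => ∑ z : Gen n, f (tw z) *
      (if v = tw z then 1 else 0)) := by
    apply dn_congr
    intro v h1 h2 _ h4
    apply expand _ h4
    have := tw_size x
    omega
  rw [h1, dn_sum]
  apply Finset.sum_congr rfl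
  intro z _
  rw [dn_smul, khDiff_eq, mul_comm]
  rfl

lemma up_tw (x : Gen n) (f : List Ltr → ℝ) :
    up (tw x) f = ∑ z : Gen n, khDiff n x z * f (tw z) := by
  have h1 : up (tw x) f = up (tw x) (fun v => ∑ z : Gen n, f (tw z) *
      (if v = tw z then 1 else 0)) := by
    apply up_congr
    intro v h1 h2 _
    have h4 : v ≠ [] := by
      rintro rfl
      simp at h2
    apply expand _ h4
    have := tw_size x
    omega
  rw [h1, up_sum]
  apply Finset.sum_congr rfl
  intro z _
  rw [up_smul, khDiff_eq, mul_comm, up_ind]
  rfl

lemma khLap_tw (g : List Ltr → ℝ) (x : Gen n) :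
    (khLap n).mulVec (fun z => g (tw z)) x = lap (tw x) g := by
  unfold khLap lap
  rw [Matrix.add_mulVec, Pi.add_apply, ← Matrix.mulVec_mulVec, ← Matrix.mulVec_mulVec]
  congr 1
  · rw [up_tw]
    unfold Matrix.mulVec dotProduct
    apply Finset.sum_congr rfl
    intro z _
    rw [dn_tw]
    rfl
  · rw [dn_tw]
    unfold Matrix.mulVec dotProduct
    apply Finset.sum_congr rfl
    intro z _
    rw [up_tw]
    rfl

lemma khLap_apply (x y : Gen n) :
    khLap n x y = lap (tw x) (fun v => if v = tw y then 1 else 0) := by
  rw [← khLap_tw]
  show _ = ∑ z, khLap n x z * (if tw z = tw y then 1 else 0)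
  rw [Finset.sum_eq_single y]
  · simp
  · intro z _ hz
    rw [if_neg (fun h => hz (tw_inj h)), mul_zero]
  · intro h
    exact absurd (mem_univ y) h

lemma khLap_symm : (khLap n).IsSymm := by
  unfold khLap Matrix.IsSymm
  rw [Matrix.transpose_add, Matrix.transpose_mul, Matrix.transpose_mul, Matrix.transpose_transpose]

lemma khDiff_sq : khDiff n * khDiff n = 0 := by
  ext y x
  rw [Matrix.mul_apply, Matrix.zero_apply]
  have : ∑ z, khDiff n y z * khDiff n z x = ∑ z, khDiff n z x * dw (tw y) (tw z) := by
    apply Finset.sum_congr rfl
    intro z _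
    rw [← khDiff_eq z y, mul_comm]
  rw [this]
  have h2 := dn_tw x (fun v => dw (tw y) v)
  rw [← h2]
  exact dn_dn _ _

lemma khDiff_supp {x y : Gen n} (h : khDiff n y x ≠ 0) :
    tot (tw y) = tot (tw x) + 1 ∧ ones (tw y) + 1 = ones (tw x) := by
  by_contra hne
  apply h
  rw [khDiff_eq]
  unfold dw
  have : dn (tw x) (fun w => if w = tw y then (1:ℝ) else 0) = dn (tw x) (fun _ => 0) := by
    apply dn_congr
    intro v h1 _ h3 _
    rw [if_neg]
    rintro rfl
    exact hne ⟨h1, h3⟩
  rw [this, dn_zero]

lemma khLap_supp {x y : Gen n} (h : khLap n x y ≠ 0) :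
    tot (tw x) = tot (tw y) ∧ ones (tw x) = ones (tw y) := by
  unfold khLap at h
  rw [Matrix.add_apply, Matrix.mul_apply, Matrix.mul_apply] at h
  have h' : (∃ z, khDiff n x z * (khDiff n).transpose z y ≠ 0) ∨
      (∃ z, (khDiff n).transpose x z * khDiff n z y ≠ 0) := by
    by_contra hne
    push Not at hne
    apply h
    rw [Finset.sum_eq_zero (fun z _ => hne.1 z), Finset.sum_eq_zero (fun z _ => hne.2 z), add_zero]
  rcases h' with ⟨z, hz⟩ | ⟨z, hz⟩
  · obtain ⟨h1, h2⟩ := khDiff_supp (left_ne_zero_of_mul hz)
    obtain ⟨h3, h4⟩ := khDiff_supp (x := z) (y := y) (right_ne_zero_of_mul hz)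
    constructor <;> omega
  · obtain ⟨h1, h2⟩ := khDiff_supp (x := x) (y := z) (left_ne_zero_of_mul hz)
    obtain ⟨h3, h4⟩ := khDiff_supp (right_ne_zero_of_mul hz)
    constructor <;> omega

end gen

section deg

lemma card_tot {n : ℕ} (r : Fin n → Bool) (l : Fin (n + 1) → Bool) :
    (univ.filter (fun i => r i = true)).card = tot (wd n r l) := by
  induction n with
  | zero => simp [wd]
  | succ n ih =>
    have h := ih (Fin.tail r) (Fin.tail l)
    rw [Finset.card_filter] at h ⊢
    rw [Fin.sum_univ_succ]
    have h' : (∑ i : Fin n, if r i.succ = true then 1 else 0) =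
        tot (wd n (Fin.tail r) (Fin.tail l)) := h
    rw [h']
    simp only [wd]
    by_cases h0 : r 0 = true
    · rw [if_pos h0, if_pos h0]
      cases hw : wd n (Fin.tail r) (Fin.tail l) with
      | nil => exact absurd hw (wd_ne_nil _ _)
      | cons x w =>
        rcases x with ⟨a, m⟩
        simp only [bump, tot_cons]
        omega
    · rw [if_neg h0, if_neg h0]
      simp

lemma lm_succ {n : ℕ} (r : Fin (n + 1) → Bool) (a : Fin (n + 1)) :
    (∀ b, SameCircle r b a.succ → a.succ ≤ b) ↔
      ¬ (r 0 = true ∧ SameCircle (Fin.tail r) 0 a) ∧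
        ∀ b, SameCircle (Fin.tail r) b a → a ≤ b := by
  rw [Fin.forall_fin_succ]
  rw [sc_zero_succ]
  constructor
  · rintro ⟨h1, h2⟩
    refine ⟨fun h => absurd (h1 h) (by simp), fun b hb => ?_⟩
    have := h2 b ((sc_succ r b a).mpr hb)
    exact Fin.succ_le_succ_iff.mp this
  · rintro ⟨h1, h2⟩
    refine ⟨fun h => absurd h h1, fun b hb => ?_⟩
    exact Fin.succ_le_succ_iff.mpr (h2 b ((sc_succ r b a).mp hb))

lemma sum_lm {n : ℕ} (r : Fin n → Bool) (l : Fin (n + 1) → Bool) (hc : Compat r l) :
    (∑ a : Fin (n + 1), if (∀ b, SameCircle r b a → a ≤ b) then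
      (if l a = true then (1 : ℤ) else -1) else 0) =
      2 * (ones (wd n r l) : ℤ) - (wd n r l).length := by
  induction n with
  | zero =>
    simp only [wd]
    have : ∀ a : Fin 1, (if (∀ b, SameCircle r b a → a ≤ b) then
      (if l a = true then (1 : ℤ) else -1) else 0) = if l 0 = true then 1 else -1 := by
      intro a
      have ha : a = 0 := Subsingleton.elim _ _
      subst ha
      rw [if_pos]
      intro b _
      simp
    rw [Finset.sum_congr rfl (fun a _ => this a)]
    by_cases h : l 0 = true
    · simp [h, ones_cons]
    · simp [h, ones_cons]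
  | succ n ih =>
    have h := ih (Fin.tail r) (Fin.tail l) hc.tail
    rw [Fin.sum_univ_succ]
    have e0 : (if (∀ b, SameCircle r b 0 → 0 ≤ b) then
      (if l 0 = true then (1 : ℤ) else -1) else 0) = if l 0 = true then (1 : ℤ) else -1 := by
      rw [if_pos]
      intro b _
      simp
    rw [e0]
    by_cases h0 : r 0 = true
    · have hw : wd (n + 1) r l = bump (wd n (Fin.tail r) (Fin.tail l)) := by simp [wd, h0]
      have e1 : (∑ a : Fin (n + 1), if (∀ b, SameCircle r b a.succ → a.succ ≤ b) then
          (if l a.succ = true then (1 : ℤ) else -1) else 0) + (if l 0 = true then (1 : ℤ) else -1) =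
          (∑ a : Fin (n + 1), if (∀ b, SameCircle (Fin.tail r) b a → a ≤ b) then
            (if Fin.tail l a = true then (1 : ℤ) else -1) else 0) := by
        rw [Fin.sum_univ_succ, Fin.sum_univ_succ (n := n)]
        have f1 : (if (∀ b, SameCircle r b (Fin.succ 0) → Fin.succ 0 ≤ b) then
            (if l (Fin.succ 0) = true then (1 : ℤ) else -1) else 0) = 0 := by
          rw [if_neg]
          rw [lm_succ]
          rintro ⟨h1, _⟩
          exact h1 ⟨h0, sc_self _ _⟩
        have f2 : (if (∀ b, SameCircle (Fin.tail r) b 0 → 0 ≤ b) then
            (if Fin.tail l 0 = true then (1 : ℤ) else -1) else 0) =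
            if l 0 = true then (1 : ℤ) else -1 := by
          rw [if_pos (fun b _ => by simp), hc.zero h0]
          rfl
        have f3 : ∀ a : Fin n, (if (∀ b, SameCircle r b a.succ.succ → a.succ.succ ≤ b) then
            (if l a.succ.succ = true then (1 : ℤ) else -1) else 0) =
            (if (∀ b, SameCircle (Fin.tail r) b a.succ → a.succ ≤ b) then
            (if Fin.tail l a.succ = true then (1 : ℤ) else -1) else 0) := by
          intro a
          have := lm_succ r a.succ
          by_cases h2 : ∀ b, SameCircle (Fin.tail r) b a.succ → a.succ ≤ b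
          · rw [if_pos h2, if_pos]
            · rfl
            · rw [this]
              refine ⟨?_, h2⟩
              rintro ⟨_, h3⟩
              exact absurd (h2 0 h3) (by simp)
          · rw [if_neg h2, if_neg]
            rw [this]
            exact fun h => h2 h.2
        rw [f1, f2, Finset.sum_congr rfl (fun a _ => f3 a)]
        ring
      rw [hw]
      have e2 : ones (bump (wd n (Fin.tail r) (Fin.tail l))) =
          ones (wd n (Fin.tail r) (Fin.tail l)) := by
        cases hw : wd n (Fin.tail r) (Fin.tail l) with
        | nil => rfl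
        | cons x w =>
          rcases x with ⟨a, _ | _⟩
          · simp [bump]
          · simp [bump]
      have e3 : (bump (wd n (Fin.tail r) (Fin.tail l))).length =
          (wd n (Fin.tail r) (Fin.tail l)).length := by
        cases hw : wd n (Fin.tail r) (Fin.tail l) with
        | nil => rfl
        | cons x w =>
          rcases x with ⟨a, m⟩
          simp [bump]
      rw [e2, e3, ← h, ← e1]
      ring
    · have hw : wd (n + 1) r l = (0, l 0) :: wd n (Fin.tail r) (Fin.tail l) := by simp [wd, h0]
      have e1 : ∀ a : Fin (n + 1), (if (∀ b, SameCircle r b a.succ → a.succ ≤ b) then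
          (if l a.succ = true then (1 : ℤ) else -1) else 0) =
          (if (∀ b, SameCircle (Fin.tail r) b a → a ≤ b) then
            (if Fin.tail l a = true then (1 : ℤ) else -1) else 0) := by
        intro a
        have := lm_succ r a
        by_cases h2 : ∀ b, SameCircle (Fin.tail r) b a → a ≤ b
        · rw [if_pos h2, if_pos]
          · rfl
          · rw [this]
            exact ⟨fun h3 => h0 h3.1, h2⟩
        · rw [if_neg h2, if_neg]
          rw [this]
          exact fun h => h2 h.2
      rw [Finset.sum_congr rfl (fun a _ => e1 a), h, hw]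
      by_cases hl : l 0 = true
      · rw [if_pos hl, hl]
        simp only [ones_cons_true, List.length_cons]
        push_cast
        ring
      · rw [if_neg hl]
        rw [Bool.not_eq_true] at hl
        rw [hl]
        simp only [ones_cons_false, List.length_cons]
        push_cast
        ring

variable {n : ℕ}

lemma hdeg_eq (x : Gen n) : hdeg x = tot (tw x) := card_tot _ _

lemma qdeg_eq (x : Gen n) : qdeg x = 2 * (ones (tw x) : ℤ) + 2 * (tot (tw x) : ℤ) - n - 1 := by
  unfold qdeg
  rw [sum_lm x.res x.lab x.2, hdeg_eq]
  have h := tw_size x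
  have h2 : (tot (tw x) : ℤ) + ((tw x).length : ℤ) = n + 1 := by exact_mod_cast h
  show 2 * (ones (tw x) : ℤ) - ((tw x).length : ℤ) + _ = _
  linarith

end deg

end Q169.Kh
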