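import Pool.Agent.Q169.Kh.Link

/-!
# The lower bound for every block
-/

namespace Q169.Kh

open Finset

lemma gap_mono {a b : ℝ} (ha : 1 ≤ a) (hab : a ≤ b) :
    2 - 2 * Real.cos (Real.pi / b) ≤ 2 - 2 * Real.cos (Real.pi / a) := by
  have hb : 0 < b := by linarith
  have ha' : 0 < a := by linarith
  have h1 : Real.cos (Real.pi / a) ≤ Real.cos (Real.pi / b) := by
    apply Real.cos_le_cos_of_nonneg_of_le_pi
    · exact div_nonneg Real.pi_pos.le hb.le
    · rw [div_le_iff₀ ha']
      nlinarith [Real.pi_pos]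
    · exact div_le_div_of_nonneg_left Real.pi_pos.le ha' hab
  linarith

variable {n : ℕ}

lemma khLap_comm_D : khLap n * khDiff n = khDiff n * khLap n := by
  unfold khLap
  have h := khDiff_sq (n := n)
  rw [Matrix.add_mul, Matrix.mul_add, Matrix.mul_assoc (khDiff n).transpose, h, Matrix.mul_zero,
    add_zero, ← Matrix.mul_assoc (khDiff n) (khDiff n), h, Matrix.zero_mul, zero_add,
    Matrix.mul_assoc]

lemma khLap_comm_DT : khLap n * (khDiff n).transpose = (khDiff n).transpose * khLap n := by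
  have h := congrArg Matrix.transpose (khLap_comm_D (n := n))
  rw [Matrix.transpose_mul, Matrix.transpose_mul] at h
  have hs : (khLap n).transpose = khLap n := khLap_symm
  rw [hs] at h
  exact h.symm

lemma D_supp {ψ : Gen n → ℝ} {k q : ℕ}
    (hψ : ∀ x, ψ x ≠ 0 → tot (tw x) = k ∧ ones (tw x) = q) (y : Gen n)
    (h : (khDiff n).mulVec ψ y ≠ 0) : tot (tw y) = k + 1 ∧ ones (tw y) + 1 = q := by
  have h' : (∑ x, khDiff n y x * ψ x) ≠ 0 := h
  obtain ⟨x, _, hx⟩ := Finset.exists_ne_zero_of_sum_ne_zero h'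
  obtain ⟨h1, h2⟩ := khDiff_supp (left_ne_zero_of_mul hx)
  obtain ⟨h3, h4⟩ := hψ x (right_ne_zero_of_mul hx)
  omega

lemma DT_supp {ψ : Gen n → ℝ} {k q : ℕ}
    (hψ : ∀ x, ψ x ≠ 0 → tot (tw x) = k ∧ ones (tw x) = q) (y : Gen n)
    (h : (khDiff n).transpose.mulVec ψ y ≠ 0) : tot (tw y) + 1 = k ∧ ones (tw y) = q + 1 := by
  have h' : (∑ x, khDiff n x y * ψ x) ≠ 0 := h
  obtain ⟨x, _, hx⟩ := Finset.exists_ne_zero_of_sum_ne_zero h'
  obtain ⟨h1, h2⟩ := khDiff_supp (left_ne_zero_of_mul hx)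
  obtain ⟨h3, h4⟩ := hψ x (right_ne_zero_of_mul hx)
  omega

lemma lower_gen (ψ : Gen n → ℝ) (k q : ℕ)
    (hψ : ∀ x, ψ x ≠ 0 → tot (tw x) = k ∧ ones (tw x) = q) (hne : ψ ≠ 0) (μ : ℝ) (hμ0 : μ ≠ 0)
    (hμ : (khLap n).mulVec ψ = μ • ψ) : 2 - 2 * Real.cos (Real.pi / (n + 2)) ≤ μ := by
  obtain ⟨x0, hx0⟩ : ∃ x, ψ x ≠ 0 := by
    by_contra h
    push Not at h
    exact hne (funext h)
  obtain ⟨hk0, hq0⟩ := hψ x0 hx0
  have hs0 := tw_size x0
  have hn0 : (tw x0) ≠ [] := wd_ne_nil _ _
  have hl0 : 1 ≤ (tw x0).length := List.length_pos_of_ne_nil hn0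
  have hlap : (khLap n).mulVec ψ = (khDiff n).mulVec ((khDiff n).transpose.mulVec ψ) +
      (khDiff n).transpose.mulVec ((khDiff n).mulVec ψ) := by
    unfold khLap
    rw [Matrix.add_mulVec, Matrix.mulVec_mulVec, Matrix.mulVec_mulVec]
  have two : ∀ (c : ℕ) (φ : Gen n → ℝ),
      (∀ x, φ x ≠ 0 → (tw x).length = c ∧ 2 ≤ ones (tw x)) → φ ≠ 0 →
      (khLap n).mulVec φ = μ • φ → c ≤ n + 1 → 2 - 2 * Real.cos (Real.pi / (n + 2)) ≤ μ := by
    intro c φ h1 h2 h3 h4
    have h5 := lower_two (khLap n) khLap_symm tw tw_inj khLap_apply c φ h1 h2 μ h3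
    refine le_trans ?_ h5
    apply gap_mono
    · have : (0:ℝ) ≤ c := Nat.cast_nonneg c
      linarith
    · have : (c : ℝ) ≤ n + 1 := by exact_mod_cast h4
      linarith
  have zero : ∀ (φ : Gen n → ℝ),
      (∀ x, φ x ≠ 0 → ones (tw x) = 0 ∧ 1 ≤ tot (tw x)) → φ ≠ 0 →
      (khLap n).mulVec φ = μ • φ → 2 - 2 * Real.cos (Real.pi / (n + 2)) ≤ μ := by
    intro φ h1 h2 h3
    have h5 := lower_zero (khLap n) khLap_symm tw tw_inj khLap_apply n φ
      (fun x hx => ⟨tw_size x, h1 x hx⟩) h2 μ h3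
    refine le_trans ?_ h5
    apply gap_mono
    · have : (0:ℝ) ≤ n := Nat.cast_nonneg n
      linarith
    · linarith
  have key : (khDiff n).mulVec ψ = 0 → (khDiff n).transpose.mulVec ψ = 0 → False := by
    intro h1 h2
    rw [h1, h2, Matrix.mulVec_zero, Matrix.mulVec_zero, add_zero, hμ] at hlap
    have := congrFun hlap x0
    simp only [Pi.smul_apply, smul_eq_mul, Pi.zero_apply, mul_eq_zero] at this
    rcases this with h | h
    · exact hμ0 h
    · exact hx0 h
  rcases Nat.lt_or_ge q 2 with hq | hq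
  · rcases Nat.eq_zero_or_pos q with hq | hq'
    · subst hq
      rcases Nat.eq_zero_or_pos k with hk | hk
      · subst hk
        exfalso
        apply key
        · funext y
          by_contra h
          have := D_supp hψ y h
          omega
        · funext y
          by_contra h
          have := DT_supp hψ y h
          omega
      · apply zero ψ _ hne hμ
        intro x hx
        obtain ⟨h1, h2⟩ := hψ x hx
        omega
    · have hq1 : q = 1 := by omega
      subst hq1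
      by_cases h1 : (khDiff n).mulVec ψ = 0
      · by_cases h2 : (khDiff n).transpose.mulVec ψ = 0
        · exact absurd (key h1 h2) id
        · obtain ⟨y0, hy0⟩ : ∃ y, (khDiff n).transpose.mulVec ψ y ≠ 0 := by
            by_contra h
            push Not at h
            exact h2 (funext h)
          have hy1 := DT_supp hψ y0 hy0
          apply two (n + 1 - (k - 1)) _ _ h2
          · rw [Matrix.mulVec_mulVec, khLap_comm_DT, ← Matrix.mulVec_mulVec, hμ,
              Matrix.mulVec_smul]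
          · omega
          · intro y hy
            have := DT_supp hψ y hy
            have := tw_size y
            omega
      · apply zero ((khDiff n).mulVec ψ) _ h1
        · rw [Matrix.mulVec_mulVec, khLap_comm_D, ← Matrix.mulVec_mulVec, hμ,
              Matrix.mulVec_smul]
        · intro y hy
          have := D_supp hψ y hy
          omega
  · apply two (n + 1 - k) ψ _ hne hμ
    · omega
    · intro x hx
      obtain ⟨h1, h2⟩ := hψ x hx
      have := tw_size x
      omega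

/-- every nonzero eigenvalue of a block is at least `2 - 2 cos (π / (n + 2))` -/
theorem lower_all (n k : ℕ) (j : ℤ) (μ : ℝ) (hμ0 : μ ≠ 0)
    (h : IsEigenvalue (khBlock n k j) μ) : 2 - 2 * Real.cos (Real.pi / (n + 2)) ≤ μ := by
  classical
  obtain ⟨v, hv, hvμ⟩ := h
  obtain ⟨P, hP⟩ : ∃ P : Gen n → Prop, ∀ x, P x ↔ (hdeg x = k ∧ qdeg x = j) :=
    ⟨_, fun _ => Iff.rfl⟩
  obtain ⟨ψ, hψP, hψN⟩ : ∃ ψ : Gen n → ℝ, (∀ x (h : hdeg x = k ∧ qdeg x = j), ψ x = v ⟨x, h⟩) ∧
      ∀ x, ¬ P x → ψ x = 0 := by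
    refine ⟨fun x => if h : (hdeg x = k ∧ qdeg x = j) then v ⟨x, h⟩ else 0,
      fun x h => dif_pos h, fun x h => dif_neg (fun h' => h ((hP x).mpr h'))⟩
  have hsame : ∀ x y, khLap n x y ≠ 0 → (P x ↔ P y) := by
    intro x y hxy
    obtain ⟨h1, h2⟩ := khLap_supp hxy
    rw [hP, hP, hdeg_eq, hdeg_eq, qdeg_eq, qdeg_eq, h1, h2]
  have hμ : (khLap n).mulVec ψ = μ • ψ := by
    funext x
    show (∑ y, khLap n x y * ψ y) = μ * ψ x
    by_cases hx : P x
    · have h1 : (∑ y, khLap n x y * ψ y) = ∑ y ∈ univ.filter P, khLap n x y * ψ y := by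
        symm
        apply Finset.sum_subset (Finset.filter_subset _ _)
        intro y _ hy
        rw [mem_filter] at hy
        rw [hψN y (fun h => hy ⟨mem_univ _, h⟩), mul_zero]
      rw [h1, Finset.sum_subtype (univ.filter P) (p := fun x => hdeg x = k ∧ qdeg x = j)
        (by simp [hP])]
      have h2 := congrFun hvμ ⟨x, (hP x).mp hx⟩
      have h3 : (khBlock n k j).mulVec v ⟨x, (hP x).mp hx⟩ =
        ∑ y : {x : Gen n // hdeg x = k ∧ qdeg x = j}, khLap n x y * v y := rfl
      rw [h3] at h2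
      rw [hψP x ((hP x).mp hx)]
      refine Eq.trans ?_ h2
      apply Finset.sum_congr rfl
      rintro ⟨y, hy⟩ _
      rw [hψP y hy]
    · rw [hψN x hx, mul_zero]
      apply Finset.sum_eq_zero
      intro y _
      by_cases hxy : khLap n x y = 0
      · rw [hxy, zero_mul]
      · rw [hψN y (fun h => hx ((hsame x y hxy).mpr h)), mul_zero]
  have hne : ψ ≠ 0 := by
    intro h0
    apply hv
    funext x
    have := hψP x.1 x.2
    rw [h0] at this
    exact this.symm
  obtain ⟨x0, hx0⟩ : ∃ x, ψ x ≠ 0 := by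
    by_contra h
    push Not at h
    exact hne (funext h)
  apply lower_gen ψ (tot (tw x0)) (ones (tw x0)) _ hne μ hμ0 hμ
  intro x hx
  have hPx : P x := by
    by_contra h
    exact hx (hψN x h)
  have hPx0 : P x0 := by
    by_contra h
    exact hx0 (hψN x0 h)
  rw [hP, hdeg_eq, qdeg_eq] at hPx hPx0
  omega

end Q169.Kh
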