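import Pool.Agent.Q169.Kh.Words

/-!
# Moves between words
-/

namespace Q169.Kh

open Finset

lemma fc_sum_true (a : ℕ) (G : Ltr × Ltr → ℝ) :
    ∑ p ∈ fc (a, true), G p = ∑ i ∈ range a, G ((i, true), (a - 1 - i, true)) := by
  symm
  apply Finset.sum_bij (fun i _ => ((i, true), (a - 1 - i, true)))
  · intro i hi
    rw [mem_range] at hi
    rw [mem_fc]
    refine ⟨Or.inl rfl, ?_⟩
    simp only [pr, Prod.mk.injEq, Bool.and_self, and_true]
    omega
  · intro i _ j _ h
    simp only [Prod.mk.injEq] at h
    exact h.1.1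
  · rintro ⟨⟨i, l⟩, ⟨j, l'⟩⟩ hp
    rw [mem_fc] at hp
    simp only [pr, Prod.mk.injEq, Bool.and_eq_true] at hp
    obtain ⟨_, h1, h2, h3⟩ := hp
    refine ⟨i, ?_, ?_⟩
    · rw [mem_range]; omega
    · simp only [Prod.mk.injEq, true_and, h2, h3, and_true]
      omega
  · intro i _
    rfl

lemma fc_sum_false (a : ℕ) (G : Ltr × Ltr → ℝ) :
    ∑ p ∈ fc (a, false), G p = ∑ i ∈ range a, (G ((i, true), (a - 1 - i, false)) +
      G ((i, false), (a - 1 - i, true))) := by
  rw [Finset.sum_add_distrib]
  rw [← Finset.sum_filter_add_sum_filter_not (fc (a, false)) (fun p => p.1.2 = true)]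
  congr 1
  · symm
    apply Finset.sum_bij (fun i _ => ((i, true), (a - 1 - i, false)))
    · intro i hi
      rw [mem_range] at hi
      rw [mem_filter, mem_fc]
      refine ⟨⟨Or.inl rfl, ?_⟩, rfl⟩
      simp only [pr, Prod.mk.injEq, Bool.and_false, and_true]
      omega
    · intro i _ j _ h
      simp only [Prod.mk.injEq] at h
      exact h.1.1
    · rintro ⟨⟨i, l⟩, ⟨j, l'⟩⟩ hp
      rw [mem_filter, mem_fc] at hp
      simp only [pr, Prod.mk.injEq] at hp
      obtain ⟨⟨_, h1, h2⟩, h3⟩ := hp
      subst h3
      refine ⟨i, ?_, ?_⟩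
      · rw [mem_range]; omega
      · simp only [Bool.true_and] at h2
        simp only [Prod.mk.injEq, true_and, h2, and_true]
        omega
    · intro i _
      rfl
  · symm
    apply Finset.sum_bij (fun i _ => ((i, false), (a - 1 - i, true)))
    · intro i hi
      rw [mem_range] at hi
      rw [mem_filter, mem_fc]
      refine ⟨⟨Or.inr rfl, ?_⟩, by simp⟩
      simp only [pr, Prod.mk.injEq, Bool.false_and, and_true]
      omega
    · intro i _ j _ h
      simp only [Prod.mk.injEq] at h
      exact h.1.1
    · rintro ⟨⟨i, l⟩, ⟨j, l'⟩⟩ hp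
      rw [mem_filter, mem_fc] at hp
      simp only [pr, Prod.mk.injEq] at hp
      obtain ⟨⟨h0, h1, h2⟩, h3⟩ := hp
      have h4 : l = false := by simpa using h3
      subst h4
      have h5 : l' = true := by
        rcases h0 with h0 | h0
        · simp at h0
        · simpa using h0
      refine ⟨i, ?_, ?_⟩
      · rw [mem_range]; omega
      · simp only [Prod.mk.injEq, true_and, h5, and_true]
        omega
    · intro i _
      rfl

lemma fc_card_true (a : ℕ) : ((fc (a, true)).card : ℝ) = a := by
  have := fc_sum_true a (fun _ => 1)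
  simpa using this

lemma fc_card_false (a : ℕ) : ((fc (a, false)).card : ℝ) = 2 * a := by
  have := fc_sum_false a (fun _ => 1)
  simp only [Finset.sum_const, nsmul_eq_mul, mul_one, card_range] at this
  rw [this]
  ring

/-- sum over the moves of a pair of adjacent letters -/
noncomputable def pms : Ltr → Ltr → (Ltr → Ltr → ℝ) → ℝ
  | (_, true), (_, true), _ => 0
  | (a, true), (b, false), F => ∑ i ∈ range (a + 1), F (i, false) (a + b - i, true)
  | (a, false), (b, true), F => ∑ j ∈ range (b + 1), F (a + j, true) (b - j, false)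
  | (a, false), (b, false), F => ∑ i ∈ range a, F (i, false) (a + b - i, false) +
      ∑ j ∈ range b, F (a + j + 1, false) (b - 1 - j, false)

/-- signed sum over the moves of a pair -/
noncomputable def spms : Ltr → Ltr → (Ltr → Ltr → ℝ) → ℝ
  | (_, true), (_, true), _ => 0
  | (a, true), (b, false), F =>
      ∑ i ∈ range (a + 1), (-1) ^ a * (-1) ^ i * F (i, false) (a + b - i, true)
  | (a, false), (b, true), F =>
      ∑ j ∈ range (b + 1), (-1) ^ a * (-1) ^ (a + j) * F (a + j, true) (b - j, false)
  | (a, false), (b, false), F =>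
      ∑ i ∈ range a, (-1) ^ (a - 1 - i) * F (i, false) (a + b - i, false) +
      ∑ j ∈ range b, (-1) ^ j * F (a + j + 1, false) (b - 1 - j, false)

/-- `1` when the product of the two letters is nonzero -/
noncomputable def nx (x y : Ltr) : ℝ := if ok x y then 1 else 0

lemma sgn1 {a i : ℕ} (h : i < a) : (-1 : ℝ) ^ a * (-1) ^ i = - (-1) ^ (a - 1 - i) := by
  rw [← pow_add]
  have : a + i = (a - 1 - i) + (2 * i + 1) := by omega
  rw [this, pow_add, pow_add, pow_mul]
  simp

lemma sgn2 (a j : ℕ) : (-1 : ℝ) ^ a * (-1) ^ (a + (j + 1)) = - (-1) ^ j := by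
  rw [← pow_add]
  have : a + (a + (j + 1)) = j + (2 * a + 1) := by omega
  rw [this, pow_add, pow_add, pow_mul]
  simp

lemma sgn0 (a : ℕ) : (-1 : ℝ) ^ a * (-1) ^ a = 1 := by
  rw [← pow_add, ← two_mul, pow_mul]
  simp

lemma sum_split (a b : ℕ) (f : ℕ → ℝ) :
    ∑ i ∈ range (a + b + 1), f i =
      ∑ i ∈ range a, f i + f a + ∑ j ∈ range b, f (a + (j + 1)) := by
  rw [add_assoc, Finset.sum_range_add, Finset.sum_range_succ' (fun x => f (a + x)) b]
  simp only [add_zero]
  ring

lemma pint_eq (z y : Ltr) (F : Ltr → Ltr → ℝ) :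
    pint z y F = nx z y * F z y + spms z y F := by
  rcases z with ⟨a, _ | _⟩ <;> rcases y with ⟨b, _ | _⟩
  · -- X X
    unfold pint nx
    rw [fc_sum_false, fc_sum_false]
    have h0 : ¬ ok (a, false) (b, false) := by simp [ok]
    rw [if_neg h0, if_neg h0]
    simp only [spms, ok, pr, sg, Bool.false_eq_true, or_false, if_true, if_false,
      or_self, mul_zero, zero_mul, add_zero, zero_add, Bool.and_false, Bool.true_and,
      Bool.false_and, true_or, or_true, Bool.and_true]
    congr 1
    · apply Finset.sum_congr rfl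
      intro i hi
      rw [mem_range] at hi
      rw [show a - 1 - i + b + 1 = a + b - i by omega]
  · -- X 1
    unfold pint nx
    rw [fc_sum_false, fc_sum_true]
    have h0 : ok (a, false) (b, true) := by simp [ok]
    rw [if_pos h0, if_pos h0]
    simp only [ok, pr, sg, if_true, if_false,
      Bool.and_false, Bool.true_and,
      Bool.false_and, true_or, or_true, Bool.and_true]
    rw [fc_sum_false]
    simp only [spms, mul_add, Finset.mul_sum, Finset.sum_add_distrib, add_tsub_cancel_right]
    rw [sum_split, sum_split, Finset.sum_range_succ' _ b]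
    have e1 : ∀ i ∈ range a, (-1 : ℝ) ^ (a - 1 - i) * F (i, true) (a - 1 - i + b + 1, false) =
        - ((-1) ^ a * ((-1) ^ i * F (i, true) (a + b - i, false))) := by
      intro i hi
      rw [mem_range] at hi
      rw [← mul_assoc, sgn1 hi, show a - 1 - i + b + 1 = a + b - i by omega]
      ring
    have e2 : ∀ i ∈ range a, (-1 : ℝ) ^ (a - 1 - i) * F (i, false) (a - 1 - i + b + 1, true) =
        - ((-1) ^ a * ((-1) ^ i * F (i, false) (a + b - i, true))) := by
      intro i hi
      rw [mem_range] at hi
      rw [← mul_assoc, sgn1 hi, show a - 1 - i + b + 1 = a + b - i by omega]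
      ring
    have e3 : ∀ j ∈ range b, (-1 : ℝ) ^ a * ((-1) ^ (a + (j + 1)) *
        F (a + (j + 1), false) (a + b - (a + (j + 1)), true)) =
        - ((-1) ^ j * F (a + j + 1, false) (b - 1 - j, true)) := by
      intro j hj
      rw [mem_range] at hj
      rw [← mul_assoc, sgn2, show a + b - (a + (j + 1)) = b - 1 - j by omega,
        show a + (j + 1) = a + j + 1 by ring]
      ring
    have e4 : ∀ j ∈ range b, (-1 : ℝ) ^ a * ((-1) ^ (a + (j + 1)) *
        F (a + (j + 1), true) (a + b - (a + (j + 1)), false)) =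
        (-1) ^ a * (-1) ^ (a + (j + 1)) * F (a + (j + 1), true) (b - (j + 1), false) := by
      intro j hj
      rw [mem_range] at hj
      rw [show a + b - (a + (j + 1)) = b - (j + 1) by omega]
      ring
    rw [Finset.sum_congr rfl e1, Finset.sum_congr rfl e2, Finset.sum_congr rfl e3,
      Finset.sum_congr rfl e4]
    simp only [Finset.sum_neg_distrib, add_zero, tsub_zero, add_tsub_cancel_left]
    rw [← mul_assoc ((-1 : ℝ) ^ a) _ (F (a, false) (b, true)),
      ← mul_assoc ((-1 : ℝ) ^ a) _ (F (a, true) (b, false)), sgn0]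
    ring
  · -- 1 X
    unfold pint nx
    rw [fc_sum_false, fc_sum_true]
    have h0 : ok (a, true) (b, false) := by simp [ok]
    rw [if_pos h0, if_pos h0]
    simp only [ok, pr, sg, if_true, if_false,
      Bool.and_false, Bool.true_and,
      Bool.false_and, true_or, or_true, Bool.and_true]
    rw [fc_sum_false]
    simp only [spms, mul_add, Finset.mul_sum, Finset.sum_add_distrib, add_tsub_cancel_right]
    rw [sum_split, sum_split, Finset.sum_range_succ _ a]
    have e1 : ∀ i ∈ range a, (-1 : ℝ) ^ (a - 1 - i) * F (i, true) (a - 1 - i + b + 1, false) =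
        - ((-1) ^ a * ((-1) ^ i * F (i, true) (a + b - i, false))) := by
      intro i hi
      rw [mem_range] at hi
      rw [← mul_assoc, sgn1 hi, show a - 1 - i + b + 1 = a + b - i by omega]
      ring
    have e2 : ∀ j ∈ range b, (-1 : ℝ) ^ a * ((-1) ^ (a + (j + 1)) *
        F (a + (j + 1), true) (a + b - (a + (j + 1)), false)) =
        - ((-1) ^ j * F (a + j + 1, true) (b - 1 - j, false)) := by
      intro j hj
      rw [mem_range] at hj
      rw [← mul_assoc, sgn2, show a + b - (a + (j + 1)) = b - 1 - j by omega,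
        show a + (j + 1) = a + j + 1 by ring]
      ring
    have e3 : ∀ j ∈ range b, (-1 : ℝ) ^ a * ((-1) ^ (a + (j + 1)) *
        F (a + (j + 1), false) (a + b - (a + (j + 1)), true)) =
        - ((-1) ^ j * F (a + j + 1, false) (b - 1 - j, true)) := by
      intro j hj
      rw [mem_range] at hj
      rw [← mul_assoc, sgn2, show a + b - (a + (j + 1)) = b - 1 - j by omega,
        show a + (j + 1) = a + j + 1 by ring]
      ring
    rw [Finset.sum_congr rfl e1, Finset.sum_congr rfl e2, Finset.sum_congr rfl e3]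
    simp only [Finset.sum_neg_distrib, add_tsub_cancel_left, mul_assoc]
    rw [← mul_assoc ((-1 : ℝ) ^ a) _ (F (a, false) (b, true)),
      ← mul_assoc ((-1 : ℝ) ^ a) _ (F (a, true) (b, false)), sgn0]
    ring
  · -- 1 1
    unfold pint nx
    rw [fc_sum_true, fc_sum_true]
    have h0 : ok (a, true) (b, true) := by simp [ok]
    rw [if_pos h0, if_pos h0]
    simp only [ok, pr, sg, if_true,
      Bool.and_self, true_or, or_true]
    rw [fc_sum_true]
    simp only [spms, Finset.mul_sum, add_tsub_cancel_right]
    rw [sum_split]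
    have e1 : ∀ i ∈ range a, (-1 : ℝ) ^ (a - 1 - i) * F (i, true) (a - 1 - i + b + 1, true) =
        - ((-1) ^ a * ((-1) ^ i * F (i, true) (a + b - i, true))) := by
      intro i hi
      rw [mem_range] at hi
      rw [← mul_assoc, sgn1 hi, show a - 1 - i + b + 1 = a + b - i by omega]
      ring
    have e2 : ∀ j ∈ range b, (-1 : ℝ) ^ a * ((-1) ^ (a + (j + 1)) *
        F (a + (j + 1), true) (a + b - (a + (j + 1)), true)) =
        - ((-1) ^ j * F (a + j + 1, true) (b - 1 - j, true)) := by
      intro j hj
      rw [mem_range] at hj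
      rw [← mul_assoc, sgn2, show a + b - (a + (j + 1)) = b - 1 - j by omega,
        show a + (j + 1) = a + j + 1 by ring]
      ring
    rw [Finset.sum_congr rfl e1, Finset.sum_congr rfl e2]
    simp only [Finset.sum_neg_distrib, add_tsub_cancel_left]
    rw [← mul_assoc ((-1 : ℝ) ^ a) _ (F (a, true) (b, true)), sgn0]
    ring

lemma spms_abs_le (z y : Ltr) (F : Ltr → Ltr → ℝ) :
    |spms z y F| ≤ pms z y (fun p q => |F p q|) := by
  rcases z with ⟨a, _ | _⟩ <;> rcases y with ⟨b, _ | _⟩
  · simp only [spms, pms]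
    refine (abs_add_le _ _).trans (add_le_add ?_ ?_)
    · refine (Finset.abs_sum_le_sum_abs _ _).trans (Finset.sum_le_sum fun i _ => ?_)
      simp [abs_mul]
    · refine (Finset.abs_sum_le_sum_abs _ _).trans (Finset.sum_le_sum fun i _ => ?_)
      simp [abs_mul]
  · simp only [spms, pms]
    refine (Finset.abs_sum_le_sum_abs _ _).trans (Finset.sum_le_sum fun i _ => ?_)
    simp [abs_mul]
  · simp only [spms, pms]
    refine (Finset.abs_sum_le_sum_abs _ _).trans (Finset.sum_le_sum fun i _ => ?_)
    simp [abs_mul]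
  · simp [spms, pms]

end Q169.Kh
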