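import Pool.Agent.Q169.Kh.Moves

/-!
# The move relation and the weighted test for lower bounds
-/

namespace Q169.Kh

open Finset

/-- diagonal part of the Laplacian -/
noncomputable def dg : List Ltr → ℝ
  | [] => 0
  | [z] => (fc z).card
  | z :: y :: w => (fc z).card + nx z y + dg (y :: w)

/-- sum over all moves of a word -/
noncomputable def mvs : List Ltr → (List Ltr → ℝ) → ℝ
  | z :: y :: w, f => pms z y (fun p q => f (p :: q :: w)) + mvs (y :: w) (fun v => f (z :: v))
  | _, _ => 0

lemma lap_bound (w : List Ltr) (f : List Ltr → ℝ) :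
    |lap w f - dg w * f w| ≤ mvs w (fun v => |f v|) := by
  induction w generalizing f with
  | nil => simp [lap_nil, dg, mvs]
  | cons z w ih =>
    cases w with
    | nil => simp [lap_single, dg, mvs]
    | cons y w =>
      rw [lap_cons_cons, pint_eq]
      have h1 := ih (fun v => f (z :: v))
      have h2 := spms_abs_le z y (fun p q => f (p :: q :: w))
      simp only [dg, mvs]
      calc _ = |(lap (y :: w) (fun v => f (z :: v)) - dg (y :: w) * f (z :: y :: w)) +
            spms z y (fun p q => f (p :: q :: w))| := by congr 1; ring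
        _ ≤ _ := (abs_add_le _ _).trans (by linarith)

/-- one move of a pair of adjacent letters -/
def PM (x y p q : Ltr) : Prop :=
  p.1 + q.1 = x.1 + y.1 ∧
    ((x.2 = true ∧ y.2 = false ∧ p.2 = false ∧ q.2 = true ∧ p.1 ≤ x.1) ∨
     (x.2 = false ∧ y.2 = true ∧ p.2 = true ∧ q.2 = false ∧ x.1 ≤ p.1) ∨
     (x.2 = false ∧ y.2 = false ∧ p.2 = false ∧ q.2 = false ∧ p.1 ≠ x.1))

lemma PM.symm {x y p q : Ltr} (h : PM x y p q) : PM p q x y := by
  unfold PM at *
  rcases h with ⟨h0, h | h | h⟩
  · exact ⟨h0.symm, Or.inr (Or.inl ⟨h.2.2.1, h.2.2.2.1, h.1, h.2.1, h.2.2.2.2⟩)⟩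
  · exact ⟨h0.symm, Or.inl ⟨h.2.2.1, h.2.2.2.1, h.1, h.2.1, h.2.2.2.2⟩⟩
  · exact ⟨h0.symm, Or.inr (Or.inr ⟨h.2.2.1, h.2.2.2.1, h.1, h.2.1, fun e => h.2.2.2.2 e.symm⟩)⟩

lemma pms_le {x y : Ltr} {F G : Ltr → Ltr → ℝ} (h : ∀ p q, PM x y p q → F p q ≤ G p q) :
    pms x y F ≤ pms x y G := by
  rcases x with ⟨a, _ | _⟩ <;> rcases y with ⟨b, _ | _⟩
  · simp only [pms]
    refine add_le_add (Finset.sum_le_sum fun i hi => h _ _ ?_)
      (Finset.sum_le_sum fun i hi => h _ _ ?_)
    · rw [mem_range] at hi
      refine ⟨?_, Or.inr (Or.inr ⟨rfl, rfl, rfl, rfl, ?_⟩)⟩ <;> simp only <;> omega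
    · rw [mem_range] at hi
      refine ⟨?_, Or.inr (Or.inr ⟨rfl, rfl, rfl, rfl, ?_⟩)⟩ <;> simp only <;> omega
  · simp only [pms]
    refine Finset.sum_le_sum fun i hi => h _ _ ?_
    rw [mem_range] at hi
    refine ⟨?_, Or.inr (Or.inl ⟨rfl, rfl, rfl, rfl, ?_⟩)⟩ <;> simp only <;> omega
  · simp only [pms]
    refine Finset.sum_le_sum fun i hi => h _ _ ?_
    rw [mem_range] at hi
    refine ⟨?_, Or.inl ⟨rfl, rfl, rfl, rfl, ?_⟩⟩ <;> simp only <;> omega
  · simp [pms]

/-- one move of a word -/
def Mv : List Ltr → List Ltr → Prop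
  | x :: y :: w, v => (∃ p q, PM x y p q ∧ v = p :: q :: w) ∨
      (∃ v', v = x :: v' ∧ Mv (y :: w) v')
  | _, _ => False

lemma Mv.symm {w v : List Ltr} (h : Mv w v) : Mv v w := by
  induction w generalizing v with
  | nil => simp [Mv] at h
  | cons x w ih =>
    cases w with
    | nil => simp [Mv] at h
    | cons y w =>
      rcases h with ⟨p, q, h, rfl⟩ | ⟨v', rfl, h⟩
      · exact Or.inl ⟨x, y, h.symm, rfl⟩
      · have h2 := ih h
        cases v' with
        | nil => simp [Mv] at h2
        | cons y' v' => exact Or.inr ⟨_, rfl, h2⟩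

lemma mvs_le {w : List Ltr} {f g : List Ltr → ℝ} (h : ∀ v, Mv w v → f v ≤ g v) :
    mvs w f ≤ mvs w g := by
  induction w generalizing f g with
  | nil => simp [mvs]
  | cons x w ih =>
    cases w with
    | nil => simp [mvs]
    | cons y w =>
      simp only [mvs]
      exact add_le_add (pms_le fun p q hp => h _ (Or.inl ⟨p, q, hp, rfl⟩))
        (ih fun v hv => h _ (Or.inr ⟨v, rfl, hv⟩))

lemma mvs_congr {w : List Ltr} {f g : List Ltr → ℝ} (h : ∀ v, Mv w v → f v = g v) :
    mvs w f = mvs w g :=
  le_antisymm (mvs_le fun v hv => (h v hv).le) (mvs_le fun v hv => (h v hv).ge)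

lemma pms_add (x y : Ltr) (F G : Ltr → Ltr → ℝ) :
    pms x y (fun p q => F p q + G p q) = pms x y F + pms x y G := by
  rcases x with ⟨a, _ | _⟩ <;> rcases y with ⟨b, _ | _⟩ <;>
    simp only [pms, Finset.sum_add_distrib] <;> ring

lemma pms_smul (x y : Ltr) (c : ℝ) (F : Ltr → Ltr → ℝ) :
    pms x y (fun p q => c * F p q) = c * pms x y F := by
  rcases x with ⟨a, _ | _⟩ <;> rcases y with ⟨b, _ | _⟩ <;>
    simp only [pms, ← Finset.mul_sum] <;> ring

lemma mvs_add (w : List Ltr) (f g : List Ltr → ℝ) :
    mvs w (fun v => f v + g v) = mvs w f + mvs w g := by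
  induction w generalizing f g with
  | nil => simp [mvs]
  | cons x w ih =>
    cases w with
    | nil => simp [mvs]
    | cons y w =>
      simp only [mvs]
      rw [pms_add, ih]
      ring

lemma mvs_smul (w : List Ltr) (c : ℝ) (f : List Ltr → ℝ) :
    mvs w (fun v => c * f v) = c * mvs w f := by
  induction w generalizing f with
  | nil => simp [mvs]
  | cons x w ih =>
    cases w with
    | nil => simp [mvs]
    | cons y w =>
      simp only [mvs]
      rw [pms_smul, ih]
      ring

lemma mvs_zero (w : List Ltr) : mvs w (fun _ => 0) = 0 := by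
  have := mvs_smul w 0 (fun _ => 0)
  simpa using this

lemma mvs_sum {ι : Type*} (w : List Ltr) (s : Finset ι) (f : ι → List Ltr → ℝ) :
    mvs w (fun v => ∑ i ∈ s, f i v) = ∑ i ∈ s, mvs w (f i) := by
  classical
  induction s using Finset.induction_on with
  | empty => simp [mvs_zero]
  | insert a s ha ih =>
    rw [Finset.sum_insert ha, ← ih, ← mvs_add]
    congr 1
    funext v
    rw [Finset.sum_insert ha]

/-- number of letters `1` -/
def ones (w : List Ltr) : ℕ := (w.filter (fun x => x.2)).length

/-- total number of merged crossings -/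
def tot (w : List Ltr) : ℕ := (w.map (fun x => x.1)).sum

@[simp] lemma tot_nil : tot [] = 0 := rfl
@[simp] lemma tot_cons (x : Ltr) (w : List Ltr) : tot (x :: w) = x.1 + tot w := by
  simp [tot]
@[simp] lemma ones_nil : ones [] = 0 := rfl
lemma ones_cons (x : Ltr) (w : List Ltr) :
    ones (x :: w) = (if x.2 = true then 1 else 0) + ones w := by
  unfold ones
  rw [List.filter_cons]
  split_ifs <;> simp [add_comm]

@[simp] lemma ones_cons_true (a : ℕ) (w : List Ltr) : ones ((a, true) :: w) = ones w + 1 := by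
  rw [ones_cons]; simp [add_comm]
@[simp] lemma ones_cons_false (a : ℕ) (w : List Ltr) : ones ((a, false) :: w) = ones w := by
  rw [ones_cons]; simp

lemma Mv.inv {w v : List Ltr} (h : Mv w v) :
    v.length = w.length ∧ tot v = tot w ∧ ones v = ones w := by
  induction w generalizing v with
  | nil => simp [Mv] at h
  | cons x w ih =>
    cases w with
    | nil => simp [Mv] at h
    | cons y w =>
      rcases h with ⟨p, q, ⟨h0, h⟩, rfl⟩ | ⟨v', rfl, h⟩
      · refine ⟨by simp, ?_, ?_⟩
        · simp only [tot_cons]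
          omega
        · rcases x with ⟨a, la⟩
          rcases y with ⟨b, lb⟩
          rcases p with ⟨c, lc⟩
          rcases q with ⟨d, ld⟩
          simp only at h
          rcases h with ⟨h1, h2, h3, h4, _⟩ | ⟨h1, h2, h3, h4, _⟩ | ⟨h1, h2, h3, h4, _⟩ <;>
            subst h1 <;> subst h2 <;> subst h3 <;> subst h4 <;> simp
      · obtain ⟨h1, h2, h3⟩ := ih h
        refine ⟨by simp [h1], by simp [h2], ?_⟩
        rw [ones_cons, ones_cons, h3]

/-- the weighted test: a lower bound for eigenvalues -/
theorem schur {ι : Type*} [Fintype ι] [DecidableEq ι] (A : Matrix ι ι ℝ) (hA : A.IsSymm)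
    (tw : ι → List Ltr) (htw : Function.Injective tw)
    (hrow : ∀ x y, A x y = lap (tw x) (fun v => if v = tw y then 1 else 0))
    (S : Set ι) (κ : List Ltr → List Ltr → ℝ) (lam : ℝ)
    (h0 : ∀ x ∈ S, ∀ v, Mv (tw x) v → 0 ≤ κ (tw x) v)
    (h1 : ∀ x ∈ S, ∀ y ∈ S, Mv (tw x) (tw y) → 1 ≤ κ (tw x) (tw y) * κ (tw y) (tw x))
    (h2 : ∀ x ∈ S, mvs (tw x) (κ (tw x)) ≤ dg (tw x) - lam)
    (ψ : ι → ℝ) (hψ : ∀ x, x ∉ S → ψ x = 0) (hne : ψ ≠ 0) (μ : ℝ)
    (hμ : ∀ x ∈ S, A.mulVec ψ x = μ * ψ x) : lam ≤ μ := by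
  classical
  set B : ι → ι → ℝ := fun x y => A x y - (if x = y then dg (tw x) else 0) with hB
  have hBsymm : ∀ x y, B x y = B y x := by
    intro x y
    simp only [hB]
    have : A x y = A y x := by
      have := congrFun (congrFun hA y) x
      simpa [Matrix.transpose_apply] using this
    rw [this]
    by_cases hxy : x = y
    · subst hxy; rfl
    · rw [if_neg hxy, if_neg (Ne.symm hxy)]
  have hBle : ∀ x y, |B x y| ≤ mvs (tw x) (fun v => if v = tw y then 1 else 0) := by
    intro x y
    have h := lap_bound (tw x) (fun v => if v = tw y then 1 else 0)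
    rw [← hrow] at h
    have e1 : (if tw x = tw y then (1:ℝ) else 0) = if x = y then 1 else 0 := by
      by_cases hxy : x = y
      · subst hxy; simp
      · rw [if_neg hxy, if_neg (fun h => hxy (htw h))]
    simp only [hB]
    calc |A x y - (if x = y then dg (tw x) else 0)|
        = |A x y - dg (tw x) * (if tw x = tw y then 1 else 0)| := by
          rw [e1]
          congr 2
          split_ifs <;> simp
      _ ≤ _ := h
      _ = _ := by
          congr 1
          funext v
          split_ifs <;> simp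
  have hB0 : ∀ x y, ¬ Mv (tw x) (tw y) → B x y = 0 := by
    intro x y h
    have h3 := hBle x y
    have h4 : mvs (tw x) (fun v => if v = tw y then (1:ℝ) else 0) = 0 := by
      refine (mvs_congr ?_).trans (mvs_zero (tw x))
      intro v hv
      have hne : v ≠ tw y := by
        rintro rfl
        exact h hv
      simp [hne]
    rw [h4] at h3
    exact abs_nonpos_iff.mp h3
  have hrowsum : ∀ x ∈ S, ∑ y, |B x y| * κ (tw x) (tw y) ≤ dg (tw x) - lam := by
    intro x hx
    refine le_trans ?_ (h2 x hx)
    calc ∑ y, |B x y| * κ (tw x) (tw y)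
        ≤ ∑ y, κ (tw x) (tw y) * mvs (tw x) (fun v => if v = tw y then 1 else 0) := by
          apply Finset.sum_le_sum
          intro y _
          by_cases hm : Mv (tw x) (tw y)
          · rw [mul_comm]
            exact mul_le_mul_of_nonneg_left (hBle x y) (h0 x hx _ hm)
          · rw [hB0 x y hm]
            have h4 : mvs (tw x) (fun v => if v = tw y then (1:ℝ) else 0) = 0 := by
              refine (mvs_congr ?_).trans (mvs_zero (tw x))
              intro v hv
              have hne : v ≠ tw y := by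
                rintro rfl
                exact hm hv
              simp [hne]
            rw [h4]
            simp
      _ = mvs (tw x) (fun v => ∑ y, κ (tw x) (tw y) * (if v = tw y then 1 else 0)) := by
          rw [mvs_sum]
          apply Finset.sum_congr rfl
          intro y _
          rw [mvs_smul]
      _ ≤ mvs (tw x) (κ (tw x)) := by
          apply mvs_le
          intro v hv
          by_cases hex : ∃ y, v = tw y
          · obtain ⟨y, rfl⟩ := hex
            rw [Finset.sum_eq_single y]
            · simp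
            · intro z _ hz
              rw [if_neg (fun h => hz (htw h).symm)]
              simp
            · simp
          · push Not at hex
            rw [Finset.sum_eq_zero]
            · exact h0 x hx v hv
            · intro y _
              rw [if_neg (hex y)]
              simp
  -- quadratic form
  have hq1 : ∑ x, ψ x * A.mulVec ψ x = μ * ∑ x, ψ x ^ 2 := by
    rw [Finset.mul_sum]
    apply Finset.sum_congr rfl
    intro x _
    by_cases hx : x ∈ S
    · rw [hμ x hx]; ring
    · rw [hψ x hx]; ring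
  have hq2 : ∑ x, ψ x * A.mulVec ψ x =
      ∑ x, dg (tw x) * ψ x ^ 2 + ∑ x, ∑ y, B x y * (ψ x * ψ y) := by
    rw [← Finset.sum_add_distrib]
    apply Finset.sum_congr rfl
    intro x _
    rw [Matrix.mulVec, dotProduct, Finset.mul_sum]
    have : dg (tw x) * ψ x ^ 2 = ∑ y, (if x = y then dg (tw x) else 0) * (ψ x * ψ y) := by
      simp only [ite_mul, zero_mul]
      rw [Finset.sum_ite_eq, if_pos (Finset.mem_univ x)]
      ring
    rw [this, ← Finset.sum_add_distrib]
    apply Finset.sum_congr rfl
    intro y _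
    simp only [hB]
    ring
  have hq3 : -(∑ x, ∑ y, B x y * (ψ x * ψ y)) ≤ ∑ x, ∑ y, |B x y| * (κ (tw x) (tw y) * ψ x ^ 2) := by
    have e1 : ∀ x y, -(B x y * (ψ x * ψ y)) ≤
        (|B x y| * (κ (tw x) (tw y) * ψ x ^ 2) + |B x y| * (κ (tw y) (tw x) * ψ y ^ 2)) / 2 := by
      intro x y
      by_cases hx : x ∈ S
      · by_cases hy : y ∈ S
        · by_cases hm : Mv (tw x) (tw y)
          · have k1 := h0 x hx _ hm
            have k2 := h0 y hy _ hm.symm
            have k3 := h1 x hx y hy hm
            have k4 : -(B x y * (ψ x * ψ y)) ≤ |B x y| * (|ψ x| * |ψ y|) := by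
              rw [← abs_mul, ← abs_mul]
              exact neg_le_abs _
            have k5 : |ψ x| * |ψ y| ≤ (κ (tw x) (tw y) * ψ x ^ 2 + κ (tw y) (tw x) * ψ y ^ 2) / 2 := by
              set a := κ (tw x) (tw y)
              set b := κ (tw y) (tw x)
              have hs : 2 * (|ψ x| * |ψ y|) ≤ 2 * (Real.sqrt a * |ψ x|) * (Real.sqrt b * |ψ y|) := by
                have : 1 ≤ Real.sqrt a * Real.sqrt b := by
                  rw [← Real.sqrt_mul k1]
                  exact Real.one_le_sqrt.mpr k3
                nlinarith [mul_nonneg (abs_nonneg (ψ x)) (abs_nonneg (ψ y))]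
              have hs2 := two_mul_le_add_sq (Real.sqrt a * |ψ x|) (Real.sqrt b * |ψ y|)
              rw [mul_pow, mul_pow, Real.sq_sqrt k1, Real.sq_sqrt k2, sq_abs, sq_abs] at hs2
              linarith
            calc _ ≤ _ := k4
              _ ≤ |B x y| * ((κ (tw x) (tw y) * ψ x ^ 2 + κ (tw y) (tw x) * ψ y ^ 2) / 2) :=
                  mul_le_mul_of_nonneg_left k5 (abs_nonneg _)
              _ = _ := by ring
          · rw [hB0 x y hm]; simp
        · rw [hψ y hy]
          simp only [mul_zero, neg_zero, ne_eq, OfNat.ofNat_ne_zero, not_false_eq_true, zero_pow,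
            add_zero]
          by_cases hm : Mv (tw x) (tw y)
          · have := mul_nonneg (abs_nonneg (B x y)) (mul_nonneg (h0 x hx _ hm) (sq_nonneg (ψ x)))
            linarith
          · rw [hB0 x y hm]; simp
      · rw [hψ x hx]
        simp only [zero_mul, mul_zero, neg_zero, ne_eq, OfNat.ofNat_ne_zero, not_false_eq_true,
          zero_pow, zero_add]
        by_cases hy : y ∈ S
        · by_cases hm : Mv (tw x) (tw y)
          · have := mul_nonneg (abs_nonneg (B x y))
              (mul_nonneg (h0 y hy _ hm.symm) (sq_nonneg (ψ y)))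
            linarith
          · rw [hB0 x y hm]; simp
        · rw [hψ y hy]; simp
    calc -(∑ x, ∑ y, B x y * (ψ x * ψ y)) = ∑ x, ∑ y, -(B x y * (ψ x * ψ y)) := by
          rw [← Finset.sum_neg_distrib]
          apply Finset.sum_congr rfl
          intro x _
          rw [← Finset.sum_neg_distrib]
      _ ≤ ∑ x, ∑ y, (|B x y| * (κ (tw x) (tw y) * ψ x ^ 2) +
            |B x y| * (κ (tw y) (tw x) * ψ y ^ 2)) / 2 :=
          Finset.sum_le_sum fun x _ => Finset.sum_le_sum fun y _ => e1 x y
      _ = (∑ x, ∑ y, |B x y| * (κ (tw x) (tw y) * ψ x ^ 2) +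
            ∑ x, ∑ y, |B x y| * (κ (tw y) (tw x) * ψ y ^ 2)) / 2 := by
          rw [← Finset.sum_add_distrib, Finset.sum_div]
          apply Finset.sum_congr rfl
          intro x _
          rw [← Finset.sum_add_distrib, Finset.sum_div]
      _ = _ := by
          have : ∑ x, ∑ y, |B x y| * (κ (tw y) (tw x) * ψ y ^ 2) =
              ∑ x, ∑ y, |B x y| * (κ (tw x) (tw y) * ψ x ^ 2) := by
            rw [Finset.sum_comm]
            apply Finset.sum_congr rfl
            intro x _
            apply Finset.sum_congr rfl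
            intro y _
            rw [hBsymm y x]
          rw [this]
          ring
  have hq4 : ∑ x, ∑ y, |B x y| * (κ (tw x) (tw y) * ψ x ^ 2) ≤
      ∑ x, (dg (tw x) - lam) * ψ x ^ 2 := by
    apply Finset.sum_le_sum
    intro x _
    by_cases hx : x ∈ S
    · have : ∑ y, |B x y| * (κ (tw x) (tw y) * ψ x ^ 2) =
          (∑ y, |B x y| * κ (tw x) (tw y)) * ψ x ^ 2 := by
        rw [Finset.sum_mul]
        apply Finset.sum_congr rfl
        intro y _
        ring
      rw [this]
      exact mul_le_mul_of_nonneg_right (hrowsum x hx) (sq_nonneg _)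
    · rw [hψ x hx]
      simp
  have hq5 : ∑ x, (dg (tw x) - lam) * ψ x ^ 2 =
      ∑ x, dg (tw x) * ψ x ^ 2 - lam * ∑ x, ψ x ^ 2 := by
    rw [Finset.mul_sum, ← Finset.sum_sub_distrib]
    apply Finset.sum_congr rfl
    intro x _
    ring
  have hpos : 0 < ∑ x, ψ x ^ 2 := by
    obtain ⟨x, hx⟩ := Function.ne_iff.mp hne
    have : 0 < ψ x ^ 2 := by
      have : ψ x ≠ 0 := by simpa using hx
      positivity
    exact lt_of_lt_of_le this
      (Finset.single_le_sum (f := fun x => ψ x ^ 2) (fun i _ => sq_nonneg _) (Finset.mem_univ x))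
  have hfin : lam * ∑ x, ψ x ^ 2 ≤ μ * ∑ x, ψ x ^ 2 := by linarith
  exact le_of_mul_le_mul_right hfin hpos

end Q169.Kh
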