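import Pool.Agent.Q169.Kh.Rel

/-!
# Words with at least two letters `1`
-/

namespace Q169.Kh

open Finset

/-- product of the sizes of the letters `1` -/
noncomputable def Ws : List Ltr → ℝ
  | [] => 1
  | (a, true) :: w => ((a : ℝ) + 1) * Ws w
  | (_, false) :: w => Ws w

lemma Ws_pos (w : List Ltr) : 0 < Ws w := by
  induction w with
  | nil => simp [Ws]
  | cons z w ih =>
    rcases z with ⟨a, _ | _⟩
    · simpa [Ws] using ih
    · simp only [Ws]; positivity

lemma Ws_cons_div (z : Ltr) (u v : List Ltr) : Ws (z :: u) / Ws (z :: v) = Ws u / Ws v := by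
  rcases z with ⟨a, _ | _⟩
  · simp [Ws]
  · simp only [Ws]
    rw [mul_div_mul_left]
    positivity

/-- the transport weight -/
noncomputable def pw (a i c : ℕ) : ℝ := (2 * ((a : ℝ) + 1 - i) - 1) / (((a : ℝ) + 1) * ((c : ℝ) + 1))

/-- the transport weight of two words with different first letters -/
noncomputable def QQ : Ltr → List Ltr → Ltr → List Ltr → ℝ
  | (a, true), _, (i, false), (c, _) :: _ => pw a i c
  | (i, false), (c, _) :: _, (a, true), _ => pw a i c
  | _, _, _, _ => 0

lemma QQ_symm (x : Ltr) (u : List Ltr) (y : Ltr) (v : List Ltr) : QQ x u y v = QQ y v x u := by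
  rcases x with ⟨a, _ | _⟩ <;> rcases y with ⟨b, _ | _⟩ <;> rcases u with _ | ⟨⟨c, lc⟩, u⟩ <;>
    rcases v with _ | ⟨⟨d, ld⟩, v⟩ <;> rfl

/-- the transport weight of two words -/
noncomputable def PP : List Ltr → List Ltr → ℝ
  | x :: u, y :: v => if x = y then PP u v else QQ x u y v
  | _, _ => 0

lemma PP_symm (u v : List Ltr) : PP u v = PP v u := by
  induction u generalizing v with
  | nil => cases v <;> rfl
  | cons x u ih =>
    cases v with
    | nil => rfl
    | cons y v =>
      simp only [PP]
      by_cases h : x = y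
      · rw [if_pos h, if_pos h.symm, ih]
      · rw [if_neg h, if_neg (Ne.symm h), QQ_symm]

lemma PP_cons (x : Ltr) (u v : List Ltr) : PP (x :: u) (x :: v) = PP u v := by
  simp [PP]

lemma pw_bounds {a i c : ℕ} (h1 : i ≤ a) (h2 : a ≤ c + i) : 0 ≤ pw a i c ∧ pw a i c ≤ 1 := by
  have h1' : (i : ℝ) ≤ a := by exact_mod_cast h1
  have h2' : (a : ℝ) ≤ c + i := by exact_mod_cast h2
  have hi : (0:ℝ) ≤ i := by positivity
  have ha : (0:ℝ) ≤ a := by positivity
  have hc : (0:ℝ) ≤ c := by positivity
  unfold pw
  constructor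
  · apply div_nonneg
    · linarith
    · positivity
  · rw [div_le_one (by positivity)]
    have k1 : 0 ≤ ((a:ℝ) - i) ^ 2 := sq_nonneg _
    nlinarith [mul_nonneg (by linarith : (0:ℝ) ≤ (a:ℝ) - i) hi, mul_nonneg hi hc,
      mul_nonneg (by linarith : (0:ℝ) ≤ (a:ℝ) - i) (by linarith : (0:ℝ) ≤ c + i - a),
      mul_nonneg hi (by linarith : (0:ℝ) ≤ c + i - a)]

lemma PP_bounds {w v : List Ltr} (h : Mv w v) : 0 ≤ PP w v ∧ PP w v ≤ 1 := by
  induction w generalizing v with
  | nil => simp [Mv] at h
  | cons x w ih =>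
    cases w with
    | nil => simp [Mv] at h
    | cons y w =>
      rcases h with ⟨p, q, ⟨h0, h⟩, rfl⟩ | ⟨v', rfl, h⟩
      · rcases x with ⟨a, la⟩
        rcases y with ⟨b, lb⟩
        rcases p with ⟨c, lc⟩
        rcases q with ⟨d, ld⟩
        simp only at h h0
        rcases h with ⟨h1, h2, h3, h4, h5⟩ | ⟨h1, h2, h3, h4, h5⟩ | ⟨h1, h2, h3, h4, h5⟩ <;>
          subst h1 <;> subst h2 <;> subst h3 <;> subst h4
        · have : PP ((a, true) :: (b, false) :: w) ((c, false) :: (d, true) :: w) = pw a c d := by
            simp [PP, QQ]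
          rw [this]
          exact pw_bounds h5 (by omega)
        · have : PP ((a, false) :: (b, true) :: w) ((c, true) :: (d, false) :: w) = pw c a b := by
            simp [PP, QQ]
          rw [this]
          exact pw_bounds h5 (by omega)
        · have : PP ((a, false) :: (b, false) :: w) ((c, false) :: (d, false) :: w) = 0 := by
            simp only [PP, Prod.mk.injEq, and_true]
            rw [if_neg (Ne.symm h5)]
            rfl
          rw [this]
          constructor <;> norm_num
      · rw [PP_cons]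
        exact ih h

/-- the labels of a word -/
def lb (w : List Ltr) : List Bool := w.map Prod.snd

@[simp] lemma lb_cons (x : Ltr) (w : List Ltr) : lb (x :: w) = x.2 :: lb w := rfl
@[simp] lemma lb_nil : lb [] = [] := rfl

/-- half of the diagonal contribution of a letter -/
noncomputable def eh : Ltr → ℝ
  | (a, true) => (a : ℝ) / 2
  | (a, false) => a

lemma eh_nonneg (z : Ltr) : 0 ≤ eh z := by
  rcases z with ⟨a, _ | _⟩ <;> simp only [eh] <;> positivity

lemma two_eh (z : Ltr) : ((fc z).card : ℝ) = 2 * eh z := by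
  rcases z with ⟨a, _ | _⟩
  · rw [fc_card_false]; rfl
  · rw [fc_card_true]; simp only [eh]; ring

/-- the tested row sum, without half of the first letter -/
noncomputable def TT (G : List Bool → ℝ) : List Ltr → ℝ
  | [] => 0
  | z :: w => (dg (z :: w) - eh z) * G (lb (z :: w)) -
      mvs (z :: w) (fun v => Ws v / Ws (z :: w) *
        (G (lb (z :: w)) + PP (z :: w) v * (G (lb v) - G (lb (z :: w)))))

/-- the contribution of a pair of adjacent letters -/
noncomputable def pt (G : List Bool → ℝ) (x y : Ltr) (l : List Bool) : ℝ :=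
  if x.2 = y.2 then (if x.2 = true then ((x.1 : ℝ) / 2 + y.1 / 2 + 1) * G (true :: true :: l) else 0)
  else G (x.2 :: y.2 :: l) - G (y.2 :: x.2 :: l)

lemma sum1 (a b : ℕ) : ∑ i ∈ range (a + 1), (((a + b - i : ℕ) : ℝ) + 1) =
    ((a : ℝ) + 1) * (b + 1 + a / 2) := by
  have h1 : ∀ i ∈ range (a + 1), (((a + b - i : ℕ) : ℝ) + 1) = ((a : ℝ) + b + 1) - i := by
    intro i hi
    rw [mem_range] at hi
    rw [Nat.cast_sub (by omega)]
    push_cast
    ring
  rw [Finset.sum_congr rfl h1]
  clear h1
  have h2 : ∀ (c : ℝ) (m : ℕ), ∑ i ∈ range (m + 1), (c - i) = (m + 1) * c - m * (m + 1) / 2 := by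
    intro c m
    induction m with
    | zero => simp
    | succ m ih =>
      rw [Finset.sum_range_succ, ih]
      push_cast
      ring
  rw [h2]
  ring

lemma sum2 (a : ℕ) : ∑ i ∈ range (a + 1), (2 * ((a : ℝ) + 1 - i) - 1) = ((a : ℝ) + 1) ^ 2 := by
  have h2 : ∀ (c : ℝ) (m : ℕ), ∑ i ∈ range (m + 1), (2 * (c + 1 - i) - 1) =
      (m + 1) * (2 * c + 1) - m * (m + 1) := by
    intro c m
    induction m with
    | zero => simp; ring
    | succ m ih =>
      rw [Finset.sum_range_succ, ih]
      push_cast
      ring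
  rw [h2]
  ring

lemma TT_cons (G : List Bool → ℝ) (x y : Ltr) (w : List Ltr) :
    TT G (x :: y :: w) = pt G x y (lb w) + TT (fun l => G (x.2 :: l)) (y :: w) := by
  have hW := Ws_pos w
  have hm : mvs (y :: w) (fun v => Ws (x :: v) / Ws (x :: y :: w) *
        (G (lb (x :: y :: w)) + PP (x :: y :: w) (x :: v) *
          (G (lb (x :: v)) - G (lb (x :: y :: w))))) =
      mvs (y :: w) (fun v => Ws v / Ws (y :: w) *
        (G (x.2 :: lb (y :: w)) + PP (y :: w) v * (G (x.2 :: lb v) - G (x.2 :: lb (y :: w))))) := by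
    apply mvs_congr
    intro v _
    rw [Ws_cons_div, PP_cons]
    rfl
  simp only [TT]
  rw [mvs, hm]
  have hd : dg (x :: y :: w) = (fc x).card + nx x y + dg (y :: w) := rfl
  rw [hd, two_eh]
  suffices h : (eh x + eh y + nx x y) * G (lb (x :: y :: w)) -
      pms x y (fun p q => Ws (p :: q :: w) / Ws (x :: y :: w) *
        (G (lb (x :: y :: w)) + PP (x :: y :: w) (p :: q :: w) *
          (G (lb (p :: q :: w)) - G (lb (x :: y :: w))))) = pt G x y (lb w) by
    simp only [lb_cons] at h ⊢
    linarith
  rcases x with ⟨a, _ | _⟩ <;> rcases y with ⟨b, _ | _⟩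
  · -- X X
    simp only [eh, nx, ok, pms, pt, lb_cons, Ws]
    have e1 : ∀ i ∈ range a, Ws w / Ws w * (G (false :: false :: lb w) +
        PP ((a, false) :: (b, false) :: w) ((i, false) :: (a + b - i, false) :: w) *
          (G (false :: false :: lb w) - G (false :: false :: lb w))) =
        G (false :: false :: lb w) := by
      intro i _
      rw [div_self hW.ne']
      ring
    have e2 : ∀ j ∈ range b, Ws w / Ws w * (G (false :: false :: lb w) +
        PP ((a, false) :: (b, false) :: w) ((a + j + 1, false) :: (b - 1 - j, false) :: w) *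
          (G (false :: false :: lb w) - G (false :: false :: lb w))) =
        G (false :: false :: lb w) := by
      intro i _
      rw [div_self hW.ne']
      ring
    rw [Finset.sum_congr rfl e1, Finset.sum_congr rfl e2]
    simp only [Finset.sum_const, card_range, nsmul_eq_mul, Bool.false_eq_true, or_self, if_false,
      if_true]
    ring
  · -- X 1
    simp only [eh, nx, ok, pms, pt, lb_cons, Ws]
    set A := G (false :: true :: lb w)
    set B := G (true :: false :: lb w)
    have e1 : ∀ j ∈ range (b + 1), (((a + j : ℕ) : ℝ) + 1) * Ws w / (((b : ℝ) + 1) * Ws w) *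
        (A + PP ((a, false) :: (b, true) :: w) ((a + j, true) :: (b - j, false) :: w) *
          (B - A)) =
        ((((b + a - (b - j) : ℕ) : ℝ) + 1)) / (b + 1) * A + (2 * ((b : ℝ) + 1 - ((b - j : ℕ) : ℝ)) - 1) / (b + 1) ^ 2 * (B - A) := by
      intro j hj
      rw [mem_range] at hj
      have : PP ((a, false) :: (b, true) :: w) ((a + j, true) :: (b - j, false) :: w) =
          pw (a + j) a b := by
        simp [PP, QQ]
      rw [this, show b + a - (b - j) = a + j by omega, Nat.cast_sub (by omega : j ≤ b)]
      unfold pw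
      have h1 : ((a + j : ℕ) : ℝ) + 1 ≠ 0 := by positivity
      have h2 : (b : ℝ) + 1 ≠ 0 := by positivity
      push_cast at h1 ⊢
      field_simp
      ring
    rw [Finset.sum_congr rfl e1, Finset.sum_add_distrib, ← Finset.sum_mul, ← Finset.sum_mul,
      ← Finset.sum_div, ← Finset.sum_div]
    have e2 : ∑ j ∈ range (b + 1), ((((b + a - (b - j) : ℕ) : ℝ) + 1)) =
        ∑ j ∈ range (b + 1), (((b + a - j : ℕ) : ℝ) + 1) := by
      rw [← Finset.sum_range_reflect (fun j => (((b + a - j : ℕ) : ℝ) + 1)) (b + 1)]
      apply Finset.sum_congr rfl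
      intro j _
      rw [show b + 1 - 1 - j = b - j by omega]
    have e3 : ∑ j ∈ range (b + 1), (2 * ((b : ℝ) + 1 - ((b - j : ℕ) : ℝ)) - 1) =
        ∑ j ∈ range (b + 1), (2 * ((b : ℝ) + 1 - (j : ℝ)) - 1) := by
      rw [← Finset.sum_range_reflect (fun j => (2 * ((b : ℝ) + 1 - ((j : ℕ) : ℝ)) - 1)) (b + 1)]
      apply Finset.sum_congr rfl
      intro j _
      rw [show b + 1 - 1 - j = b - j by omega]
    rw [e2, e3, sum1, sum2]
    have h2 : (b : ℝ) + 1 ≠ 0 := by positivity
    simp only [or_true, if_true, Bool.false_eq_true, if_false]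
    field_simp
    ring
  · -- 1 X
    simp only [eh, nx, ok, pms, pt, lb_cons, Ws]
    set A := G (true :: false :: lb w)
    set B := G (false :: true :: lb w)
    have e1 : ∀ i ∈ range (a + 1), (((a + b - i : ℕ) : ℝ) + 1) * Ws w / (((a : ℝ) + 1) * Ws w) *
        (A + PP ((a, true) :: (b, false) :: w) ((i, false) :: (a + b - i, true) :: w) *
          (B - A)) =
        ((((a + b - i : ℕ) : ℝ) + 1)) / (a + 1) * A + (2 * ((a : ℝ) + 1 - i) - 1) / (a + 1) ^ 2 * (B - A) := by
      intro i hi
      rw [mem_range] at hi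
      have : PP ((a, true) :: (b, false) :: w) ((i, false) :: (a + b - i, true) :: w) =
          pw a i (a + b - i) := by
        simp [PP, QQ]
      rw [this]
      unfold pw
      have h1 : ((a + b - i : ℕ) : ℝ) + 1 ≠ 0 := by positivity
      have h2 : (a : ℝ) + 1 ≠ 0 := by positivity
      field_simp
    rw [Finset.sum_congr rfl e1, Finset.sum_add_distrib, ← Finset.sum_mul, ← Finset.sum_mul,
      ← Finset.sum_div, ← Finset.sum_div, sum1, sum2]
    have h2 : (a : ℝ) + 1 ≠ 0 := by positivity
    simp only [true_or, if_true, Bool.true_eq_false, if_false]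
    field_simp
    ring
  · -- 1 1
    simp only [eh, nx, ok, pms, pt, lb_cons, sub_zero, or_self, if_true]

lemma TT_single (G : List Bool → ℝ) (z : Ltr) : TT G [z] = eh z * G [z.2] := by
  simp only [TT, dg, mvs, two_eh, lb_cons, lb_nil]
  ring

lemma TT_const (c : ℝ) (hc : 0 ≤ c) : ∀ w, 0 ≤ TT (fun _ => c) w := by
  intro w
  induction w with
  | nil => simp [TT]
  | cons x w ih =>
    cases w with
    | nil =>
      rw [TT_single]
      exact mul_nonneg (eh_nonneg x) hc
    | cons y w =>
      rw [TT_cons]
      refine add_nonneg ?_ ih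
      unfold pt
      split_ifs
      · positivity
      · exact le_rfl
      · simp

section phases

variable (φ : ℕ → ℝ)

/-- the weight after the first letter `1` -/
noncomputable def G1 (α : ℝ) : ℕ → List Bool → ℝ
  | _, [] => 0
  | m, true :: _ => α - φ (m + 1)
  | m, false :: l => G1 α (m + 1) l

/-- the weight -/
noncomputable def G0 : ℕ → List Bool → ℝ
  | _, [] => 0
  | m, true :: l => G1 φ (φ m) (m + 1) l
  | m, false :: l => G0 (m + 1) l

variable {φ}

lemma G1_sub (α β : ℝ) : ∀ (l : List Bool) (m : ℕ), true ∈ l → G1 φ α m l - G1 φ β m l = α - β := by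
  intro l
  induction l with
  | nil => intro m h; simp at h
  | cons x l ih =>
    intro m h
    cases x
    · simp only [G1]
      exact ih (m + 1) (by simpa using h)
    · simp only [G1]
      ring

variable {c : ℕ} {lam : ℝ}

lemma P1t (hdec : ∀ i, 1 ≤ i → i ≤ c + 1 → φ (i + 1) ≤ φ i) (α : ℝ) (m : ℕ) (hm : 1 ≤ m)
    (a : ℕ) (w : List Ltr) (hl : m + w.length + 1 = c + 1) (hα : φ m ≤ α) :
    φ (m + 2) - φ (m + 1) ≤ TT (G1 φ α m) ((a, true) :: w) := by
  have d1 := hdec m hm (by omega)
  have d2 := hdec (m + 1) (by omega) (by omega)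
  cases w with
  | nil =>
    rw [TT_single]
    have : 0 ≤ eh (a, true) * G1 φ α m [true] := by
      apply mul_nonneg (eh_nonneg _)
      simp only [G1]
      linarith
    linarith
  | cons y w =>
    rw [TT_cons]
    have hrest : 0 ≤ TT (fun l => G1 φ α m (true :: l)) (y :: w) := by
      have := TT_const (α - φ (m + 1)) (by linarith) (y :: w)
      simpa only [G1] using this
    rcases y with ⟨b, _ | _⟩
    · have : pt (G1 φ α m) (a, true) (b, false) (lb w) = φ (m + 2) - φ (m + 1) := by
        simp only [pt, G1]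
        simp
      rw [this]
      linarith
    · have : α - φ (m + 1) ≤ pt (G1 φ α m) (a, true) (b, true) (lb w) := by
        simp only [pt, G1, if_true]
        have h1 : 0 ≤ α - φ (m + 1) := by linarith
        have h2 : (0:ℝ) ≤ (a:ℝ) / 2 + b / 2 := by positivity
        nlinarith
      linarith

lemma P1f (hdec : ∀ i, 1 ≤ i → i ≤ c + 1 → φ (i + 1) ≤ φ i)
    (hrec : ∀ i, φ i + φ (i + 2) = (2 - lam) * φ (i + 1)) (α : ℝ) :
    ∀ (w : List Ltr) (m : ℕ) (a : ℕ), 1 ≤ m → m + w.length + 1 = c + 1 → φ m ≤ α →
    true ∈ lb w →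
    lam * (G1 φ α m (lb ((a, false) :: w)) - α) ≤ TT (G1 φ α m) ((a, false) :: w) := by
  intro w
  induction w with
  | nil => intro m a _ _ _ h; simp at h
  | cons y w ih =>
    intro m a hm hl hα ht
    rw [TT_cons]
    simp only [List.length_cons] at hl
    have d1 := hdec m hm (by omega)
    rcases y with ⟨b, _ | _⟩
    · have h1 := ih (m + 1) b (by omega) (by omega) (by linarith) (by simpa using ht)
      have : pt (G1 φ α m) (a, false) (b, false) (lb w) = 0 := by
        simp [pt]
      rw [this, zero_add]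
      exact h1
    · have h1 := P1t hdec α (m + 1) (by omega) b w (by omega) (by linarith)
      have : pt (G1 φ α m) (a, false) (b, true) (lb w) = φ (m + 1) - φ (m + 2) := by
        simp only [pt, G1]
        simp
      rw [this]
      have h2 : (fun l => G1 φ α m (false :: l)) = G1 φ α (m + 1) := by
        funext l
        simp only [G1]
      simp only [h2]
      simp only [lb_cons, G1]
      have h3 := hrec (m + 1)
      rw [show m + 1 + 2 = m + 3 by ring, show m + 1 + 1 = m + 2 by ring] at h3 h1
      rw [show m + 1 + 1 = m + 2 by ring]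
      linarith

lemma P0t (hdec : ∀ i, 1 ≤ i → i ≤ c + 1 → φ (i + 1) ≤ φ i)
    (hrec : ∀ i, φ i + φ (i + 2) = (2 - lam) * φ (i + 1)) (m : ℕ) (hm : 1 ≤ m)
    (a : ℕ) (w : List Ltr) (hl : m + w.length + 1 = c + 1) (ht : true ∈ lb w) :
    φ m - φ (m + 1) + lam * (G0 φ m (lb ((a, true) :: w)) - φ m) ≤
      TT (G0 φ m) ((a, true) :: w) := by
  cases w with
  | nil => simp at ht
  | cons y w =>
    rw [TT_cons]
    simp only [List.length_cons] at hl
    have d1 := hdec m hm (by omega)
    have d2 := hdec (m + 1) (by omega) (by omega)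
    have h2 : (fun l => G0 φ m (true :: l)) = G1 φ (φ m) (m + 1) := by
      funext l
      simp only [G0]
    rcases y with ⟨b, _ | _⟩
    · have h1 := P1f hdec hrec (φ m) w (m + 1) b (by omega) (by omega) d1 (by simpa using ht)
      have hp : pt (G0 φ m) (a, true) (b, false) (lb w) = φ m - φ (m + 1) := by
        simp only [pt, G0, G1]
        rw [if_neg (by simp)]
        exact G1_sub (φ m) (φ (m + 1)) (lb w) (m + 1 + 1) (by simpa using ht)
      rw [hp]
      simp only [h2]
      have : G0 φ m (lb ((a, true) :: (b, false) :: w)) =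
          G1 φ (φ m) (m + 1) (lb ((b, false) :: w)) := by
        simp only [lb_cons, G0]
      rw [this]
      linarith
    · have h1 := P1t hdec (φ m) (m + 1) (by omega) b w (by omega) d1
      have hp : φ m - φ (m + 2) ≤ pt (G0 φ m) (a, true) (b, true) (lb w) := by
        simp only [pt, G0, G1, if_true]
        rw [show m + 1 + 1 = m + 2 by ring]
        rw [show m + 1 + 1 = m + 2 by ring] at d2
        have h1 : 0 ≤ φ m - φ (m + 2) := by linarith
        have h2 : (0:ℝ) ≤ (a:ℝ) / 2 + b / 2 := by positivity
        nlinarith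
      simp only [h2]
      have h3 := hrec (m + 1)
      have h4 : G0 φ m (lb ((a, true) :: (b, true) :: w)) = φ m - φ (m + 2) := by
        simp only [lb_cons, G0, G1]
      rw [h4]
      rw [show m + 1 + 2 = m + 3 by ring, show m + 1 + 1 = m + 2 by ring] at h3 h1
      linarith

lemma P0f (hdec : ∀ i, 1 ≤ i → i ≤ c + 1 → φ (i + 1) ≤ φ i)
    (hrec : ∀ i, φ i + φ (i + 2) = (2 - lam) * φ (i + 1)) :
    ∀ (w : List Ltr) (m : ℕ) (a : ℕ), 1 ≤ m → m + w.length + 1 = c + 1 →
    2 ≤ ones w →
    lam * G0 φ m (lb ((a, false) :: w)) ≤ TT (G0 φ m) ((a, false) :: w) := by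
  intro w
  induction w with
  | nil => intro m a _ _ h; simp at h
  | cons y w ih =>
    intro m a hm hl ht
    rw [TT_cons]
    simp only [List.length_cons] at hl
    have d1 := hdec m hm (by omega)
    have h2 : (fun l => G0 φ m (false :: l)) = G0 φ (m + 1) := by
      funext l
      simp only [G0]
    rcases y with ⟨b, _ | _⟩
    · have h1 := ih (m + 1) b (by omega) (by omega) (by simpa using ht)
      have : pt (G0 φ m) (a, false) (b, false) (lb w) = 0 := by
        simp [pt]
      rw [this, zero_add]
      exact h1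
    · have hmem : true ∈ lb w := by
        have : 1 ≤ ones w := by
          rw [ones_cons_true] at ht
          omega
        clear ih hl ht h2
        induction w with
        | nil => simp at this
        | cons z w ih =>
          rcases z with ⟨e, _ | _⟩
          · rw [ones_cons_false] at this
            simp [ih this]
          · simp
      have h1 := P0t hdec hrec (m + 1) (by omega) b w (by omega) hmem
      have hp : pt (G0 φ m) (a, false) (b, true) (lb w) = φ (m + 1) - φ m := by
        simp only [pt, G0, G1]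
        rw [if_neg (by simp)]
        exact G1_sub (φ (m + 1)) (φ m) (lb w) (m + 1 + 1) hmem
      rw [hp]
      simp only [h2]
      have : G0 φ m (lb ((a, false) :: (b, true) :: w)) = G0 φ (m + 1) (lb ((b, true) :: w)) := by
        simp only [lb_cons, G0]
      rw [this]
      have h3 := hrec m
      rw [show m + 1 + 1 = m + 2 by ring] at h1
      linarith

lemma mem_of_ones {w : List Ltr} (h : 1 ≤ ones w) : true ∈ lb w := by
  induction w with
  | nil => simp at h
  | cons z w ih =>
    rcases z with ⟨e, _ | _⟩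
    · rw [ones_cons_false] at h
      simp [ih h]
    · simp

/-- the row inequality before division -/
lemma twoOnes_step (hdec : ∀ i, 1 ≤ i → i ≤ c + 1 → φ (i + 1) ≤ φ i)
    (hrec : ∀ i, φ i + φ (i + 2) = (2 - lam) * φ (i + 1)) (h01 : φ 0 = φ 1)
    (w : List Ltr) (hl : w.length = c) (ho : 2 ≤ ones w) :
    lam * G0 φ 1 (lb w) ≤ TT (G0 φ 1) w := by
  cases w with
  | nil => simp at ho
  | cons z w =>
    simp only [List.length_cons] at hl
    rcases z with ⟨a, _ | _⟩
    · exact P0f hdec hrec w 1 a le_rfl (by omega) (by simpa using ho)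
    · have h1 := P0t hdec hrec 1 le_rfl a w (by omega) (mem_of_ones (by
        rw [ones_cons_true] at ho; omega))
      have h2 := hrec 0
      rw [h01] at h2
      norm_num at h1 h2
      simp only [lb_cons]
      linarith

lemma G1_ge (hdec : ∀ i, 1 ≤ i → i ≤ c + 1 → φ (i + 1) ≤ φ i) (α : ℝ) :
    ∀ (l : List Bool) (m : ℕ), 1 ≤ m → m + l.length = c + 1 → true ∈ l →
    α - φ (m + 1) ≤ G1 φ α m l := by
  intro l
  induction l with
  | nil => intro m _ _ h; simp at h
  | cons x l ih =>
    intro m hm hl ht
    simp only [List.length_cons] at hl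
    cases x
    · have h1 := ih (m + 1) (by omega) (by omega) (by simpa using ht)
      have h2 := hdec (m + 1) (by omega) (by omega)
      simp only [G1]
      linarith
    · simp only [G1]
      exact le_rfl

lemma G0_pos (hdec : ∀ i, 1 ≤ i → i ≤ c + 1 → φ (i + 1) ≤ φ i)
    (hdec' : ∀ i, 1 ≤ i → i ≤ c → φ (i + 1) < φ i) :
    ∀ (w : List Ltr) (m : ℕ), 1 ≤ m → m + w.length = c + 1 → 2 ≤ ones w →
    0 < G0 φ m (lb w) := by
  intro w
  induction w with
  | nil => intro m _ _ h; simp at h
  | cons x w ih =>
    intro m hm hl ht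
    simp only [List.length_cons] at hl
    rcases x with ⟨a, _ | _⟩
    · simp only [lb_cons, G0]
      exact ih (m + 1) (by omega) (by omega) (by simpa using ht)
    · simp only [lb_cons, G0]
      have hmem : true ∈ lb w := mem_of_ones (by rw [ones_cons_true] at ht; omega)
      have h1 := G1_ge hdec (φ m) (lb w) (m + 1) (by omega) (by simp [lb]; omega) hmem
      have h2 := hdec' m hm (by omega)
      have h3 := hdec (m + 1) (by omega) (by
        have : w ≠ [] := by rintro rfl; simp at hmem
        have : 1 ≤ w.length := List.length_pos_iff.mpr this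
        omega)
      linarith

end phases

end Q169.Kh
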