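import Mathlib

/-!
# Words model of the merge complex of the twisted unknots

A letter `(a, l)` is a circle made of `a + 1` consecutive circles with label `l`
(`true` for the unit, `false` for `X`).  This file computes the Laplacian of the complex of words.
-/

namespace Q169.Kh

open Finset

abbrev Ltr := ℕ × Bool

/-- the product letter -/
def pr (x y : Ltr) : Ltr := (x.1 + y.1 + 1, x.2 && y.2)

/-- two letters have a nonzero product -/
def ok (x y : Ltr) : Prop := x.2 = true ∨ y.2 = true

instance (x y : Ltr) : Decidable (ok x y) := by unfold ok; infer_instance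

/-- the sign of a letter -/
noncomputable def sg (x : Ltr) : ℝ := (-1) ^ x.1

lemma sg_sq (x : Ltr) : sg x * sg x = 1 := by
  unfold sg
  rw [← pow_add, ← two_mul, pow_mul]
  simp

lemma sg_pr (x y : Ltr) : sg (pr x y) = - (sg x * sg y) := by
  unfold sg pr
  simp only
  rw [pow_add, pow_add]
  ring

/-- factorisations of a letter -/
def fc (z : Ltr) : Finset (Ltr × Ltr) :=
  (((range z.1) ×ˢ univ) ×ˢ ((range z.1) ×ˢ univ)).filter
    (fun p => ok p.1 p.2 ∧ pr p.1 p.2 = z)

lemma mem_fc (z : Ltr) (p : Ltr × Ltr) : p ∈ fc z ↔ ok p.1 p.2 ∧ pr p.1 p.2 = z := by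
  unfold fc
  simp only [mem_filter, mem_product, mem_range, mem_univ, and_true, and_iff_right_iff_imp]
  rintro ⟨_, h⟩
  rw [← h]
  unfold pr
  simp only
  omega

/-- merging two adjacent letters: the transpose of the differential -/
noncomputable def dn : List Ltr → (List Ltr → ℝ) → ℝ
  | [], _ => 0
  | [_], _ => 0
  | x :: y :: w, f =>
      sg x * ((if ok x y then f (pr x y :: w) else 0) + dn (y :: w) (fun v => f (x :: v)))

/-- splitting a letter: the differential acting on functions -/
noncomputable def up : List Ltr → (List Ltr → ℝ) → ℝ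
  | [], _ => 0
  | z :: w, f =>
      (∑ p ∈ fc z, sg p.1 * f (p.1 :: p.2 :: w)) + sg z * up w (fun v => f (z :: v))

lemma dn_add (w : List Ltr) (f g : List Ltr → ℝ) :
    dn w (fun v => f v + g v) = dn w f + dn w g := by
  induction w generalizing f g with
  | nil => simp [dn]
  | cons x w ih =>
    cases w with
    | nil => simp [dn]
    | cons y w =>
      simp only [dn]
      rw [ih]
      split_ifs <;> ring

lemma dn_smul (w : List Ltr) (c : ℝ) (f : List Ltr → ℝ) :
    dn w (fun v => c * f v) = c * dn w f := by
  induction w generalizing f with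
  | nil => simp [dn]
  | cons x w ih =>
    cases w with
    | nil => simp [dn]
    | cons y w =>
      simp only [dn]
      rw [ih]
      split_ifs <;> ring

lemma dn_zero (w : List Ltr) : dn w (fun _ => 0) = 0 := by
  have := dn_smul w 0 (fun _ => 0)
  simpa using this

lemma dn_sum {ι : Type*} (w : List Ltr) (s : Finset ι) (f : ι → List Ltr → ℝ) :
    dn w (fun v => ∑ i ∈ s, f i v) = ∑ i ∈ s, dn w (f i) := by
  classical
  induction s using Finset.induction_on with
  | empty => simp [dn_zero]
  | insert a s ha ih =>
    rw [Finset.sum_insert ha, ← ih, ← dn_add]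
    congr 1
    funext v
    rw [Finset.sum_insert ha]

lemma up_add (w : List Ltr) (f g : List Ltr → ℝ) :
    up w (fun v => f v + g v) = up w f + up w g := by
  induction w generalizing f g with
  | nil => simp [up]
  | cons x w ih =>
    simp only [up]
    rw [ih, ← sub_eq_zero]
    simp only [mul_add, Finset.sum_add_distrib]
    ring

lemma up_smul (w : List Ltr) (c : ℝ) (f : List Ltr → ℝ) :
    up w (fun v => c * f v) = c * up w f := by
  induction w generalizing f with
  | nil => simp [up]
  | cons x w ih =>
    simp only [up]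
    rw [ih, mul_add, Finset.mul_sum]
    congr 1
    · apply Finset.sum_congr rfl
      intro p _
      ring
    · ring

lemma up_zero (w : List Ltr) : up w (fun _ => 0) = 0 := by
  have := up_smul w 0 (fun _ => 0)
  simpa using this

lemma up_sum {ι : Type*} (w : List Ltr) (s : Finset ι) (f : ι → List Ltr → ℝ) :
    up w (fun v => ∑ i ∈ s, f i v) = ∑ i ∈ s, up w (f i) := by
  classical
  induction s using Finset.induction_on with
  | empty => simp [up_zero]
  | insert a s ha ih =>
    rw [Finset.sum_insert ha, ← ih, ← up_add]
    congr 1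
    funext v
    rw [Finset.sum_insert ha]

/-- the Laplacian on functions on words -/
noncomputable def lap (w : List Ltr) (f : List Ltr → ℝ) : ℝ :=
  up w (fun v => dn v f) + dn w (fun v => up v f)

/-- the interaction of two adjacent letters -/
noncomputable def pint (z y : Ltr) (F : Ltr → Ltr → ℝ) : ℝ :=
  (∑ p ∈ fc z, sg p.2 * (if ok p.2 y then F p.1 (pr p.2 y) else 0)) +
  (∑ p ∈ fc y, sg p.1 * (if ok z p.1 then F (pr z p.1) p.2 else 0)) +
  (if ok z y then sg z * ∑ p ∈ fc (pr z y), sg p.1 * F p.1 p.2 else 0)

lemma lap_nil (f : List Ltr → ℝ) : lap [] f = 0 := by simp [lap, up, dn]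

lemma lap_single (z : Ltr) (f : List Ltr → ℝ) : lap [z] f = (fc z).card * f [z] := by
  unfold lap
  simp only [up, dn]
  rw [Finset.sum_congr rfl (g := fun _ => f [z])]
  · simp [up]
  · intro p hp
    rw [mem_fc] at hp
    rw [if_pos hp.1, hp.2]
    simp only [add_zero]
    rw [← mul_assoc, sg_sq, one_mul]

/-- the head merge as a function -/
noncomputable def hm (z : Ltr) (f : List Ltr → ℝ) : List Ltr → ℝ
  | [] => 0
  | y :: w => if ok z y then f (pr z y :: w) else 0

lemma dn_cons_fun (z : Ltr) (f : List Ltr → ℝ) (v : List Ltr) :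
    dn (z :: v) f = sg z * (hm z f v + dn v (fun u => f (z :: u))) := by
  cases v with
  | nil => simp [dn, hm]
  | cons y w => simp [dn, hm]

lemma lap_cons_cons (z y : Ltr) (w : List Ltr) (f : List Ltr → ℝ) :
    lap (z :: y :: w) f = (fc z).card * f (z :: y :: w) + lap (y :: w) (fun v => f (z :: v)) +
      pint z y (fun p q => f (p :: q :: w)) := by
  -- up (dn)
  have h1 : up (z :: y :: w) (fun v => dn v f) =
      (fc z).card * f (z :: y :: w) +
      (∑ p ∈ fc z, sg p.2 * (if ok p.2 y then f (p.1 :: pr p.2 y :: w) else 0)) +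
      (∑ p ∈ fc z, sg p.2 * dn (y :: w) (fun v => f (p.1 :: p.2 :: v))) +
      up (y :: w) (hm z f) + up (y :: w) (fun v => dn v (fun u => f (z :: u))) := by
    have e1 : up (z :: y :: w) (fun v => dn v f) =
        (∑ p ∈ fc z, sg p.1 * dn (p.1 :: p.2 :: y :: w) f) +
          sg z * up (y :: w) (fun v => dn (z :: v) f) := rfl
    have e2 : up (y :: w) (fun v => dn (z :: v) f) =
        sg z * (up (y :: w) (hm z f) + up (y :: w) (fun v => dn v (fun u => f (z :: u)))) := by
      rw [← up_add, ← up_smul]
      congr 1
      funext v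
      rw [dn_cons_fun]
    have e3 : ∀ p ∈ fc z, sg p.1 * dn (p.1 :: p.2 :: y :: w) f =
        f (z :: y :: w) + sg p.2 * (if ok p.2 y then f (p.1 :: pr p.2 y :: w) else 0) +
          sg p.2 * dn (y :: w) (fun v => f (p.1 :: p.2 :: v)) := by
      intro p hp
      rw [mem_fc] at hp
      rw [dn, if_pos hp.1, hp.2, dn, ← mul_assoc, sg_sq]
      ring
    rw [e1, e2, Finset.sum_congr rfl e3, Finset.sum_add_distrib, Finset.sum_add_distrib,
      ← mul_assoc, sg_sq]
    simp only [Finset.sum_const, nsmul_eq_mul]
    ring
  have h2 : up (y :: w) (hm z f) =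
      (∑ p ∈ fc y, sg p.1 * (if ok z p.1 then f (pr z p.1 :: p.2 :: w) else 0)) +
      (if ok z y then sg y * up w (fun v => f (pr z y :: v)) else 0) := by
    rw [up]
    have : up w (fun v => hm z f (y :: v)) =
        if ok z y then up w (fun v => f (pr z y :: v)) else 0 := by
      split_ifs with h
      · simp [hm, h]
      · simp [hm, h, up_zero]
    rw [this]
    congr 1
    split_ifs <;> simp
  have h3 : dn (z :: y :: w) (fun v => up v f) =
      (if ok z y then sg z * ∑ p ∈ fc (pr z y), sg p.1 * f (p.1 :: p.2 :: w) else 0) -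
      (if ok z y then sg y * up w (fun v => f (pr z y :: v)) else 0) -
      (∑ p ∈ fc z, sg p.2 * dn (y :: w) (fun v => f (p.1 :: p.2 :: v))) +
      dn (y :: w) (fun v => up v (fun u => f (z :: u))) := by
    rw [dn]
    have e1 : dn (y :: w) (fun v => up (z :: v) f) =
        (∑ p ∈ fc z, sg p.1 * dn (y :: w) (fun v => f (p.1 :: p.2 :: v))) +
          sg z * dn (y :: w) (fun v => up v (fun u => f (z :: u))) := by
      simp only [up]
      rw [dn_add, dn_sum, dn_smul]
      congr 1
      apply Finset.sum_congr rfl
      intro p _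
      rw [dn_smul]
    have e2 : sg z * (∑ p ∈ fc z, sg p.1 * dn (y :: w) (fun v => f (p.1 :: p.2 :: v))) =
        - (∑ p ∈ fc z, sg p.2 * dn (y :: w) (fun v => f (p.1 :: p.2 :: v))) := by
      rw [Finset.mul_sum, ← Finset.sum_neg_distrib]
      apply Finset.sum_congr rfl
      intro p hp
      rw [mem_fc] at hp
      have h5 : sg z = -(sg p.1 * sg p.2) := by rw [← hp.2, sg_pr]
      rw [h5]
      have := sg_sq p.1
      linear_combination (-(sg p.2 * dn (y :: w) (fun v => f (p.1 :: p.2 :: v)))) * this
    have e3 : (if ok z y then up (pr z y :: w) f else 0) =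
        (if ok z y then ∑ p ∈ fc (pr z y), sg p.1 * f (p.1 :: p.2 :: w) else 0) +
        (if ok z y then -(sg z * sg y) * up w (fun v => f (pr z y :: v)) else 0) := by
      split_ifs
      · rw [up, sg_pr]
      · simp
    rw [e1, e3, mul_add, mul_add, mul_add, e2, ← mul_assoc (sg z) (sg z), sg_sq]
    split_ifs
    · linear_combination (-(sg y * up w (fun v => f (pr z y :: v)))) * sg_sq z
    · ring
  unfold lap
  rw [h1, h2, h3]
  unfold pint
  ring

/-- the square of the transposed differential vanishes -/
lemma dn_dn (w : List Ltr) (f : List Ltr → ℝ) : dn w (fun v => dn v f) = 0 := by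
  induction w generalizing f with
  | nil => simp [dn]
  | cons x w ih =>
    cases w with
    | nil => simp [dn]
    | cons y w =>
      rw [dn]
      have e1 : dn (y :: w) (fun v => dn (x :: v) f) =
          sg x * (dn (y :: w) (hm x f)) := by
        have : (fun v => dn (x :: v) f) =
            fun v => sg x * (hm x f v + dn v (fun u => f (x :: u))) := by
          funext v
          rw [dn_cons_fun]
        rw [this, dn_smul, dn_add, ih, add_zero]
      rw [e1]
      cases w with
      | nil =>
        simp [dn]
      | cons y' w =>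
        have f1 := dn_cons_fun (pr x y) f (y' :: w)
        have f2 : dn (y :: y' :: w) (hm x f) = sg y * ((if ok y y' then
            hm x f (pr y y' :: w) else 0) + dn (y' :: w) (fun v => hm x f (y :: v))) := rfl
        rw [f1, f2]
        have e2 : (if ok y y' then hm x f (pr y y' :: w) else 0) =
            if ok x y then (hm (pr x y) f (y' :: w)) else
              0 := by
          simp only [hm, ok, pr]
          rcases x with ⟨a, _ | _⟩ <;> rcases y with ⟨b, _ | _⟩ <;> rcases y' with ⟨c, _ | _⟩ <;>
            simp [show a + (b + c + 1) + 1 = a + b + 1 + c + 1 by ring]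
        have e3 : dn (y' :: w) (fun v => hm x f (y :: v)) =
            if ok x y then dn (y' :: w) (fun v => f (pr x y :: v)) else 0 := by
          split_ifs with h
          · simp [hm, h]
          · simp [hm, h, dn_zero]
        rw [e2, e3, sg_pr]
        split_ifs
        · ring
        · simp

end Q169.Kh
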